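import Pool.Agent.H86.AP.Stp

/-!
# H86-AP-ENGD: the engine of AP, definitions

`RX`: the configurations outside `E` such that every class different from `j₀` has a large prime. `UU`: the additional primes `u`. `Sm D c j₀ X`: the sums of `X` over the
configurations (with `E`) with one more prime `u` of class `j₀` and norm `> T₀ = exp ((log Y)^ε)`, with arbitrary weights in `[0,1]` of the rest, are `≤ Y (log Y)^(-A)` for large `Y`,
uniformly in `E`, `e` with `nr E ≤ (log Y)^A₁`.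
-/

set_option autoImplicit false
set_option linter.dupNamespace false

open scoped NumberField ComplexConjugate
open IsDedekindDomain
open scoped Classical

noncomputable section

namespace H86.AP

open H63.MA H38.ML H38.BB H38.BG H57.PC H57.BRA H77.PC3 H77.WD Pool.Agent.H19.NF
  Pool.Agent.H19.AB H35.CF

variable {K : Type} [Field K] [NumberField K] {p N : ℕ} {ζ : K}

/-- the configurations outside `E` such that every class different from `j₀` has a prime of norm `> T₀` -/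
def RX (D : RD0 K p ζ) (j₀ : Fin N) (T₀ Y : ℝ) (E : Finset (Pl K)) :
    Finset (Pl K → Option (Fin N)) :=
  (Cf (ZZ D Y \ E) (Fin N)).filter fun f =>
    (∀ j, j ≠ j₀ → ∃ v ∈ pl (ZZ D Y \ E) f j, T₀ < (nm v : ℝ)) ∧ nr (sp (ZZ D Y \ E) f) ≤ Y

/-- the additional primes (`T` the support of the configuration) -/
def UU (D : RD0 K p ζ) (T₀ Y : ℝ) (E T : Finset (Pl K)) : Finset (Pl K) :=
  (ZZ D Y \ E).filter fun u => u ∉ T ∧ T₀ < (nm u : ℝ) ∧ nr T * (nm u : ℝ) ≤ Y

/-- smallness -/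
def Sm (D : RD0 K p ζ) [NeZero N] {P : Type} [Group P] (c : CL p N P) (j₀ : Fin N)
    (X : Finset (Pl K) → (Pl K → P) → ℂ) : Prop :=
  ∀ (ε : ℝ) (A A₁ : ℕ), 0 < ε → ∃ Y₀ : ℝ, ∀ Y : ℝ, Y₀ ≤ Y →
    ∀ (E : Finset (Pl K)) (e : Pl K → P), (∀ v ∈ E, v ∉ D.S0) → nr E ≤ Real.log Y ^ A₁ →
    ∀ wt : (Pl K → Option (Fin N)) → ℝ, (∀ f, 0 ≤ wt f ∧ wt f ≤ 1) →
    ‖∑ f ∈ RX D j₀ (Real.exp (Real.log Y ^ ε)) Y E, (wt f : ℂ) *
      ∑ u ∈ UU D (Real.exp (Real.log Y ^ ε)) Y E (sp (ZZ D Y \ E) f),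
        X (insert u (sp (ZZ D Y \ E) f ∪ E)) (Function.update (gl c E e f) u (c.g j₀))‖ ≤
      Y * Real.log Y ^ (-(A : ℝ))

end H86.AP
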