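import Pool.Agent.H77.WD.Fra
import Pool.Agent.H77.WD.Tyf
import Pool.Agent.H77.PC3.CDef
import Pool.Agent.H19.AB.Fi
import Pool.Agent.H57.AN.Che
import Pool.Agent.H35.CF.Defs

/-!
# H86-AP-DF: definitions for AP (main term of Malle's conjecture for groups of exponent p, MP_b39724_nt, think 1507)

`P` a finite group of exponent `p`, `c : CL p N P` representatives of all nontrivial classes, `q : P →* G` onto, `b` a 2-cochain of `P` and `w` a 3-cochain of `G` with values in
`ZMod (p^m)`, `d2 b = w ∘ q` (a state). `Γ = Gal(Ω/K)`, `φ₁ : Γ →* P` a base homomorphism (the type at `S0`). `T` a finite set of primes outside `S0` (any norm) with labels `γ v : P` (any elements,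
also `1`; only the conjugacy class matters).
* `ec`, `ch`: the characters of `ℝ/ℤ`, `ZMod n`.
* `Vg q b g s x`: the mean of `e(-⟨b⟩)` over the commuting pairs `(σ, x')` over `(s, x)`, `σ` conjugate to `g`, divided by `#ker q`.
* `XS L Q φ₁ T`: the homomorphisms `Γ →* G` of finite type, unramified outside `S0 ∪ T`, equal to `φ₁` at `S0`. `HS L H T`: without the condition at `S0`.
* `Jf I w φ φ₁ = I (φ^* w - φ₁^* w)`, `I` a functional on the 3-cochains of `Γ`.
* `BB`: the sum over `φ ∈ XS T` of `e(Jf)` and the product over `T` of the `Vg` (label `γ v`, weight `lam v` of the torus; `lam v = 1` at the good primes).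
* `cf f`: the classes of a configuration `f : Pl K → Option (Fin N)` (`Cf`, `sp` of H35/CF). `ZZ D Y`: the good primes of norm at most `Y`.
* `Rich M T₀`: every class has at least `M` primes of norm `> T₀`. `SS c X D E e M T₀ Y`: the sum of `X T γ` over the rich configurations outside `E`, `T` the support and `E`, `gl` the labels
  (`e v` at `E`).
-/

set_option autoImplicit false
set_option linter.dupNamespace false

open scoped NumberField
open IsDedekindDomain
open scoped Classical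

noncomputable section

namespace H86.AP

open H63.MA H38.BB H38.BG H57.PC H57.BRA H77.PC3 H77.WD Pool.Agent.H19.NF Pool.Agent.H19.AB H35.CF

section chars

/-- the character of `ℝ/ℤ` -/
def ec : AddChar (AddCircle (1 : ℝ)) ℂ where
  toFun x := (AddCircle.toCircle x : ℂ)
  map_zero_eq_one' := by simp
  map_add_eq_mul' x y := by rw [AddCircle.toCircle_add, Circle.coe_mul]

/-- the character of `ZMod n` -/
def ch (n : ℕ) [NeZero n] : AddChar (ZMod n) ℂ where
  toFun x := ec (ZMod.toAddCircle x)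
  map_zero_eq_one' := by rw [map_zero, AddChar.map_zero_eq_one]
  map_add_eq_mul' x y := by rw [map_add, AddChar.map_add_eq_mul]

end chars

section grp

variable {p m N : ℕ} {P G : Type} [Group P] [Group G]

/-- commuting pairs -/
def WC (σ x : P) : ℂ := if σ * x = x * σ then 1 else 0

/-- the local weight -/
def Vg [Fintype P] [NeZero (p ^ m)] (q : P →* G) (b : P → P → ZMod (p ^ m)) (g : P) (s x : G) :
    ℂ :=
  (Nat.card q.ker : ℂ)⁻¹ *
    ∑ σ : P, if IsConj σ g ∧ q σ = s then VV (ch (p ^ m)) q b WC σ x else 0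

/-- a state: `b` and `w` normalised, killed by `p ^ k`, `d2 b = w ∘ q`, `d3 w = 0` -/
structure Sta (p m k : ℕ) (q : P →* G) (b : P → P → ZMod (p ^ m))
    (w : G → G → G → ZMod (p ^ m)) : Prop where
  nb : Nr2 b
  nw : Nr3 w
  cob : ∀ x y z, d2 b x y z = w (q x) (q y) (q z)
  coc : ∀ x y z t, d3 w x y z t = 0
  tb : ∀ x y, p ^ k • b x y = 0
  tw : ∀ x y z, p ^ k • w x y z = 0

end grp

section gal

variable {K : Type} [Field K] [NumberField K] {Ω : Type} [Field Ω] [Algebra K Ω]
  {p m N : ℕ} {ζ : K} {D : RD0 K p ζ} {P G : Type} [Group P] [Group G]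

/-- homomorphisms of finite type, unramified outside `S0 ∪ T`, equal to `φ₁` at `S0` -/
def XT (L : LDs D Ω) (Q : DP K Ω) (φ₁ : Gal(Ω/K) →* G) (T : Finset (Pl K)) :
    Set (Gal(Ω/K) →* G) := {φ | Hon L T φ ∧ Teq D.S0 Q φ φ₁}

/-- the finite set `XT` -/
def XS (L : LDs D Ω) (Q : DP K Ω) (φ₁ : Gal(Ω/K) →* G) (T : Finset (Pl K)) :
    Finset (Gal(Ω/K) →* G) := if h : (XT L Q φ₁ T).Finite then h.toFinset else ∅

/-- homomorphisms of finite type, unramified outside `S0 ∪ T` -/
def HS (L : LDs D Ω) (H : Type) [Group H] (T : Finset (Pl K)) : Finset (Gal(Ω/K) →* H) :=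
  if h : {φ : Gal(Ω/K) →* H | Hon L T φ}.Finite then h.toFinset else ∅

/-- the value of the functional -/
def Jf (I : (Gal(Ω/K) → Gal(Ω/K) → Gal(Ω/K) → ZMod (p ^ m)) →+ AddCircle (1 : ℝ))
    (w : G → G → G → ZMod (p ^ m)) (φ φ₁ : Gal(Ω/K) →* G) : AddCircle (1 : ℝ) :=
  I fun a b c => w (φ a) (φ b) (φ c) - w (φ₁ a) (φ₁ b) (φ₁ c)

/-- the sum over the homomorphisms with given ramification: labels `γ v` at `v ∈ T` -/
def BB [Fintype P] [NeZero (p ^ m)] (L : LDs D Ω) (Q : DP K Ω) (Fr : FR L) (lam : Pl K → ZMod p)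
    (I : (Gal(Ω/K) → Gal(Ω/K) → Gal(Ω/K) → ZMod (p ^ m)) →+ AddCircle (1 : ℝ))
    (φ₁ : Gal(Ω/K) →* P) (q : P →* G) (b : P → P → ZMod (p ^ m))
    (w : G → G → G → ZMod (p ^ m)) (T : Finset (Pl K)) (γ : Pl K → P) : ℂ :=
  ∑ φ ∈ XS L Q (q.comp φ₁) T, ec (Jf I w φ (q.comp φ₁)) *
    ∏ v ∈ T, Vg q (fun x y => (lam v).val • b x y) (γ v) (φ (L.t v)) (φ (Fr.F v))

end gal

section num

variable {K : Type} [Field K] [NumberField K] {p m N : ℕ} {ζ : K}

/-- the classes -/
def cf [NeZero N] (f : Pl K → Option (Fin N)) (v : Pl K) : Fin N := (f v).getD 0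

/-- every class has at least `M` large primes -/
def Rich (M : ℕ) (T₀ : ℝ) (Z : Finset (Pl K)) (f : Pl K → Option (Fin N)) : Prop :=
  ∀ j, M ≤ ((pl Z f j).filter fun v => T₀ < (nm v : ℝ)).card

/-- the good primes of norm at most `Y` -/
def ZZ (D : RD0 K p ζ) (Y : ℝ) : Finset (Pl K) := (H57.AN.PB K Y).filter D.Gd

/-- the rich configurations outside `E` with norm at most `Y` -/
def RC (D : RD0 K p ζ) (N M : ℕ) (T₀ Y : ℝ) (E : Finset (Pl K)) :
    Finset (Pl K → Option (Fin N)) :=
  (Cf (ZZ D Y \ E) (Fin N)).filter fun f => Rich M T₀ (ZZ D Y \ E) f ∧ nr (sp (ZZ D Y \ E) f) ≤ Y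

/-- the labels: `e v` at `v ∈ E`, the representative of the class outside -/
def gl [NeZero N] {P : Type} [Group P] (c : CL p N P) (E : Finset (Pl K)) (e : Pl K → P)
    (f : Pl K → Option (Fin N)) (v : Pl K) : P := if v ∈ E then e v else c.g (cf f v)

variable {Ω : Type} [Field Ω] [Algebra K Ω] {D : RD0 K p ζ} {P G : Type} [Group P] [Group G]

/-- the sum of AP -/
def SS [NeZero N] (c : CL p N P) (X : Finset (Pl K) → (Pl K → P) → ℂ) (D : RD0 K p ζ)
    (E : Finset (Pl K)) (e : Pl K → P) (M : ℕ) (T₀ Y : ℝ) : ℂ :=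
  ∑ f ∈ RC D N M T₀ Y E, X (sp (ZZ D Y \ E) f ∪ E) (gl c E e f)

end num

end H86.AP
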