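import Pool.Agent.H86.AP.Ind
import Pool.Agent.H35.AC.Defs
import Pool.Agent.H77.PC3.CFr

/-!
# H86-AP-FIN: the P-level statements of AP (`APl`, `APp`, `APu` of H35/AC/Defs) from the induction
-/

set_option autoImplicit false
set_option linter.dupNamespace false

open scoped NumberField ComplexConjugate
open IsDedekindDomain Filter Topology
open scoped Classical

noncomputable section

namespace H86.AP

open H63.MA H38.ML H38.BB H38.BG H57.PC H57.BRA H57.GP H77.PC3 H77.WD H77.S0T H77.FLD H77.PLF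
  Pool.Agent.H19.NF Pool.Agent.H19.AB H35.CF H35.UB H35.AC

variable {p N : ℕ} {K : IntermediateField ℚ QBar} [NumberField K] {ζ : K} {D : RD0 K p ζ}
  {P : Type} [Group P]

private theorem t_inr (L : LDs D QBar) {v : Pl K} (hv : v ∉ D.S0) : L.t v ∈ inr L v := by
  unfold inr LDs.t
  rw [dif_pos hv, dif_pos hv]
  exact (L.ld v hv).ht

private theorem unr_iff [Finite P] (hp : p.Prime) (hζ : IsPrimitiveRoot ζ p) (L : LDs D QBar)
    (hP : ∀ x : P, x ^ p = 1) (φ : Gal(QBar/K) →* P) (hφ : FT φ) {v : Pl K} (hv : v ∉ D.S0) :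
    (∀ τ ∈ inr L v, φ τ = 1) ↔ φ (L.t v) = 1 :=
  ⟨fun h => h _ (t_inr L hv), (H48.MF.ing_inr hp hζ L hv φ hφ fun τ _ => ⟨1, by
    rw [pow_one]
    exact hP _⟩).2.2⟩

/-- the number of large typed primes -/
private theorem tyn_iff [Finite P] (hp : p.Prime) (L : LDs D QBar) (hP : ∀ x : P, x ^ p = 1)
    (c : CL p N P) (φ : Gal(QBar/K) →* P) (hφ : FT φ) (E : Finset (Pl K)) (T : ℝ) (i : Fin N)
    (M : ℕ) : M ≤ tyn L c E T φ i ↔ ∃ s : Finset (Pl K), M ≤ s.card ∧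
      ∀ v ∈ s, D.Gd v ∧ v ∉ E ∧ T < (nm v : ℝ) ∧ IsConj (φ (L.t v)) (c.g i) := by
  have hfin : {v : Pl K | v ∉ E ∧ T < (nm v : ℝ) ∧ TyC c L φ i v}.Finite := by
    refine (ram_finite hp D L φ hφ).subset ?_
    rintro v ⟨-, -, h1, h2, -⟩
    refine ⟨h1.1, fun h3 => c.ne i ?_⟩
    rw [h3] at h2
    exact (isConj_one_right.1 h2)
  have hmem : ∀ v, v ∈ {v : Pl K | v ∉ E ∧ T < (nm v : ℝ) ∧ TyC c L φ i v} ↔
      (D.Gd v ∧ v ∉ E ∧ T < (nm v : ℝ) ∧ IsConj (φ (L.t v)) (c.g i)) := by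
    intro v
    constructor
    · rintro ⟨h1, h2, h3, h4, -⟩
      exact ⟨h3, h1, h2, h4⟩
    · rintro ⟨h1, h2, h3, h4⟩
      exact ⟨h2, h3, h1, h4, fun τ _ => hP _⟩
  unfold tyn
  rw [Set.ncard_eq_toFinset_card _ hfin]
  constructor
  · intro h
    exact ⟨hfin.toFinset, h, fun v hv => (hmem v).1 (hfin.mem_toFinset.1 hv)⟩
  · rintro ⟨s, h1, h2⟩
    exact h1.trans (Finset.card_le_card fun v hv => hfin.mem_toFinset.2 ((hmem v).2 (h2 v hv)))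

/-- the two descriptions of the rich homomorphisms with prescribed classes at `E` -/
theorem pu_sye [Finite P] (hp : p.Prime) (hζ : IsPrimitiveRoot ζ p) (L : LDs D QBar) (Q : DP K QBar)
    (hP : ∀ x : P, x ^ p = 1) (c : CL p N P) (hc : ∀ x : P, x ≠ 1 → ∃ j, IsConj x (c.g j))
    (E : Finset (Pl K)) (M : ℕ) (ε Y : ℝ) (φ φ₁ : Gal(QBar/K) →* P)
    (h : φ ∈ PU L c E Y ∧ Rch L c E M ε Y φ) (hT : Teq D.S0 Q φ φ₁) (e : Pl K → P)
    (he : ∀ v ∈ E, IsConj (φ (L.t v)) (e v)) :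
    φ ∈ SYE L Q c φ₁ E e M (Real.exp (Real.log Y ^ ε)) Y := by
  obtain ⟨⟨h1, h2, h3, h4⟩, h5⟩ := h
  refine ⟨h1, hT, he, fun v hv hvE hv1 => ?_, fun T hTT => ?_, fun j => ?_⟩
  · rcases h3 v hv hvE with h6 | ⟨i, h6⟩
    · exact absurd (h6 _ (t_inr L hv)) hv1
    · exact h6.1
  · exact h4 T fun v hv => ⟨(hTT v hv).1, (hTT v hv).2.1, fun h6 =>
      (hTT v hv).2.2 (h6 _ (t_inr L (hTT v hv).1))⟩
  · exact (tyn_iff hp L hP c φ h1 E _ j M).1 (h5 j)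

theorem sye_syg [Finite P] (hp : p.Prime) (hζ : IsPrimitiveRoot ζ p) (L : LDs D QBar)
    (Q : DP K QBar) (hP : ∀ x : P, x ^ p = 1) (c : CL p N P)
    (hc : ∀ x : P, x ≠ 1 → ∃ j, IsConj x (c.g j)) (M : ℕ) (ε Y : ℝ) (φ₁ : Gal(QBar/K) →* P)
    (hs : ∀ φ ∈ SYE L Q c φ₁ ∅ (fun _ => 1) M (Real.exp (Real.log Y ^ ε)) Y,
      Function.Surjective φ) :
    {φ | φ ∈ SYG L Q c φ₁ Y ∧ Rch L c ∅ M ε Y φ} =
      SYE L Q c φ₁ ∅ (fun _ => 1) M (Real.exp (Real.log Y ^ ε)) Y := by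
  ext φ
  constructor
  · rintro ⟨⟨h1, h2, h3, h4, h5⟩, h6⟩
    refine pu_sye hp hζ L Q hP c hc ∅ M ε Y φ φ₁ ⟨⟨h1, h2, fun v hv _ => h4 v hv, fun T hT =>
      h5 T fun v hv => ⟨(hT v hv).1, (hT v hv).2.2⟩⟩, h6⟩ h3 _ fun v hv =>
        absurd hv (Finset.notMem_empty v)
  · intro hφ
    have hsurj := hs φ hφ
    obtain ⟨h1, h2, -, h4, h5, h6⟩ := hφ
    refine ⟨⟨h1, hsurj, h2, fun v hv => ?_, fun T hT => ?_⟩, fun j =>
      (tyn_iff hp L hP c φ h1 ∅ _ j M).2 (h6 j)⟩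
    · by_cases hv1 : φ (L.t v) = 1
      · exact Or.inl ((unr_iff hp hζ L hP φ h1 hv).2 hv1)
      · obtain ⟨j, hj⟩ := hc _ hv1
        exact Or.inr ⟨j, h4 v hv (Finset.notMem_empty v) hv1, hj, fun τ _ => hP _⟩
    · exact h5 T fun v hv => ⟨(hT v hv).1, Finset.notMem_empty v, fun h7 =>
        (hT v hv).2 ((unr_iff hp hζ L hP φ h1 (hT v hv).1).2 h7)⟩

section main

variable {m : ℕ} [NeZero N]

/-- the data of the induction -/
theorem ap_get [Finite P] (hp : p.Prime) (hp2 : p ≠ 2) (hζ : IsPrimitiveRoot ζ p) (hm : 1 ≤ m)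
    {z : K} (hz : IsPrimitiveRoot z (p ^ (m + 1))) (hzζ : z ^ (p ^ m) = ζ) (D : RD K p ζ)
    (L : LDs D.toRD0 QBar) (Q : DP K QBar) (hP : ∀ x : P, x ^ p = 1)
    (hPm : Nat.card P ≤ p ^ m) (c : CL p N P) (hc : ∀ x : P, x ≠ 1 → ∃ j, IsConj x (c.g j))
    (φ₁ : Gal(QBar/K) →* P) (h₁ : FT φ₁) :
    ∃ (X : Finset (Pl K) → (Pl K → P) → ℂ) (κ : ℂ) (B : ℝ), Asy c D.toRD0 X κ ∧ 0 ≤ B ∧
      Upp c D.toRD0 X B ∧ (φ₁ = 1 → ∃ r : ℝ, κ = r ∧ 0 < r) ∧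
      ∀ (E : Finset (Pl K)) (e : Pl K → P), (∀ v ∈ E, v ∉ D.S0) → ∀ (M : ℕ) (T₀ Y : ℝ),
        (SYE L Q c φ₁ E e M T₀ Y).Finite ∧
        (1 ≤ M → ∀ φ ∈ SYE L Q c φ₁ E e M T₀ Y, Function.Surjective φ) ∧
        SS c X D.toRD0 E e M T₀ Y = ((SYE L Q c φ₁ E e M T₀ Y).ncard : ℂ) := by
  have : Fintype P := Fintype.ofFinite P
  have : NeZero (p ^ m) := ⟨pow_ne_zero _ hp.ne_zero⟩
  obtain ⟨Fr⟩ := H77.PC3.exists_FR hp hζ L
  have hM1 : MOne p K := ⟨-1, (hp.odd_of_ne_two hp2).neg_one_pow⟩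
  have hz2 : Z2 p K := by
    refine ⟨z ^ (p ^ (m - 1)), hz.pow (pow_pos hp.pos _) ?_⟩
    rw [← pow_add]
    congr 1
    omega
  obtain ⟨lam, hlam, hone⟩ := exists_rec_one K hp hM1 hζ
  have hone' : ∀ v, D.Gd v → lam v = 1 := fun v hv =>
    hone v (fun h => hv.1 (D.above v h)) hv.2
  obtain ⟨I, hI⟩ := exists_fun hp hM1 hζ hz2 Q Fr hlam hm hz hzζ
  have hst : Sta p m 0 (MonoidHom.id P) (0 : P → P → ZMod (p ^ m))
      (0 : P → P → P → ZMod (p ^ m)) := by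
    constructor
    · exact ⟨fun x => rfl, fun x => rfl⟩
    · exact ⟨fun x y => rfl, fun x y => rfl, fun x y => rfl⟩
    · intro x y z
      simp [d2]
    · intro x y z t
      simp [d3]
    · intro x y
      simp
    · intro x y z
      simp
  obtain ⟨κ, h1, ⟨B, h2, h3⟩, h4⟩ := ap_ind hp hp2 hζ hz hzζ D L Q Fr hlam hone' I hI hP c hc φ₁ h₁
    (Nat.card P) P (MonoidHom.id P) Function.surjective_id rfl 0 (by
      rw [pow_zero, mul_one]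
      exact hPm) 0 0 hst
  refine ⟨_, κ, B, h1, h2, h3, fun h => ?_, fun E e hE M T₀ Y =>
    start hp hζ D L Q Fr hone' I hP c hc φ₁ E e hE M T₀ Y⟩
  obtain ⟨r, hr, -, hr2⟩ := h4 h
  exact ⟨r, hr, hr2 rfl rfl⟩

/-- the limit -/
private theorem lim_of {D : RD0 K p ζ} {c : CL p N P} {X : Finset (Pl K) → (Pl K → P) → ℂ} {κ : ℂ}
    (hX : Asy c D X κ) {u : ℝ} {ε : ℝ} (hε : 0 < ε)
    (hu : Tendsto (fun Y : ℝ => ((RC D N 1 (Real.exp (Real.log Y ^ ε)) Y ∅).card : ℝ) /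
      (Y * Real.log Y ^ (N - 1))) atTop (𝓝 u)) (S : ℝ → ℕ)
    (hS : ∀ Y, SS c X D ∅ (fun _ => 1) 1 (Real.exp (Real.log Y ^ ε)) Y = (S Y : ℂ)) :
    Tendsto (fun Y : ℝ => (S Y : ℝ) / (Y * Real.log Y ^ (N - 1))) atTop (𝓝 (κ.re * u)) := by
  set R : ℝ → ℕ := fun Y => (RC D N 1 (Real.exp (Real.log Y ^ ε)) Y ∅).card with hR
  obtain ⟨Y₀, hY⟩ := hX ε 1 hε
  have h1 : Tendsto (fun Y : ℝ => κ.re * ((R Y : ℝ) / (Y * Real.log Y ^ (N - 1)))) atTop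
      (𝓝 (κ.re * u)) := hu.const_mul _
  have h2 : Tendsto (fun Y : ℝ => ((S Y : ℝ) - κ.re * R Y) / (Y * Real.log Y ^ (N - 1))) atTop
      (𝓝 0) := by
    have h3 : Tendsto (fun Y : ℝ => (Real.log Y)⁻¹) atTop (𝓝 0) :=
      tendsto_inv_atTop_zero.comp Real.tendsto_log_atTop
    refine squeeze_zero_norm' ?_ h3
    filter_upwards [eventually_ge_atTop Y₀, eventually_gt_atTop (0 : ℝ),
      Real.tendsto_log_atTop.eventually_ge_atTop 1] with Y g1 g2 g3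
    have g4 : (0 : ℝ) < Real.log Y := lt_of_lt_of_le zero_lt_one g3
    have g5 : ‖(S Y : ℝ) - κ.re * R Y‖ ≤ Y * (Real.log Y)⁻¹ := by
      have g6 := hY Y g1 1 le_rfl
      rw [hS] at g6
      have g7 : ((S Y : ℂ) - κ * (R Y : ℂ)).re = (S Y : ℝ) - κ.re * R Y := by
        rw [Complex.sub_re, Complex.natCast_re, Complex.mul_re, Complex.natCast_re, Complex.natCast_im,
          mul_zero, sub_zero]
      rw [← g7, Real.norm_eq_abs]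
      refine (Complex.abs_re_le_norm _).trans (g6.trans (le_of_eq ?_))
      rw [Nat.cast_one, Real.rpow_neg_one]
    rw [norm_div, Real.norm_of_nonneg (mul_pos g2 (pow_pos g4 _)).le,
      div_le_iff₀ (mul_pos g2 (pow_pos g4 _))]
    refine g5.trans ?_
    have g8 : 1 ≤ Real.log Y ^ (N - 1) := one_le_pow₀ g3
    have g9 : 0 < Y * (Real.log Y)⁻¹ := mul_pos g2 (inv_pos.2 g4)
    calc Y * (Real.log Y)⁻¹ = Y * (Real.log Y)⁻¹ * 1 := (mul_one _).symm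
      _ ≤ Y * (Real.log Y)⁻¹ * Real.log Y ^ (N - 1) := mul_le_mul_of_nonneg_left g8 g9.le
      _ = (Real.log Y)⁻¹ * (Y * Real.log Y ^ (N - 1)) := by ring
  have h3 := h2.add h1
  rw [zero_add] at h3
  refine h3.congr fun Y => ?_
  rw [← mul_div_assoc, ← add_div, sub_add_cancel]

/-- (L) with all classes rich -/
theorem ap_l [Finite P] (hp : p.Prime) (hp2 : p ≠ 2) (hζ : IsPrimitiveRoot ζ p) (hm : 1 ≤ m)
    {z : K} (hz : IsPrimitiveRoot z (p ^ (m + 1))) (hzζ : z ^ (p ^ m) = ζ) (D : RD K p ζ)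
    (hP : ∀ x : P, x ^ p = 1) (hPm : Nat.card P ≤ p ^ m) (c : CL p N P)
    (hc : ∀ x : P, x ≠ 1 → ∃ j, IsConj x (c.g j)) : APl D.toRD0 c := by
  refine ⟨1, fun ε hε hε1 L Q φ₁ h₁ => ?_⟩
  obtain ⟨u, -, hu⟩ := rc_lim (N := N) hp hζ D.toRD0
  obtain ⟨X, κ, B, h1, -, -, -, h2⟩ := ap_get hp hp2 hζ hm hz hzζ D L Q hP hPm c hc φ₁ h₁
  refine ⟨κ.re * u, ?_⟩
  have h3 := fun Y : ℝ => h2 ∅ (fun _ => 1) (fun v hv => absurd hv (Finset.notMem_empty v)) 1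
    (Real.exp (Real.log Y ^ ε)) Y
  refine (lim_of h1 hε (hu 1 ε hε hε1) _ fun Y => (h3 Y).2.2).congr fun Y => ?_
  rw [sye_syg hp hζ L Q hP c hc 1 ε Y φ₁ ((h3 Y).2.1 le_rfl)]

/-- (P) with all classes rich -/
theorem ap_p [Finite P] (hp : p.Prime) (hp2 : p ≠ 2) (hζ : IsPrimitiveRoot ζ p) (hm : 1 ≤ m)
    {z : K} (hz : IsPrimitiveRoot z (p ^ (m + 1))) (hzζ : z ^ (p ^ m) = ζ) (D : RD K p ζ)
    (hP : ∀ x : P, x ^ p = 1) (hPm : Nat.card P ≤ p ^ m) (c : CL p N P)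
    (hc : ∀ x : P, x ≠ 1 → ∃ j, IsConj x (c.g j)) : APp D.toRD0 c := by
  refine ⟨1, fun ε hε hε1 L Q => ?_⟩
  obtain ⟨u, hu0, hu⟩ := rc_lim (N := N) hp hζ D.toRD0
  obtain ⟨X, κ, B, h1, -, -, h4, h2⟩ := ap_get hp hp2 hζ hm hz hzζ D L Q hP hPm c hc 1
    ⟨⊥, inferInstance, fun σ _ => by rw [MonoidHom.mem_ker, MonoidHom.one_apply]⟩
  obtain ⟨r, rfl, hr⟩ := h4 rfl
  have h3 := fun Y : ℝ => h2 ∅ (fun _ => 1) (fun v hv => absurd hv (Finset.notMem_empty v)) 1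
    (Real.exp (Real.log Y ^ ε)) Y
  have h5 := lim_of h1 hε (hu 1 ε hε hε1) _ fun Y => (h3 Y).2.2
  rw [Complex.ofReal_re] at h5
  have h6 : 0 < r * u := mul_pos hr hu0
  refine ⟨r * u / 2, half_pos h6, ?_⟩
  filter_upwards [h5.eventually_const_le (half_lt_self h6), eventually_gt_atTop (0 : ℝ),
    Real.tendsto_log_atTop.eventually_ge_atTop 1] with Y g1 g2 g3
  have g4 : 0 < Y * Real.log Y ^ (N - 1) :=
    mul_pos g2 (pow_pos (lt_of_lt_of_le zero_lt_one g3) _)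
  rw [le_div_iff₀ g4] at g1
  rw [sye_syg hp hζ L Q hP c hc 1 ε Y 1 ((h3 Y).2.1 le_rfl)]
  exact g1

/-- (U) with all classes rich -/
theorem ap_u [Finite P] (hp : p.Prime) (hp2 : p ≠ 2) (hζ : IsPrimitiveRoot ζ p) (hm : 1 ≤ m)
    {z : K} (hz : IsPrimitiveRoot z (p ^ (m + 1))) (hzζ : z ^ (p ^ m) = ζ) (D : RD K p ζ)
    (hP : ∀ x : P, x ^ p = 1) (hPm : Nat.card P ≤ p ^ m) (c : CL p N P)
    (hc : ∀ x : P, x ≠ 1 → ∃ j, IsConj x (c.g j)) : APu D.toRD0 c := by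
  have : Fintype P := Fintype.ofFinite P
  have hM1 : MOne p K := ⟨-1, (hp.odd_of_ne_two hp2).neg_one_pow⟩
  refine ⟨1, fun L A₁ ε hε hε1 => ?_⟩
  obtain ⟨Q⟩ := exists_DP K QBar
  obtain ⟨R, hR, hR2⟩ := ty_fin hp hM1 hζ D.toRD0 L Q _ P rfl
    (fun x => ⟨1, by rw [pow_one]; exact hP x⟩)
  obtain ⟨u, hu0, hu⟩ := rc_lim (N := N) hp hζ D.toRD0
  have h1 := fun φ₁ : R => ap_get hp hp2 hζ hm hz hzζ D L Q hP hPm c hc φ₁.1 (hR _ φ₁.2)
  choose X κ B _ hB hX _ hS using h1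
  choose Ys hYs using fun φ₁ => hX φ₁ ε 1 ⌈A₁⌉₊ hε
  have hu1 := (hu 1 ε hε hε1).eventually_le_const (lt_add_one u)
  obtain ⟨Y₁, hY₁⟩ := eventually_atTop.1 (hu1.and
    ((Real.tendsto_log_atTop.eventually_ge_atTop 1).and (eventually_gt_atTop (0 : ℝ))))
  set C₁ : ℝ := ∑ φ₁ : R, (B φ₁ * (u + 1) + 1) with hC₁
  have hC₁0 : 0 ≤ C₁ := Finset.sum_nonneg fun φ₁ _ => by
    have := hB φ₁
    positivity
  set C : ℝ := max (max C₁ (Nat.card P)) 1 with hC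
  refine ⟨C, max (max 3 Y₁) (∑ φ₁ : R, |Ys φ₁|), le_max_right _ _,
    le_trans (le_max_left _ _) (le_max_left _ _), fun E Y hY hn hE => ?_⟩
  have g1 : Y₁ ≤ Y := le_trans (le_trans (le_max_right _ _) (le_max_left _ _)) hY
  have g2 : ∀ φ₁, Ys φ₁ ≤ Y := fun φ₁ => le_trans (le_abs_self _) (le_trans
    (Finset.single_le_sum (f := fun i => |Ys i|) (fun j _ => abs_nonneg _) (Finset.mem_univ φ₁))
    (le_trans (le_max_right _ _) hY))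
  obtain ⟨g3, g4, g5⟩ := hY₁ Y g1
  have g6 : 0 < Real.log Y := lt_of_lt_of_le zero_lt_one g4
  set W : ℝ := Y * Real.log Y ^ (N - 1) with hW
  have g7 : 0 < W := mul_pos g5 (pow_pos g6 _)
  have hn' : nr E ≤ Real.log Y ^ ⌈A₁⌉₊ := by
    refine hn.trans ?_
    rw [← Real.rpow_natCast]
    exact Real.rpow_le_rpow_of_exponent_le g4 (Nat.le_ceil A₁)
  set T₀ := Real.exp (Real.log Y ^ ε) with hT₀
  set ex : (E → P) → Pl K → P := fun e v => if h : v ∈ E then e ⟨v, h⟩ else 1 with hex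
  set U : Set (Gal(QBar/K) →* P) := ⋃ φ₁ : R, ⋃ e : E → P, SYE L Q c φ₁.1 E (ex e) 1 T₀ Y with hU
  have hfin : ∀ (φ₁ : R) (e : E → P), (SYE L Q c φ₁.1 E (ex e) 1 T₀ Y).Finite := fun φ₁ e =>
    (hS φ₁ E (ex e) hE 1 T₀ Y).1
  have hUf : U.Finite := Set.finite_iUnion fun φ₁ => Set.finite_iUnion fun e => hfin φ₁ e
  have hsub : {φ | φ ∈ PU L c E Y ∧ Rch L c E 1 ε Y φ} ⊆ U := by
    intro φ hφ
    obtain ⟨φ₁, h2, h3⟩ := hR2 φ hφ.1.1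
    refine Set.mem_iUnion.2 ⟨⟨φ₁, h2⟩, Set.mem_iUnion.2 ⟨fun v => φ (L.t v), ?_⟩⟩
    refine pu_sye hp hζ L Q hP c hc E 1 ε Y φ φ₁ hφ h3 _ fun v hv => ?_
    rw [hex]
    beta_reduce
    rw [dif_pos hv]
  refine ⟨hUf.subset hsub, ?_⟩
  have hone : ∀ (φ₁ : R) (e : E → P),
      ((SYE L Q c φ₁.1 E (ex e) 1 T₀ Y).ncard : ℝ) ≤ (B φ₁ * (u + 1) + 1) * W := by
    intro φ₁ e
    have h2 := hYs φ₁ Y (g2 φ₁) 1 le_rfl E (ex e) hE hn'
    rw [(hS φ₁ E (ex e) hE 1 _ Y).2.2, Complex.norm_natCast] at h2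
    refine h2.trans ?_
    rw [div_le_iff₀ g7] at g3
    have h3 : Y * Real.log Y ^ (-((1 : ℕ) : ℝ)) ≤ W := by
      refine mul_le_mul_of_nonneg_left ?_ g5.le
      refine le_trans (Real.rpow_le_one_of_one_le_of_nonpos g4 (by simp)) (one_le_pow₀ g4)
    calc _ ≤ B φ₁ * ((u + 1) * W) + W := add_le_add (mul_le_mul_of_nonneg_left g3 (hB φ₁)) h3
      _ = _ := by ring
  have hcard : (Nat.card (E → P) : ℝ) = (Nat.card P : ℝ) ^ E.card := by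
    rw [Nat.card_fun, Nat.card_eq_fintype_card (α := E), Fintype.card_coe]
    push_cast
    rfl
  have h5 : ({φ | φ ∈ PU L c E Y ∧ Rch L c E 1 ε Y φ}.ncard : ℝ) ≤
      (Nat.card P : ℝ) ^ E.card * (C₁ * W) := by
    have h6 : (U.ncard : ℝ) ≤ ∑ φ₁ : R, ∑ e : E → P,
        ((SYE L Q c φ₁.1 E (ex e) 1 T₀ Y).ncard : ℝ) := by
      have h7 : U.ncard ≤ ∑ φ₁ : R, ∑ e : E → P, (SYE L Q c φ₁.1 E (ex e) 1 T₀ Y).ncard := by
        refine (Set.ncard_iUnion_le_of_fintype _).trans ?_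
        exact Finset.sum_le_sum fun φ₁ _ => Set.ncard_iUnion_le_of_fintype _
      exact_mod_cast h7
    refine le_trans (by exact_mod_cast Set.ncard_le_ncard hsub hUf) (h6.trans ?_)
    calc _ ≤ ∑ φ₁ : R, ∑ _e : E → P, (B φ₁ * (u + 1) + 1) * W :=
          Finset.sum_le_sum fun φ₁ _ => Finset.sum_le_sum fun e _ => hone φ₁ e
      _ = _ := by
          rw [hC₁, Finset.sum_mul, Finset.mul_sum]
          refine Finset.sum_congr rfl fun φ₁ _ => ?_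
          rw [Finset.sum_const, Finset.card_univ, nsmul_eq_mul, ← hcard,
            Nat.card_eq_fintype_card (α := E → P)]
  refine h5.trans ?_
  have h8 : (Nat.card P : ℝ) ^ E.card ≤ C ^ E.card :=
    pow_le_pow_left₀ (Nat.cast_nonneg _) (le_trans (le_max_right _ _) (le_max_left _ _)) _
  have h9 : C₁ ≤ C := le_trans (le_max_left _ _) (le_max_left _ _)
  have h10 : 0 ≤ C := le_trans zero_le_one (le_max_right _ _)
  calc (Nat.card P : ℝ) ^ E.card * (C₁ * W) ≤ C ^ E.card * (C * W) :=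
        mul_le_mul h8 (mul_le_mul_of_nonneg_right h9 g7.le) (mul_nonneg hC₁0 g7.le)
          (pow_nonneg h10 _)
    _ = C ^ (E.card + 1) * Y * Real.log Y ^ (N - 1) := by
        rw [hW, pow_succ]
        ring

end main

section fin

/-- a primitive root over a given one -/
private theorem adj {F : Type} [Field F] {p m : ℕ} (hp : p.Prime) (hm : 1 ≤ m) {ζ z : F}
    (hζ : IsPrimitiveRoot ζ p) (hz : IsPrimitiveRoot z (p ^ (m + 1))) :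
    ∃ z' : F, IsPrimitiveRoot z' (p ^ (m + 1)) ∧ z' ^ (p ^ m) = ζ := by
  have h1 : IsPrimitiveRoot (z ^ (p ^ m)) p := hz.pow (pow_pos hp.pos _) (by rw [pow_succ])
  have : NeZero p := ⟨hp.ne_zero⟩
  obtain ⟨i, -, hi, h2⟩ := h1.isPrimitiveRoot_iff.1 hζ
  refine ⟨z ^ i, hz.pow_of_coprime i (Nat.Coprime.pow_right _ hi), ?_⟩
  rw [← h2, ← pow_mul, ← pow_mul, mul_comm]

/-- AP for groups of exponent `p` -/
theorem ap_fin {p : ℕ} (hp : p.Prime) (hp2 : p ≠ 2) : ∀ (P : Type) [Group P] [Finite P]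
    (_ : ∀ x : P, x ^ p = 1) (_ : Nontrivial P), ∃ M : ℕ,
    ∀ (N : ℕ) (c : CL p N P) (_ : ∀ x : P, x ≠ 1 → ∃ i, IsConj x (c.g i))
      (K : IntermediateField ℚ QBar) [NumberField K] (ζ : K) (_ : IsPrimitiveRoot ζ p) (z : K)
      (_ : IsPrimitiveRoot z (p ^ M)) (D : RD K p ζ),
      APl D.toRD0 c ∧ APp D.toRD0 c ∧ APu D.toRD0 c := by
  intro P _ _ hP _
  obtain ⟨m, hm⟩ : ∃ m : ℕ, Nat.card P ≤ p ^ m :=
    ⟨Nat.card P, (Nat.lt_pow_self hp.one_lt).le⟩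
  refine ⟨(m + 1) + 1, fun N c hc K _ ζ hζ z hz D => ?_⟩
  have hm' : Nat.card P ≤ p ^ (m + 1) := hm.trans (Nat.pow_le_pow_right hp.pos (Nat.le_succ m))
  have hN : NeZero N := by
    obtain ⟨x, hx⟩ := exists_ne (1 : P)
    obtain ⟨i, -⟩ := hc x hx
    exact ⟨fun h => (h ▸ i).elim0⟩
  obtain ⟨z', h1, h2⟩ := adj hp (Nat.le_add_left 1 m) hζ hz
  exact ⟨ap_l hp hp2 hζ (Nat.le_add_left 1 m) h1 h2 D hP hm' c hc,
    ap_p hp hp2 hζ (Nat.le_add_left 1 m) h1 h2 D hP hm' c hc,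
    ap_u hp hp2 hζ (Nat.le_add_left 1 m) h1 h2 D hP hm' c hc⟩

end fin

end H86.AP
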