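import Mathlib

/-!
Definitions for MP_2c7cbe_co (all-purpose polygonal tiles).  The plane is `ℂ`, its isometries
are `ℂ ≃ᵢ ℂ`.
-/

namespace Pool.Agent.H86.AP

open Set

/-- `J` is a simple closed polygonal curve: there are `n ≥ 3` distinct vertices `v i`
(indices modulo `n`) such that `J` is the union of the edges `[v i, v (i+1)]`, and two different
edges meet only if they are consecutive, and then only in their common vertex. -/
def IsSimpleClosedPolygonalCurve (J : Set ℂ) : Prop :=
  ∃ (n : ℕ) (v : ZMod n → ℂ), 3 ≤ n ∧ Function.Injective v ∧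
    (∀ i j : ZMod n, i ≠ j →
      ∀ z ∈ segment ℝ (v i) (v (i + 1)) ∩ segment ℝ (v j) (v (j + 1)),
        (j = i + 1 ∧ z = v j) ∨ (i = j + 1 ∧ z = v i)) ∧
    J = ⋃ i : ZMod n, segment ℝ (v i) (v (i + 1))

/-- A polygon: a compact subset of the plane, with interior points, whose boundary is a simple
closed polygonal curve. -/
def IsPolygon (P : Set ℂ) : Prop :=
  IsCompact P ∧ (interior P).Nonempty ∧ IsSimpleClosedPolygonalCurve (frontier P)

/-- A tiling of the plane: a countable family of closed sets with union the plane and with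
pairwise disjoint interiors. -/
def IsTiling (T : Set (Set ℂ)) : Prop :=
  T.Countable ∧ (∀ t ∈ T, IsClosed t) ∧ ⋃₀ T = univ ∧
    ∀ s ∈ T, ∀ t ∈ T, s ≠ t → Disjoint (interior s) (interior t)

/-- `T` is a monohedral tiling with prototile `P`: a tiling each of whose tiles is the image of
`P` under an isometry of the plane. -/
def IsMonohedral (P : Set ℂ) (T : Set (Set ℂ)) : Prop :=
  IsTiling T ∧ ∀ t ∈ T, ∃ φ : ℂ ≃ᵢ ℂ, φ '' P = t

/-- The symmetry group of a family `T` of subsets of the plane: the isometries `φ` such that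
`φ` and its inverse map members of `T` to members of `T`. -/
def symGroup (T : Set (Set ℂ)) : Subgroup (ℂ ≃ᵢ ℂ) where
  carrier := {φ | ∀ t : Set ℂ, φ '' t ∈ T ↔ t ∈ T}
  mul_mem' := by
    intro a b ha hb t
    have h : (a * b : ℂ ≃ᵢ ℂ) '' t = a '' (b '' t) := by
      ext z
      simp [IsometryEquiv.mul_apply]
    rw [h, ha, hb]
  one_mem' := by
    intro t
    simp
  inv_mem' := by
    intro a ha t
    have h : a '' ((a⁻¹ : ℂ ≃ᵢ ℂ) '' t) = t := by
      ext z
      simp
    rw [← ha, h]

/-- A wallpaper group: a group of isometries of the plane that is discrete (every point `p` has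
a `δ > 0` such that each element moving `p` moves it by at least `δ`) and cocompact (the images
of some bounded set cover the plane). -/
def IsWallpaper (G : Subgroup (ℂ ≃ᵢ ℂ)) : Prop :=
  (∀ p : ℂ, ∃ δ > 0, ∀ g ∈ G, g p ≠ p → δ ≤ ‖p - g p‖) ∧
    ∃ B : Set ℂ, Bornology.IsBounded B ∧ ∀ z : ℂ, ∃ g ∈ G, ∃ w ∈ B, g w = z

/-- The group of all isometries of the plane that map the set `L` onto itself. -/
def stab (L : Set ℂ) : Subgroup (ℂ ≃ᵢ ℂ) where
  carrier := {φ | φ '' L = L}
  mul_mem' := by
    intro a b ha hb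
    have h : (a * b : ℂ ≃ᵢ ℂ) '' L = a '' (b '' L) := by
      ext z
      simp [IsometryEquiv.mul_apply]
    simp only [mem_ofPred_eq] at *
    rw [h, hb, ha]
  one_mem' := by
    simp
  inv_mem' := by
    intro a ha
    have h : (a⁻¹ : ℂ ≃ᵢ ℂ) '' (a '' L) = L := by
      ext z
      simp
    simp only [mem_ofPred_eq] at *
    rw [ha] at h
    exact h

/-- The square lattice. -/
def sqLattice : Set ℂ := {z | ∃ m n : ℤ, z = m + n * Complex.I}

/-- The triangular lattice. -/
def triLattice : Set ℂ := {z | ∃ m n : ℤ, z = m + n * ((1 + Real.sqrt 3 * Complex.I) / 2)}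

/-- The wallpaper group `p4m`: all isometries preserving the square lattice. -/
def p4m : Subgroup (ℂ ≃ᵢ ℂ) := stab sqLattice

/-- The wallpaper group `p6m`: all isometries preserving the triangular lattice. -/
def p6m : Subgroup (ℂ ≃ᵢ ℂ) := stab triLattice

/-- The reflection of the plane in the line `a x + b y = c`, as a map. -/
noncomputable def reflMap (a b c : ℝ) (z : ℂ) : ℂ :=
  z - ((2 * (a * z.re + b * z.im - c) / (a ^ 2 + b ^ 2) : ℝ) : ℂ) * (a + b * Complex.I)

/-- The map `reflMap a b c` is a symmetry of the family `T`. -/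
def HasMirror (T : Set (Set ℂ)) (a b c : ℝ) : Prop :=
  ∃ ρ ∈ symGroup T, ∀ z : ℂ, ρ z = reflMap a b c z

/-- Image of a family of sets under an isometry. -/
def imgFam (κ : ℂ ≃ᵢ ℂ) (T : Set (Set ℂ)) : Set (Set ℂ) := (fun t => κ '' t) '' T

end Pool.Agent.H86.AP
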