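import Mathlib
import Pool.Agent.H86.AP.Defs

set_option autoImplicit false

/-!
The three mirrors of a group of isometries isomorphic to `p4m` or `p6m`.
-/

namespace Pool.Agent.H86.AP

open Set ComplexConjugate

/-- `φ z = u z + w` -/
def CxDir (φ : ℂ ≃ᵢ ℂ) (u w : ℂ) : Prop := ∀ z, φ z = u * z + w

/-- `φ z = u (conj z) + w` -/
def CxOpp (φ : ℂ ≃ᵢ ℂ) (u w : ℂ) : Prop := ∀ z, φ z = u * conj z + w

theorem cx_classify (φ : ℂ ≃ᵢ ℂ) : ∃ u w : ℂ, u * conj u = 1 ∧ (CxDir φ u w ∨ CxOpp φ u w) := by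
  obtain ⟨a, ha⟩ := linear_isometry_complex φ.toRealLinearIsometryEquiv
  refine ⟨a, φ 0, ?_, ?_⟩
  · rw [Complex.mul_conj, Circle.normSq_coe]; simp
  · have h : ∀ z, φ z = φ.toRealLinearIsometryEquiv z + φ 0 := by
      intro z; rw [IsometryEquiv.toRealLinearIsometryEquiv_apply]; ring
    rcases ha with ha | ha
    · left
      intro z
      rw [h z, ha, rotation_apply]
    · right
      intro z
      rw [h z, ha, LinearIsometryEquiv.trans_apply, rotation_apply, Complex.conjLIE_apply]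

theorem cx_dir_dir {φ ψ : ℂ ≃ᵢ ℂ} {u w v x : ℂ} (h : CxDir φ u w) (h' : CxDir ψ v x) :
    CxDir (φ * ψ) (u * v) (u * x + w) := by
  intro z
  rw [IsometryEquiv.mul_apply, h, h']; ring

theorem cx_opp_opp {φ ψ : ℂ ≃ᵢ ℂ} {u w v x : ℂ} (h : CxOpp φ u w) (h' : CxOpp ψ v x) :
    CxDir (φ * ψ) (u * conj v) (u * conj x + w) := by
  intro z
  rw [IsometryEquiv.mul_apply, h, h']
  simp only [map_add, map_mul, Complex.conj_conj]; ring

theorem cx_dir_opp {φ ψ : ℂ ≃ᵢ ℂ} {u w v x : ℂ} (h : CxDir φ u w) (h' : CxOpp ψ v x) :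
    CxOpp (φ * ψ) (u * v) (u * x + w) := by
  intro z
  rw [IsometryEquiv.mul_apply, h, h']; ring

theorem cx_opp_dir {φ ψ : ℂ ≃ᵢ ℂ} {u w v x : ℂ} (h : CxOpp φ u w) (h' : CxDir ψ v x) :
    CxOpp (φ * ψ) (u * conj v) (u * conj x + w) := by
  intro z
  rw [IsometryEquiv.mul_apply, h, h']
  simp only [map_add, map_mul]; ring

theorem cx_dir_one {u w : ℂ} (h : CxDir 1 u w) : u = 1 ∧ w = 0 := by
  have h0 := h 0
  have h1 := h 1
  simp only [IsometryEquiv.coe_one, id] at h0 h1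
  have hw : w = 0 := by linear_combination -h0
  refine ⟨?_, hw⟩
  linear_combination -h1 - hw

theorem cx_not_opp_one {u w : ℂ} (h : CxOpp 1 u w) : False := by
  have h0 := h 0
  have h1 := h 1
  have h2 := h Complex.I
  simp only [IsometryEquiv.coe_one, id, map_zero, map_one, Complex.conj_I] at h0 h1 h2
  have hw : w = 0 := by linear_combination -h0
  have hu : u = 1 := by linear_combination -h1 - hw
  have h3 : (Complex.I : ℂ) = 0 := by
    rw [hu, hw] at h2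
    linear_combination (1/2) * h2
  exact Complex.I_ne_zero h3

theorem cx_eq_one {φ : ℂ ≃ᵢ ℂ} (h : CxDir φ 1 0) : φ = 1 := by
  apply IsometryEquiv.ext
  intro z
  rw [h z]
  simp

theorem cx_opp_or {φ : ℂ ≃ᵢ ℂ} {u w : ℂ} (hn : ¬ ∃ u w, CxOpp φ u w)
    (h : CxDir φ u w ∨ CxOpp φ u w) : CxDir φ u w := by
  rcases h with h | h
  · exact h
  · exact absurd ⟨u, w, h⟩ hn

/-- powers of a direct isometry -/
theorem cx_dir_pow {φ : ℂ ≃ᵢ ℂ} {u w : ℂ} (h : CxDir φ u w) (n : ℕ) :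
    CxDir (φ ^ n) (u ^ n) ((∑ i ∈ Finset.range n, u ^ i) * w) := by
  induction n with
  | zero => intro z; simp
  | succ n ih =>
    intro z
    rw [pow_succ, IsometryEquiv.mul_apply, ih, h, Finset.sum_range_succ, pow_succ]
    ring

/-- a translation of finite order is trivial -/
theorem cx_transl {φ : ℂ ≃ᵢ ℂ} {w : ℂ} (h : CxDir φ 1 w) {n : ℕ} (hn : n ≠ 0)
    (h1 : φ ^ n = 1) : φ = 1 := by
  have h2 := cx_dir_pow h n
  rw [h1] at h2
  have h3 := (cx_dir_one h2).2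
  simp only [one_pow, Finset.sum_const, Finset.card_range, nsmul_eq_mul, mul_one, mul_eq_zero,
    Nat.cast_eq_zero, hn, false_or] at h3
  rw [h3] at h
  exact cx_eq_one h

/-- a direct isometry with multiplier `u ≠ 1`, `u ^ n = 1` has order dividing `n` -/
theorem cx_rot_pow {φ : ℂ ≃ᵢ ℂ} {u w : ℂ} (h : CxDir φ u w) (hu : u ≠ 1) {n : ℕ}
    (h1 : u ^ n = 1) : φ ^ n = 1 := by
  have h2 := cx_dir_pow h n
  rw [h1] at h2
  have h3 : (∑ i ∈ Finset.range n, u ^ i) = 0 := by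
    have := geom_sum_mul u n
    rw [h1, sub_self] at this
    rcases mul_eq_zero.mp this with h | h
    · exact h
    · exact absurd (sub_eq_zero.mp h) hu
  rw [h3, zero_mul] at h2
  exact cx_eq_one h2

/-- an opposite isometry squares to a translation -/
theorem cx_opp_sq {φ : ℂ ≃ᵢ ℂ} {u w : ℂ} (hu : u * conj u = 1) (h : CxOpp φ u w) :
    CxDir (φ ^ 2) 1 (u * conj w + w) := by
  have h1 := cx_opp_opp h h
  rw [hu] at h1
  rw [pow_two]
  exact h1

/-- an element with `φ ^ 2 ≠ 1` and of finite even order is direct -/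
theorem cx_direct_even {φ : ℂ ≃ᵢ ℂ} {n : ℕ} (hn : n ≠ 0) (h1 : φ ^ (2 * n) = 1)
    (h2 : φ ^ 2 ≠ 1) : ∃ u w, u * conj u = 1 ∧ CxDir φ u w := by
  obtain ⟨u, w, hu, h | h⟩ := cx_classify φ
  · exact ⟨u, w, hu, h⟩
  · exfalso
    have h3 := cx_opp_sq hu h
    exact h2 (cx_transl h3 hn (by rw [← pow_mul]; exact h1))

/-- an element with `φ ^ 3 = 1` is direct -/
theorem cx_direct_three {φ : ℂ ≃ᵢ ℂ} (h1 : φ ^ 3 = 1) :
    ∃ u w, u * conj u = 1 ∧ CxDir φ u w := by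
  obtain ⟨u, w, hu, h | h⟩ := cx_classify φ
  · exact ⟨u, w, hu, h⟩
  · exfalso
    have h3 := cx_opp_sq hu h
    have h4 := cx_dir_opp h3 h
    rw [← pow_succ, h1] at h4
    exact cx_not_opp_one h4

/-- conjugates of symmetries -/
theorem cx_mem_imgFam {T : Set (Set ℂ)} (κ φ : ℂ ≃ᵢ ℂ) (h : φ ∈ symGroup T) :
    κ * φ * κ⁻¹ ∈ symGroup (imgFam κ T) := by
  intro t
  have hinj : Function.Injective (fun t : Set ℂ => κ '' t) := κ.injective.image_injective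
  obtain ⟨s, rfl⟩ : ∃ s, t = κ '' s := by
    refine ⟨κ.symm '' t, ?_⟩
    ext z
    simp
  have e1 : (κ * φ * κ⁻¹ : ℂ ≃ᵢ ℂ) '' (κ '' s) = κ '' (φ '' s) := by
    ext z
    simp [IsometryEquiv.mul_apply]
  rw [e1]
  have e2 : ∀ s : Set ℂ, κ '' s ∈ imgFam κ T ↔ s ∈ T := by
    intro s
    constructor
    · rintro ⟨r, hr, hrs⟩
      have : r = s := hinj hrs
      rw [← this]; exact hr
    · intro hs
      exact ⟨s, hs, rfl⟩
  rw [e2, e2]
  exact h s

theorem cx_imgFam_mul {T : Set (Set ℂ)} (κ κ' : ℂ ≃ᵢ ℂ) :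
    imgFam κ (imgFam κ' T) = imgFam (κ * κ') T := by
  unfold imgFam
  rw [← Set.image_comp]
  apply Set.image_congr
  intro t _
  ext z
  simp [IsometryEquiv.mul_apply]

/-- the reflection in complex notation -/
theorem cx_reflMap (a b c : ℝ) (hN : a ^ 2 + b ^ 2 ≠ 0) (z : ℂ) :
    reflMap a b c z = -((a + b * Complex.I) ^ 2 / (a ^ 2 + b ^ 2)) * conj z +
      2 * c / (a ^ 2 + b ^ 2) * (a + b * Complex.I) := by
  have hN' : ((a : ℂ) ^ 2 + (b : ℂ) ^ 2) ≠ 0 := by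
    intro h; apply hN; exact_mod_cast h
  unfold reflMap
  have hz : conj z = z.re - z.im * Complex.I := by
    apply Complex.ext <;> simp
  rw [hz]
  conv_lhs => rw [← Complex.re_add_im z]
  push_cast
  simp only [Complex.add_re, Complex.ofReal_re, Complex.mul_re, Complex.I_re, mul_zero,
    Complex.ofReal_im, Complex.I_im, mul_one, sub_self, add_zero, Complex.add_im, Complex.mul_im,
    zero_add]
  field_simp
  linear_combination (b ^ 2 * z.re - b ^ 2 * z.im * Complex.I - 2 * a * b * z.im : ℂ)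
    * Complex.I_sq

/-- the isometry `z ↦ ω z + p` -/
noncomputable def cxMk (ω p : ℂ) (h : ω * conj ω = 1) : ℂ ≃ᵢ ℂ where
  toFun z := ω * z + p
  invFun z := conj ω * (z - p)
  left_inv z := by
    show conj ω * (ω * z + p - p) = z
    have : conj ω * (ω * z + p - p) = (ω * conj ω) * z := by ring
    rw [this, h, one_mul]
  right_inv z := by
    show ω * (conj ω * (z - p)) + p = z
    have : ω * (conj ω * (z - p)) + p = (ω * conj ω) * (z - p) + p := by ring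
    rw [this, h]; ring
  isometry_toFun := by
    apply Isometry.of_dist_eq
    intro x y
    have hω : ‖ω‖ = 1 := by
      have h1 : ‖ω‖ * ‖ω‖ = 1 := by
        have := congrArg norm h
        rwa [norm_mul, Complex.norm_conj, norm_one] at this
      nlinarith [norm_nonneg ω]
    rw [dist_eq_norm, dist_eq_norm]
    have : ω * x + p - (ω * y + p) = ω * (x - y) := by ring
    rw [this, norm_mul, hω, one_mul]

theorem cxMk_dir (ω p : ℂ) (h : ω * conj ω = 1) : CxDir (cxMk ω p h) ω p := fun _ => rfl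

/-- complex conjugation as an isometry -/
noncomputable def cxConj : ℂ ≃ᵢ ℂ := Complex.conjLIE.toIsometryEquiv

theorem cxConj_apply (z : ℂ) : cxConj z = conj z := rfl

theorem cxConj_inv : cxConj⁻¹ = cxConj := rfl

/-- normalised data -/
def CxData (T : Set (Set ℂ)) (μ t : ℂ) : Prop :=
  ∃ α ∈ symGroup T, ∃ β ∈ symGroup T, ∃ γ ∈ symGroup T,
    CxOpp α 1 0 ∧ CxOpp γ (-1) 0 ∧ CxOpp β μ t ∧ β ^ 2 = 1

theorem cx_conj_sq {κ β : ℂ ≃ᵢ ℂ} (h : β ^ 2 = 1) : (κ * β * κ⁻¹) ^ 2 = 1 := by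
  rw [conj_pow, h, mul_one, mul_inv_cancel]

theorem CxData.conj' {T : Set (Set ℂ)} {μ t : ℂ} (h : CxData T μ t) :
    CxData (imgFam cxConj T) (conj μ) (conj t) := by
  obtain ⟨α, hα, β, hβ, γ, hγ, h1, h2, h3, h4⟩ := h
  refine ⟨_, cx_mem_imgFam _ _ hα, _, cx_mem_imgFam _ _ hβ, _, cx_mem_imgFam _ _ hγ, ?_, ?_, ?_,
    cx_conj_sq h4⟩
  · intro z
    rw [cxConj_inv, IsometryEquiv.mul_apply, IsometryEquiv.mul_apply, h1, cxConj_apply,
      cxConj_apply]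
    simp
  · intro z
    rw [cxConj_inv, IsometryEquiv.mul_apply, IsometryEquiv.mul_apply, h2, cxConj_apply,
      cxConj_apply]
    simp
  · intro z
    rw [cxConj_inv, IsometryEquiv.mul_apply, IsometryEquiv.mul_apply, h3, cxConj_apply,
      cxConj_apply]
    simp

theorem CxData.neg {T : Set (Set ℂ)} {μ t : ℂ} (h : CxData T μ t) :
    CxData (imgFam (cxMk (-1) 0 (by simp)) T) μ (-t) := by
  have hi : (cxMk (-1) 0 (by simp))⁻¹ = cxMk (-1) 0 (by simp) := by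
    apply inv_eq_of_mul_eq_one_left
    apply IsometryEquiv.ext
    intro z
    rw [IsometryEquiv.mul_apply, cxMk_dir, cxMk_dir]
    simp
  obtain ⟨α, hα, β, hβ, γ, hγ, h1, h2, h3, h4⟩ := h
  refine ⟨_, cx_mem_imgFam _ _ hα, _, cx_mem_imgFam _ _ hβ, _, cx_mem_imgFam _ _ hγ, ?_, ?_, ?_,
    cx_conj_sq h4⟩
  · intro z
    rw [hi, IsometryEquiv.mul_apply, IsometryEquiv.mul_apply, h1, cxMk_dir, cxMk_dir]
    simp
  · intro z
    rw [hi, IsometryEquiv.mul_apply, IsometryEquiv.mul_apply, h2, cxMk_dir, cxMk_dir]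
    simp
  · intro z
    rw [hi, IsometryEquiv.mul_apply, IsometryEquiv.mul_apply, h3, cxMk_dir, cxMk_dir]
    simp
    ring

/-- the translation part of the third reflection is normal to its mirror -/
theorem CxData.real {T : Set (Set ℂ)} {a b : ℝ} (hN : a ^ 2 + b ^ 2 ≠ 0) {t : ℂ}
    (h : CxData T (-((a + b * Complex.I) ^ 2 / (a ^ 2 + b ^ 2))) t) :
    ∃ r : ℝ, t = r * (a + b * Complex.I) := by
  obtain ⟨α, hα, β, hβ, γ, hγ, h1, h2, h3, h4⟩ := h
  have h5 := cx_opp_opp h3 h3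
  rw [← pow_two, h4] at h5
  have h6 := (cx_dir_one h5).2
  have hN' : ((a : ℂ) ^ 2 + (b : ℂ) ^ 2) ≠ 0 := by
    intro h; apply hN; exact_mod_cast h
  have hn : (a + b * Complex.I : ℂ) * (a - b * Complex.I) = a ^ 2 + b ^ 2 := by
    linear_combination (-(b : ℂ) ^ 2) * Complex.I_sq
  have hn1 : (a + b * Complex.I : ℂ) ≠ 0 := by
    intro h0; rw [h0, zero_mul] at hn; exact hN' hn.symm
  have hn2 : (a - b * Complex.I : ℂ) ≠ 0 := by
    intro h0; rw [h0, mul_zero] at hn; exact hN' hn.symm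
  have hc : conj (t / (a + b * Complex.I)) = t / (a + b * Complex.I) := by
    rw [map_div₀]
    have : conj (a + b * Complex.I : ℂ) = a - b * Complex.I := by
      simp [sub_eq_add_neg]
    rw [this]
    rw [← hn] at h6
    field_simp at h6 ⊢
    linear_combination -h6
  obtain ⟨r, hr⟩ := Complex.conj_eq_iff_real.mp hc
  refine ⟨r, ?_⟩
  rw [← hr]
  field_simp

theorem CxData.mirrors {T : Set (Set ℂ)} {a b r : ℝ} (hN : a ^ 2 + b ^ 2 ≠ 0)
    (h : CxData T (-((a + b * Complex.I) ^ 2 / (a ^ 2 + b ^ 2))) (r * (a + b * Complex.I))) :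
    HasMirror T 0 1 0 ∧ HasMirror T 1 0 0 ∧ HasMirror T a b ((a ^ 2 + b ^ 2) * r / 2) := by
  obtain ⟨α, hα, β, hβ, γ, hγ, h1, h2, h3, h4⟩ := h
  have hN' : ((a : ℂ) ^ 2 + (b : ℂ) ^ 2) ≠ 0 := by
    intro h; apply hN; exact_mod_cast h
  refine ⟨⟨α, hα, ?_⟩, ⟨γ, hγ, ?_⟩, ⟨β, hβ, ?_⟩⟩
  · intro z
    rw [h1, cx_reflMap _ _ _ (by norm_num)]
    simp
  · intro z
    rw [h2, cx_reflMap _ _ _ (by norm_num)]
    simp
  · intro z
    rw [h3, cx_reflMap _ _ _ hN]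
    push_cast
    field_simp

/-- from normalised data to the three mirrors of the triangle -/
theorem CxData.finish {T : Set (Set ℂ)} {a b : ℝ} (hN : a ^ 2 + b ^ 2 ≠ 0) {μ t : ℂ} (ht : t ≠ 0)
    (hμ : μ = -((a + b * Complex.I) ^ 2 / (a ^ 2 + b ^ 2)) ∨
      conj μ = -((a + b * Complex.I) ^ 2 / (a ^ 2 + b ^ 2)))
    (h : CxData T μ t) : ∃ (κ : ℂ ≃ᵢ ℂ) (c : ℝ), 0 < c ∧ HasMirror (imgFam κ T) 0 1 0 ∧
      HasMirror (imgFam κ T) 1 0 0 ∧ HasMirror (imgFam κ T) a b c := by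
  have hN0 : 0 < a ^ 2 + b ^ 2 := lt_of_le_of_ne (by positivity) (Ne.symm hN)
  -- reduce to the first alternative
  have key : ∀ (T : Set (Set ℂ)) (t : ℂ), t ≠ 0 →
      CxData T (-((a + b * Complex.I) ^ 2 / (a ^ 2 + b ^ 2))) t →
      ∃ (κ : ℂ ≃ᵢ ℂ) (c : ℝ), 0 < c ∧ HasMirror (imgFam κ T) 0 1 0 ∧
      HasMirror (imgFam κ T) 1 0 0 ∧ HasMirror (imgFam κ T) a b c := by
    intro T t ht h
    obtain ⟨r, hr⟩ := h.real hN
    subst hr
    have hr0 : r ≠ 0 := by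
      rintro rfl; apply ht; simp
    rcases lt_or_gt_of_ne hr0 with hr | hr
    · have h' := h.neg
      have e : -((r : ℂ) * (a + b * Complex.I)) = ((-r : ℝ) : ℂ) * (a + b * Complex.I) := by
        push_cast; ring
      rw [e] at h'
      exact ⟨_, _, by have : 0 < -r := by linarith
                      positivity, h'.mirrors hN⟩
    · refine ⟨1, (a ^ 2 + b ^ 2) * r / 2, by positivity, ?_⟩
      have e : imgFam 1 T = T := by
        unfold imgFam; simp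
      rw [e]
      exact h.mirrors hN
  rcases hμ with hμ | hμ
  · rw [hμ] at h
    exact key T t ht h
  · have h' := h.conj'
    rw [hμ] at h'
    obtain ⟨κ, c, hc, hk⟩ := key _ _ (by simpa using ht) h'
    rw [cx_imgFam_mul] at hk
    exact ⟨_, c, hc, hk⟩

/-- from three reflections in general position to the normalised mirrors -/
theorem cx_main {T : Set (Set ℂ)} {a b : ℝ} (hN : a ^ 2 + b ^ 2 ≠ 0) {α β γ : ℂ ≃ᵢ ℂ}
    (hα : α ∈ symGroup T) (hβ : β ∈ symGroup T) (hγ : γ ∈ symGroup T) {u v w x w' : ℂ}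
    (hu : u * conj u = 1) (h1 : CxOpp α u w) (h2 : CxOpp β v x) (h3 : CxOpp γ (-u) w')
    (i1 : α ^ 2 = 1) (i2 : β ^ 2 = 1) (i3 : γ ^ 2 = 1)
    (hv : v * conj u = -((a + b * Complex.I) ^ 2 / (a ^ 2 + b ^ 2)) ∨
      conj (v * conj u) = -((a + b * Complex.I) ^ 2 / (a ^ 2 + b ^ 2)))
    (hne : β ((w + w') / 2) ≠ (w + w') / 2) :
    ∃ (κ : ℂ ≃ᵢ ℂ) (c : ℝ), 0 < c ∧ HasMirror (imgFam κ T) 0 1 0 ∧
      HasMirror (imgFam κ T) 1 0 0 ∧ HasMirror (imgFam κ T) a b c := by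
  obtain ⟨ω, hω⟩ := IsAlgClosed.exists_pow_nat_eq u (n := 2) (by norm_num)
  have hω1 : ω * conj ω = 1 := by
    have h4 : ω * conj ω * (ω * conj ω) = 1 := by
      rw [← hu, ← hω, map_pow]; ring
    rw [Complex.mul_conj] at h4 ⊢
    have h5 : Complex.normSq ω * Complex.normSq ω = 1 := by exact_mod_cast h4
    have h6 : Complex.normSq ω = 1 := by nlinarith [Complex.normSq_nonneg ω]
    rw [h6]; simp
  have hω2 : conj ω * conj (conj ω) = 1 := by
    rw [Complex.conj_conj, mul_comm]; exact hω1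
  have e1 : u * conj w + w = 0 := by
    have h5 := cx_opp_opp h1 h1
    rw [← pow_two, i1] at h5
    exact (cx_dir_one h5).2
  have e3 : -u * conj w' + w' = 0 := by
    have h5 := cx_opp_opp h3 h3
    rw [← pow_two, i3] at h5
    exact (cx_dir_one h5).2
  set p : ℂ := (w + w') / 2 with hp
  have fα : u * conj p + w = p := by
    rw [hp, map_div₀, map_add]
    have : conj (2 : ℂ) = 2 := Complex.conj_ofNat 2
    rw [this]
    linear_combination (1/2) * e1 - (1/2) * e3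
  have fγ : -u * conj p + w' = p := by
    rw [hp, map_div₀, map_add]
    have : conj (2 : ℂ) = 2 := Complex.conj_ofNat 2
    rw [this]
    linear_combination (1/2) * e3 - (1/2) * e1
  -- the normalising isometry
  set κ : ℂ ≃ᵢ ℂ := (cxMk ω p hω1)⁻¹ with hκ
  have hκi : κ⁻¹ = cxMk ω p hω1 := by rw [hκ, inv_inv]
  have hκz : ∀ z, κ z = conj ω * (z - p) := fun z => rfl
  have hD : CxData (imgFam κ T) (v * conj u) (κ (v * conj p + x)) := by
    refine ⟨_, cx_mem_imgFam _ _ hα, _, cx_mem_imgFam _ _ hβ, _, cx_mem_imgFam _ _ hγ, ?_, ?_, ?_,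
      cx_conj_sq i2⟩
    · intro z
      rw [hκi, IsometryEquiv.mul_apply, IsometryEquiv.mul_apply, h1, cxMk_dir, hκz, map_add,
        map_mul, ← hω]
      rw [← hω] at fα
      linear_combination (conj ω) * fα + (conj z) * (ω * conj ω + 1) * hω1
    · intro z
      rw [hκi, IsometryEquiv.mul_apply, IsometryEquiv.mul_apply, h3, cxMk_dir, hκz, map_add,
        map_mul, ← hω]
      rw [← hω] at fγ
      linear_combination (conj ω) * fγ - (conj z) * (ω * conj ω + 1) * hω1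
    · intro z
      rw [hκi, IsometryEquiv.mul_apply, IsometryEquiv.mul_apply, h2, cxMk_dir, hκz, hκz, map_add,
        map_mul, ← hω, map_pow]
      ring
  have ht : κ (v * conj p + x) ≠ 0 := by
    rw [hκz]
    intro h0
    rcases mul_eq_zero.mp h0 with h0 | h0
    · rw [h0, mul_zero] at hω1
      exact zero_ne_one hω1
    · apply hne
      rw [h2]
      exact sub_eq_zero.mp h0
  obtain ⟨κ', c, hc, hk⟩ := hD.finish hN ht hv
  rw [cx_imgFam_mul] at hk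
  exact ⟨_, c, hc, hk⟩

theorem cx_dir_opp_false {φ : ℂ ≃ᵢ ℂ} {u w v x : ℂ} (hu : u * conj u = 1) (h : CxDir φ u w)
    (h' : CxOpp φ v x) : False := by
  have h0 := (h 0).symm.trans (h' 0)
  have h1 := (h 1).symm.trans (h' 1)
  have h2 := (h Complex.I).symm.trans (h' Complex.I)
  simp only [map_zero, map_one, Complex.conj_I, mul_zero, zero_add, mul_one] at h0 h1 h2
  have h3 : u * Complex.I = 0 := by
    linear_combination (1/2) * h2 + (1/2) * Complex.I * h1 - (1/2) * (1 + Complex.I) * h0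
  rcases mul_eq_zero.mp h3 with h4 | h4
  · rw [h4, zero_mul] at hu
    exact zero_ne_one hu
  · exact Complex.I_ne_zero h4

theorem cx_dir_sq {φ : ℂ ≃ᵢ ℂ} {u w : ℂ} (h : CxDir φ u w) {n : ℕ} (h1 : φ ^ n = 1) :
    u ^ n = 1 := by
  have h2 := cx_dir_pow h n
  rw [h1] at h2
  exact (cx_dir_one h2).1

/-- the intersection point of two perpendicular mirrors -/
theorem cx_fix {α γ : ℂ ≃ᵢ ℂ} {u w w' : ℂ}
    (h1 : CxOpp α u w) (h3 : CxOpp γ (-u) w') (i1 : α ^ 2 = 1) (i3 : γ ^ 2 = 1) :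
    α ((w + w') / 2) = (w + w') / 2 ∧ γ ((w + w') / 2) = (w + w') / 2 := by
  have e1 : u * conj w + w = 0 := by
    have h5 := cx_opp_opp h1 h1
    rw [← pow_two, i1] at h5
    exact (cx_dir_one h5).2
  have e3 : -u * conj w' + w' = 0 := by
    have h5 := cx_opp_opp h3 h3
    rw [← pow_two, i3] at h5
    exact (cx_dir_one h5).2
  have h2 : conj (2 : ℂ) = 2 := Complex.conj_ofNat 2
  constructor
  · rw [h1, map_div₀, map_add, h2]
    linear_combination (1/2) * e1 - (1/2) * e3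
  · rw [h3, map_div₀, map_add, h2]
    linear_combination (1/2) * e3 - (1/2) * e1

theorem cx_fix_one {φ : ℂ ≃ᵢ ℂ} {u w p : ℂ} (h : CxDir φ u w) (hu : u = 1) (hp : φ p = p) :
    φ = 1 := by
  rw [hu] at h
  have : w = 0 := by
    have := h p
    rw [hp] at this
    linear_combination -this
  rw [this] at h
  exact cx_eq_one h

/-- two involutions whose product is a rotation that is not an involution are reflections -/
theorem cx_refl_pair {α β : ℂ ≃ᵢ ℂ} {m t : ℂ} (i1 : α ^ 2 = 1) (i2 : β ^ 2 = 1)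
    (hm : m * conj m = 1) (hd : CxDir (α * β) m t) (hm2 : m ^ 2 ≠ 1) :
    ∃ u w v x : ℂ, u * conj u = 1 ∧ v * conj v = 1 ∧ CxOpp α u w ∧ CxOpp β v x ∧
      m = u * conj v := by
  obtain ⟨u, w, hu, h | h⟩ := cx_classify α
  · obtain ⟨v, x, hv, h' | h'⟩ := cx_classify β
    · exfalso
      have h3 := cx_dir_dir h h'
      have e1 := cx_dir_sq h i1
      have e2 := cx_dir_sq h' i2
      have e3 : m = u * v := by
        have a0 := (hd 0).symm.trans (h3 0)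
        have a1 := (hd 1).symm.trans (h3 1)
        linear_combination a1 - a0
      apply hm2
      rw [e3, mul_pow, e1, e2, one_mul]
    · exact (cx_dir_opp_false hm hd (cx_dir_opp h h')).elim
  · obtain ⟨v, x, hv, h' | h'⟩ := cx_classify β
    · exact (cx_dir_opp_false hm hd (cx_opp_dir h h')).elim
    · refine ⟨u, w, v, x, hu, hv, h, h', ?_⟩
      have h3 := cx_opp_opp h h'
      have a0 := (hd 0).symm.trans (h3 0)
      have a1 := (hd 1).symm.trans (h3 1)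
      linear_combination a1 - a0

/-- the common part of the two cases -/
theorem cx_common {T : Set (Set ℂ)} {α β γ : ℂ ≃ᵢ ℂ}
    (hα : α ∈ symGroup T) (hβ : β ∈ symGroup T) (hγ : γ ∈ symGroup T)
    (i1 : α ^ 2 = 1) (i2 : β ^ 2 = 1) (i3 : γ ^ 2 = 1) (r3 : (α * γ) ^ 2 = 1) (r4 : α * γ ≠ 1)
    {k : ℕ} (r7 : (α * β) ^ k * (α * γ) ≠ 1) {m t : ℂ} (hm : m * conj m = 1)
    (hd : CxDir (α * β) m t) (hm2 : m ^ 2 ≠ 1) (hk : m ^ k = -1)
    {m' t' : ℂ} (hm' : m' * conj m' = 1) (hd' : CxDir (β * γ) m' t')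
    {a b : ℝ} (hN : a ^ 2 + b ^ 2 ≠ 0)
    (hv : conj m = -((a + b * Complex.I) ^ 2 / (a ^ 2 + b ^ 2)) ∨
      m = -((a + b * Complex.I) ^ 2 / (a ^ 2 + b ^ 2))) :
    ∃ (κ : ℂ ≃ᵢ ℂ) (c : ℝ), 0 < c ∧ HasMirror (imgFam κ T) 0 1 0 ∧
      HasMirror (imgFam κ T) 1 0 0 ∧ HasMirror (imgFam κ T) a b c := by
  obtain ⟨u, w, v, x, hu, hv', h1, h2, hmuv⟩ := cx_refl_pair i1 i2 hm hd hm2
  obtain ⟨y, w', hy, h3 | h3⟩ := cx_classify γ
  · exact (cx_dir_opp_false hm' hd' (cx_opp_dir h2 h3)).elim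
  · have h4 := cx_opp_opp h1 h3
    have e1 : (u * conj y) ^ 2 = 1 := cx_dir_sq h4 r3
    have e2 : u * conj y = -1 := by
      have e0 : (u * conj y - 1) * (u * conj y + 1) = 0 := by linear_combination e1
      rcases mul_eq_zero.mp e0 with h | h
      · exfalso
        replace h := sub_eq_zero.mp h
        rw [h] at h4
        exact r4 (cx_transl h4 two_ne_zero r3)
      · linear_combination h
    have e3 : y = -u := by
      linear_combination y * e2 - u * hy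
    subst e3
    obtain ⟨f1, f3⟩ := cx_fix h1 h3 i1 i3
    refine cx_main hN hα hβ hγ hu h1 h2 h3 i1 i2 i3 ?_ ?_
    · have e4 : v * conj u = conj m := by
        rw [hmuv, map_mul, Complex.conj_conj]; ring
      rw [e4, Complex.conj_conj]
      exact hv
    · intro f2
      apply r7
      have h5 := cx_dir_dir (cx_dir_pow hd k) h4
      refine cx_fix_one h5 ?_ (p := (w + w') / 2) ?_
      · rw [hk, e2]; norm_num
      · have f4 : (α * β) ((w + w') / 2) = (w + w') / 2 := by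
          rw [IsometryEquiv.mul_apply, f2, f1]
        have f5 : ∀ n : ℕ, ((α * β) ^ n) ((w + w') / 2) = (w + w') / 2 := by
          intro n
          induction n with
          | zero => simp
          | succ n ih => rw [pow_succ, IsometryEquiv.mul_apply, f4, ih]
        rw [IsometryEquiv.mul_apply, IsometryEquiv.mul_apply, f3, f1, f5]

theorem cx_four {T : Set (Set ℂ)} {α β γ : ℂ ≃ᵢ ℂ}
    (hα : α ∈ symGroup T) (hβ : β ∈ symGroup T) (hγ : γ ∈ symGroup T)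
    (i1 : α ^ 2 = 1) (i2 : β ^ 2 = 1) (i3 : γ ^ 2 = 1)
    (r1 : (α * β) ^ 4 = 1) (r2 : (α * β) ^ 2 ≠ 1)
    (r3 : (α * γ) ^ 2 = 1) (r4 : α * γ ≠ 1)
    (r5 : (β * γ) ^ 4 = 1) (r6 : (β * γ) ^ 2 ≠ 1)
    (r7 : (α * β) ^ 2 * (α * γ) ≠ 1) :
    ∃ (κ : ℂ ≃ᵢ ℂ) (c : ℝ), 0 < c ∧ HasMirror (imgFam κ T) 0 1 0 ∧
      HasMirror (imgFam κ T) 1 0 0 ∧ HasMirror (imgFam κ T) 1 1 c := by
  obtain ⟨m, t, hm, hd⟩ := cx_direct_even (n := 2) two_ne_zero r1 r2
  obtain ⟨m', t', hm', hd'⟩ := cx_direct_even (n := 2) two_ne_zero r5 r6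
  have hm4 := cx_dir_sq hd r1
  have hm1 : m ≠ 1 := by
    rintro rfl
    have := cx_transl hd four_ne_zero r1
    rw [this] at r2
    exact r2 (one_pow _)
  have hm2 : m ^ 2 ≠ 1 := fun h => r2 (cx_rot_pow hd hm1 h)
  have hm3 : m ^ 2 = -1 := by
    have : (m ^ 2 - 1) * (m ^ 2 + 1) = 0 := by linear_combination hm4
    rcases mul_eq_zero.mp this with h | h
    · exact absurd (sub_eq_zero.mp h) hm2
    · linear_combination h
  refine cx_common hα hβ hγ i1 i2 i3 r3 r4 r7 hm hd hm2 hm3 hm' hd' (a := 1) (b := 1)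
    (by norm_num) ?_
  have hμ : (-((((1 : ℝ) : ℂ) + ((1 : ℝ) : ℂ) * Complex.I) ^ 2 /
      (((1 : ℝ) : ℂ) ^ 2 + ((1 : ℝ) : ℂ) ^ 2))) = -Complex.I := by
    push_cast
    have : ((1 : ℂ) + 1 * Complex.I) ^ 2 = 2 * Complex.I := by
      linear_combination Complex.I_sq
    rw [this]; ring
  rw [hμ]
  have h5 : (m - Complex.I) * (m + Complex.I) = 0 := by
    linear_combination hm3 - Complex.I_sq
  rcases mul_eq_zero.mp h5 with h | h
  · left
    rw [sub_eq_zero.mp h, Complex.conj_I]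
  · right
    linear_combination h

theorem cx_six {T : Set (Set ℂ)} {α β γ : ℂ ≃ᵢ ℂ}
    (hα : α ∈ symGroup T) (hβ : β ∈ symGroup T) (hγ : γ ∈ symGroup T)
    (i1 : α ^ 2 = 1) (i2 : β ^ 2 = 1) (i3 : γ ^ 2 = 1)
    (r1 : (α * β) ^ 6 = 1) (r2 : (α * β) ^ 2 ≠ 1) (r2' : (α * β) ^ 3 ≠ 1)
    (r3 : (α * γ) ^ 2 = 1) (r4 : α * γ ≠ 1)
    (r5 : (β * γ) ^ 3 = 1)
    (r7 : (α * β) ^ 3 * (α * γ) ≠ 1) :
    ∃ (κ : ℂ ≃ᵢ ℂ) (c : ℝ), 0 < c ∧ HasMirror (imgFam κ T) 0 1 0 ∧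
      HasMirror (imgFam κ T) 1 0 0 ∧ HasMirror (imgFam κ T) 1 (Real.sqrt 3) c := by
  obtain ⟨m, t, hm, hd⟩ := cx_direct_even (n := 3) three_ne_zero r1 r2
  obtain ⟨m', t', hm', hd'⟩ := cx_direct_three r5
  have hm6 := cx_dir_sq hd r1
  have hm1 : m ≠ 1 := by
    rintro rfl
    have := cx_transl hd (by norm_num : 6 ≠ 0) r1
    rw [this] at r2
    exact r2 (one_pow _)
  have hm2 : m ^ 2 ≠ 1 := fun h => r2 (cx_rot_pow hd hm1 h)
  have hm3' : m ^ 3 ≠ 1 := fun h => r2' (cx_rot_pow hd hm1 h)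
  have hm3 : m ^ 3 = -1 := by
    have : (m ^ 3 - 1) * (m ^ 3 + 1) = 0 := by linear_combination hm6
    rcases mul_eq_zero.mp this with h | h
    · exact absurd (sub_eq_zero.mp h) hm3'
    · linear_combination h
  have hmm : m ^ 2 - m + 1 = 0 := by
    have : (m + 1) * (m ^ 2 - m + 1) = 0 := by linear_combination hm3
    rcases mul_eq_zero.mp this with h | h
    · exfalso
      apply hm2
      rw [eq_neg_of_add_eq_zero_left h]; norm_num
    · exact h
  have h3 : (Real.sqrt 3) ^ 2 = 3 := Real.sq_sqrt (by norm_num)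
  have h3' : ((Real.sqrt 3 : ℝ) : ℂ) ^ 2 = 3 := by exact_mod_cast h3
  refine cx_common hα hβ hγ i1 i2 i3 r3 r4 r7 hm hd hm2 hm3 hm' hd' (a := 1) (b := Real.sqrt 3)
    (by rw [h3]; norm_num) ?_
  have hμ : (-((((1 : ℝ) : ℂ) + ((Real.sqrt 3 : ℝ) : ℂ) * Complex.I) ^ 2 /
      (((1 : ℝ) : ℂ) ^ 2 + ((Real.sqrt 3 : ℝ) : ℂ) ^ 2))) =
      (1 - Real.sqrt 3 * Complex.I) / 2 := by
    rw [h3']
    push_cast
    linear_combination (-1 / 4 * ((Real.sqrt 3 : ℝ) : ℂ) ^ 2) * Complex.I_sq + (1 / 4) * h3'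
  rw [hμ]
  have h5 : (m - (1 - Real.sqrt 3 * Complex.I) / 2) * (m - (1 + Real.sqrt 3 * Complex.I) / 2)
      = 0 := by
    linear_combination hmm - (1 / 4) * ((Real.sqrt 3 : ℝ) : ℂ) ^ 2 * Complex.I_sq + (1 / 4) * h3'
  rcases mul_eq_zero.mp h5 with h | h
  · right
    exact sub_eq_zero.mp h
  · left
    rw [sub_eq_zero.mp h, map_div₀, map_add, map_mul, Complex.conj_ofReal, Complex.conj_I,
      map_one, Complex.conj_ofNat 2]
    ring

theorem cx_mem_stab {L : Set ℂ} {φ : ℂ ≃ᵢ ℂ} (h : φ ^ 2 = 1) (h1 : ∀ z ∈ L, φ z ∈ L) :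
    φ ∈ stab L := by
  show φ '' L = L
  apply Set.Subset.antisymm
  · rintro _ ⟨z, hz, rfl⟩
    exact h1 z hz
  · intro z hz
    refine ⟨φ z, h1 z hz, ?_⟩
    rw [← IsometryEquiv.mul_apply, ← pow_two, h]
    rfl

theorem cx_opp_inv {φ : ℂ ≃ᵢ ℂ} {u w : ℂ} (h : CxOpp φ u w) (hu : u * conj u = 1)
    (hw : u * conj w + w = 0) : φ ^ 2 = 1 := by
  have h1 := cx_opp_sq hu h
  rw [hw] at h1
  exact cx_eq_one h1

theorem cx_ne_one {φ : ℂ ≃ᵢ ℂ} {u w : ℂ} (h : CxDir φ u w) (h1 : u ≠ 1 ∨ w ≠ 0) : φ ≠ 1 := by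
  rintro rfl
  have := cx_dir_one h
  rcases h1 with h1 | h1
  · exact h1 this.1
  · exact h1 this.2

/-- transport of a word along the isomorphism -/
theorem cx_transport {G H : Subgroup (ℂ ≃ᵢ ℂ)} (e : H ≃* G) (g : G) :
    ((e.symm g : H) : ℂ ≃ᵢ ℂ) = 1 ↔ (g : ℂ ≃ᵢ ℂ) = 1 := by
  rw [OneMemClass.coe_eq_one, OneMemClass.coe_eq_one]
  exact map_eq_one_iff e.symm e.symm.injective

theorem exists_triangle4 {T : Set (Set ℂ)} (h : Nonempty (symGroup T ≃* p4m)) :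
    ∃ (κ : ℂ ≃ᵢ ℂ) (s : ℝ), 0 < s ∧ HasMirror (imgFam κ T) 0 1 0 ∧
      HasMirror (imgFam κ T) 1 0 0 ∧ HasMirror (imgFam κ T) 1 1 s := by
  obtain ⟨e⟩ := h
  have hI : Complex.I * conj Complex.I = 1 := by simp
  have A1 : CxOpp cxConj 1 0 := fun z => by rw [cxConj_apply]; ring
  have B1 : CxOpp (cxMk Complex.I 0 hI * cxConj) (Complex.I * 1) (Complex.I * 0 + 0) :=
    cx_dir_opp (cxMk_dir _ _ _) A1
  have C1 : CxOpp (cxMk (-1) 1 (by simp) * cxConj) (-1 * 1) (-1 * 0 + 1) :=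
    cx_dir_opp (cxMk_dir _ _ _) A1
  set A : ℂ ≃ᵢ ℂ := cxConj
  set B : ℂ ≃ᵢ ℂ := cxMk Complex.I 0 hI * cxConj
  set C : ℂ ≃ᵢ ℂ := cxMk (-1) 1 (by simp) * cxConj
  simp only [mul_one, mul_zero, add_zero, zero_add] at B1 C1
  have A2 : A ^ 2 = 1 := cx_opp_inv A1 (by simp) (by simp)
  have B2 : B ^ 2 = 1 := cx_opp_inv B1 (by simp) (by simp)
  have C2 : C ^ 2 = 1 := cx_opp_inv C1 (by simp) (by simp)
  have A3 : A ∈ p4m := by
    apply cx_mem_stab A2
    rintro z ⟨m, n, rfl⟩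
    rw [A1]
    exact ⟨m, -n, by simp⟩
  have B3 : B ∈ p4m := by
    apply cx_mem_stab B2
    rintro z ⟨m, n, rfl⟩
    rw [B1]
    refine ⟨n, m, ?_⟩
    simp only [map_add, map_mul, Complex.conj_I, map_intCast]
    linear_combination (-(n : ℂ)) * Complex.I_sq
  have C3 : C ∈ p4m := by
    apply cx_mem_stab C2
    rintro z ⟨m, n, rfl⟩
    rw [C1]
    refine ⟨1 - m, n, ?_⟩
    simp only [map_add, map_mul, Complex.conj_I, map_intCast]
    push_cast
    ring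
  have AB := cx_opp_opp A1 B1
  have AC := cx_opp_opp A1 C1
  have BC := cx_opp_opp B1 C1
  simp only [Complex.conj_I, one_mul, map_zero, add_zero, map_neg, map_one, mul_one, mul_neg]
    at AB AC BC
  have hI2 : (-Complex.I) ^ 2 = -1 := by rw [neg_sq, Complex.I_sq]
  have hI4 : (-Complex.I) ^ 4 = 1 := by
    have : (-Complex.I) ^ 4 = ((-Complex.I) ^ 2) ^ 2 := by ring
    rw [this, hI2]; norm_num
  have hI1 : -Complex.I ≠ 1 := by
    intro h; rw [h] at hI2; norm_num at hI2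
  have key := cx_four (T := T) (α := ((e.symm ⟨A, A3⟩ : symGroup T) : ℂ ≃ᵢ ℂ))
    (β := ((e.symm ⟨B, B3⟩ : symGroup T) : ℂ ≃ᵢ ℂ))
    (γ := ((e.symm ⟨C, C3⟩ : symGroup T) : ℂ ≃ᵢ ℂ))
    (e.symm ⟨A, A3⟩).2 (e.symm ⟨B, B3⟩).2 (e.symm ⟨C, C3⟩).2
  simp only [← Subgroup.coe_pow, ← Subgroup.coe_mul, ← map_mul, ← map_pow, ne_eq,
    cx_transport] at key
  simp only [Subgroup.coe_pow, Subgroup.coe_mul] at key
  refine key A2 B2 C2 (cx_rot_pow AB hI1 hI4) ?_ (cx_rot_pow AC (by norm_num) (by norm_num)) ?_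
    (cx_rot_pow BC hI1 hI4) ?_ ?_
  · exact cx_ne_one (cx_dir_pow AB 2) (Or.inl (by rw [hI2]; norm_num))
  · exact cx_ne_one AC (Or.inl (by norm_num))
  · exact cx_ne_one (cx_dir_pow BC 2) (Or.inl (by rw [hI2]; norm_num))
  · refine cx_ne_one (cx_dir_dir (cx_dir_pow AB 2) AC) (Or.inr ?_)
    rw [hI2]; simp

theorem exists_triangle6 {T : Set (Set ℂ)} (h : Nonempty (symGroup T ≃* p6m)) :
    ∃ (κ : ℂ ≃ᵢ ℂ) (u : ℝ), 0 < u ∧ HasMirror (imgFam κ T) 0 1 0 ∧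
      HasMirror (imgFam κ T) 1 0 0 ∧ HasMirror (imgFam κ T) 1 (Real.sqrt 3) (Real.sqrt 3 * u) := by
  obtain ⟨e⟩ := h
  have h3' : ((Real.sqrt 3 : ℝ) : ℂ) ^ 2 = 3 := by
    exact_mod_cast Real.sq_sqrt (by norm_num : (0 : ℝ) ≤ 3)
  obtain ⟨ζ, hζ⟩ : ∃ ζ : ℂ, ζ = (1 + Real.sqrt 3 * Complex.I) / 2 := ⟨_, rfl⟩
  have hc : conj ζ = 1 - ζ := by
    rw [hζ, map_div₀, map_add, map_mul, Complex.conj_ofReal, Complex.conj_I,
      map_one, Complex.conj_ofNat 2]
    ring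
  have hz2 : ζ ^ 2 = ζ - 1 := by
    rw [hζ]
    linear_combination (1 / 4) * ((Real.sqrt 3 : ℝ) : ℂ) ^ 2 * Complex.I_sq - (1 / 4) * h3'
  have hz3 : ζ ^ 3 = -1 := by linear_combination (ζ + 1) * hz2
  have hI : ζ * conj ζ = 1 := by rw [hc]; linear_combination -hz2
  have A1 : CxOpp cxConj 1 0 := fun z => by rw [cxConj_apply]; ring
  have B1 : CxOpp (cxMk ζ 0 hI * cxConj) (ζ * 1) (ζ * 0 + 0) :=
    cx_dir_opp (cxMk_dir _ _ _) A1
  have C1 : CxOpp (cxMk (-1) 1 (by simp) * cxConj) (-1 * 1) (-1 * 0 + 1) :=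
    cx_dir_opp (cxMk_dir _ _ _) A1
  set A : ℂ ≃ᵢ ℂ := cxConj
  set B : ℂ ≃ᵢ ℂ := cxMk ζ 0 hI * cxConj
  set C : ℂ ≃ᵢ ℂ := cxMk (-1) 1 (by simp) * cxConj
  simp only [mul_one, mul_zero, add_zero, zero_add] at B1 C1
  have A2 : A ^ 2 = 1 := cx_opp_inv A1 (by simp) (by simp)
  have B2 : B ^ 2 = 1 := cx_opp_inv B1 hI (by simp)
  have C2 : C ^ 2 = 1 := cx_opp_inv C1 (by simp) (by simp)
  have A3 : A ∈ p6m := by
    apply cx_mem_stab A2
    rintro z ⟨m, n, rfl⟩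
    rw [A1]
    refine ⟨m + n, -n, ?_⟩
    rw [← hζ]
    simp only [map_add, map_mul, map_intCast, hc]
    push_cast
    ring
  have B3 : B ∈ p6m := by
    apply cx_mem_stab B2
    rintro z ⟨m, n, rfl⟩
    rw [B1]
    refine ⟨n, m, ?_⟩
    rw [← hζ]
    simp only [map_add, map_mul, map_intCast, hc]
    linear_combination (-(n : ℂ)) * hz2
  have C3 : C ∈ p6m := by
    apply cx_mem_stab C2
    rintro z ⟨m, n, rfl⟩
    rw [C1]
    refine ⟨1 - m - n, n, ?_⟩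
    rw [← hζ]
    simp only [map_add, map_mul, map_intCast, hc]
    push_cast
    ring
  have AB := cx_opp_opp A1 B1
  have AC := cx_opp_opp A1 C1
  have BC := cx_opp_opp B1 C1
  simp only [one_mul, map_zero, add_zero, map_neg, map_one, mul_one, mul_neg, hc]
    at AB AC BC
  have q2 : (1 - ζ) ^ 2 = -ζ := by linear_combination hz2
  have q3 : (1 - ζ) ^ 3 = -1 := by linear_combination (1 - ζ) * q2 + hz2
  have q6 : (1 - ζ) ^ 6 = 1 := by
    have : (1 - ζ) ^ 6 = ((1 - ζ) ^ 3) ^ 2 := by ring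
    rw [this, q3]; norm_num
  have q1 : 1 - ζ ≠ 1 := by
    intro h; rw [h] at q3; norm_num at q3
  have p1 : -ζ ≠ 1 := by
    intro h
    have : ζ = -1 := by linear_combination -h
    rw [this] at hz2
    norm_num at hz2
  have p3 : (-ζ) ^ 3 = 1 := by linear_combination -hz3
  have key := cx_six (T := T) (α := ((e.symm ⟨A, A3⟩ : symGroup T) : ℂ ≃ᵢ ℂ))
    (β := ((e.symm ⟨B, B3⟩ : symGroup T) : ℂ ≃ᵢ ℂ))
    (γ := ((e.symm ⟨C, C3⟩ : symGroup T) : ℂ ≃ᵢ ℂ))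
    (e.symm ⟨A, A3⟩).2 (e.symm ⟨B, B3⟩).2 (e.symm ⟨C, C3⟩).2
  simp only [← Subgroup.coe_pow, ← Subgroup.coe_mul, ← map_mul, ← map_pow, ne_eq,
    cx_transport] at key
  simp only [Subgroup.coe_pow, Subgroup.coe_mul] at key
  have key2 := key A2 B2 C2 (cx_rot_pow AB q1 q6)
    (cx_ne_one (cx_dir_pow AB 2) (Or.inl (by rw [q2]; exact p1)))
    (cx_ne_one (cx_dir_pow AB 3) (Or.inl (by rw [q3]; norm_num)))
    (cx_rot_pow AC (by norm_num) (by norm_num))
    (cx_ne_one AC (Or.inl (by norm_num)))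
    (cx_rot_pow BC p1 p3)
    (by
      refine cx_ne_one (cx_dir_dir (cx_dir_pow AB 3) AC) (Or.inr ?_)
      rw [q3]; simp)
  obtain ⟨κ, c, hc, m1, m2, m3⟩ := key2
  have h30 : 0 < Real.sqrt 3 := Real.sqrt_pos.mpr (by norm_num)
  refine ⟨κ, c / Real.sqrt 3, by positivity, m1, m2, ?_⟩
  have : Real.sqrt 3 * (c / Real.sqrt 3) = c := by field_simp
  rw [this]
  exact m3

end Pool.Agent.H86.AP
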