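import Mathlib

/-!
# A rational functional on the side lengths
-/

namespace Pool.Agent.H86.AP

namespace Func

theorem sqrt2_ne (x y : ℚ) (h : (x : ℝ) + y * Real.sqrt 2 = 0) : x = 0 ∧ y = 0 := by
  by_cases hy : y = 0
  · subst hy
    refine ⟨?_, rfl⟩
    have : (x : ℝ) = 0 := by simpa using h
    exact_mod_cast this
  · exfalso
    have hy' : (y : ℝ) ≠ 0 := by exact_mod_cast hy
    have h1 : Real.sqrt 2 = ((-x / y : ℚ) : ℝ) := by
      push_cast
      field_simp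
      linarith
    exact irrational_sqrt_two ⟨_, h1.symm⟩

theorem sqrt3_ne (x y : ℚ) (h : (x : ℝ) + y * Real.sqrt 3 = 0) : x = 0 ∧ y = 0 := by
  by_cases hy : y = 0
  · subst hy
    refine ⟨?_, rfl⟩
    have : (x : ℝ) = 0 := by simpa using h
    exact_mod_cast this
  · exfalso
    have hy' : (y : ℝ) ≠ 0 := by exact_mod_cast hy
    have h1 : Real.sqrt 3 = ((-x / y : ℚ) : ℝ) := by
      push_cast
      field_simp
      linarith
    have : Irrational (Real.sqrt 3) := by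
      have := Nat.Prime.irrational_sqrt (p := 3) (by norm_num)
      exact_mod_cast this
    exact this ⟨_, h1.symm⟩

theorem sqrt6_ne (x y : ℚ) (h : (x : ℝ) + y * Real.sqrt 6 = 0) : x = 0 ∧ y = 0 := by
  by_cases hy : y = 0
  · subst hy
    refine ⟨?_, rfl⟩
    have : (x : ℝ) = 0 := by simpa using h
    exact_mod_cast this
  · exfalso
    have hy' : (y : ℝ) ≠ 0 := by exact_mod_cast hy
    have h1 : Real.sqrt 6 = ((-x / y : ℚ) : ℝ) := by
      push_cast
      field_simp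
      linarith
    have h6 : Irrational (Real.sqrt 6) := by
      rw [show (6 : ℝ) = ((6 : ℕ) : ℝ) by norm_num, irrational_sqrt_natCast_iff]
      rintro ⟨m, hm⟩
      have : m < 3 := by nlinarith
      interval_cases m <;> omega
    exact h6 ⟨_, h1.symm⟩

/-- `1, √3, √6` are linearly independent over the rationals. -/
theorem indep_136 (c A B : ℚ) (h : (c : ℝ) + A * Real.sqrt 3 + B * Real.sqrt 6 = 0) :
    c = 0 ∧ A = 0 ∧ B = 0 := by
  have h2 : Real.sqrt 2 ^ 2 = 2 := Real.sq_sqrt (by norm_num)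
  have h3 : Real.sqrt 3 ^ 2 = 3 := Real.sq_sqrt (by norm_num)
  have h6 : Real.sqrt 6 = Real.sqrt 3 * Real.sqrt 2 := by
    rw [← Real.sqrt_mul (by norm_num)]; norm_num
  have e1 : (c : ℝ) = - (Real.sqrt 3 * (A + B * Real.sqrt 2)) := by
    rw [h6] at h; linarith
  have e2 : ((c ^ 2 - 3 * (A ^ 2 + 2 * B ^ 2) : ℚ) : ℝ) + ((-6 * A * B : ℚ) : ℝ) * Real.sqrt 2
      = 0 := by
    push_cast
    have : (c : ℝ) ^ 2 = 3 * (A + B * Real.sqrt 2) ^ 2 := by
      rw [e1]
      calc (-(Real.sqrt 3 * (A + B * Real.sqrt 2))) ^ 2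
          = Real.sqrt 3 ^ 2 * (A + B * Real.sqrt 2) ^ 2 := by ring
        _ = _ := by rw [h3]
    rw [this]
    linear_combination 3 * (B : ℝ) ^ 2 * h2
  obtain ⟨-, e3⟩ := sqrt2_ne _ _ e2
  have e4 : A = 0 ∨ B = 0 := by
    have : A * B = 0 := by linarith
    exact mul_eq_zero.1 this
  rcases e4 with rfl | rfl
  · have := sqrt6_ne c B (by simpa using h)
    exact ⟨this.1, rfl, this.2⟩
  · have := sqrt3_ne c A (by simpa using h)
    exact ⟨this.1, this.2, rfl⟩

theorem indep (s u : ℝ) (hs : 0 < s) (_hu : 0 < u) (q : ℚ) (hq : 0 < q)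
    (h : Real.sqrt 3 * u ^ 2 = q * s ^ 2) (x y z w : ℚ)
    (h0 : (x : ℝ) * s + y * (Real.sqrt 2 * s) + z * u + w * (Real.sqrt 3 * u) = 0) :
    x = 0 ∧ y = 0 ∧ z = 0 ∧ w = 0 := by
  have h2 : Real.sqrt 2 ^ 2 = 2 := Real.sq_sqrt (by norm_num)
  have h3 : Real.sqrt 3 ^ 2 = 3 := Real.sq_sqrt (by norm_num)
  have h6 : Real.sqrt 6 = Real.sqrt 3 * Real.sqrt 2 := by
    rw [← Real.sqrt_mul (by norm_num)]; norm_num
  have e1 : s * (x + y * Real.sqrt 2) = - (u * (z + w * Real.sqrt 3)) := by linarith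
  have e2 : s ^ 2 * (x + y * Real.sqrt 2) ^ 2 = u ^ 2 * (z + w * Real.sqrt 3) ^ 2 := by
    have : (s * (x + y * Real.sqrt 2)) ^ 2 = (- (u * (z + w * Real.sqrt 3))) ^ 2 := by rw [e1]
    linear_combination this
  have e3 : s ^ 2 * (Real.sqrt 3 * (x + y * Real.sqrt 2) ^ 2 - q * (z + w * Real.sqrt 3) ^ 2)
      = 0 := by
    linear_combination Real.sqrt 3 * e2 + (z + w * Real.sqrt 3) ^ 2 * h
  have e4 : Real.sqrt 3 * (x + y * Real.sqrt 2) ^ 2 - q * (z + w * Real.sqrt 3) ^ 2 = 0 := by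
    rcases mul_eq_zero.1 e3 with h' | h'
    · exact absurd h' (by positivity)
    · exact h'
  have e5 : ((-q * (z ^ 2 + 3 * w ^ 2) : ℚ) : ℝ)
      + ((x ^ 2 + 2 * y ^ 2 - 2 * q * z * w : ℚ) : ℝ) * Real.sqrt 3
      + ((2 * x * y : ℚ) : ℝ) * Real.sqrt 6 = 0 := by
    push_cast
    rw [h6]
    linear_combination e4 - Real.sqrt 3 * (y : ℝ) ^ 2 * h2 + (q : ℝ) * (w : ℝ) ^ 2 * h3
  obtain ⟨e6, e7, -⟩ := indep_136 _ _ _ e5
  have e8 : z ^ 2 + 3 * w ^ 2 = 0 := by
    rcases mul_eq_zero.1 e6 with h' | h'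
    · linarith
    · exact h'
  have hz : z = 0 := by
    have : z ^ 2 = 0 := le_antisymm (by nlinarith [sq_nonneg w]) (sq_nonneg z)
    exact pow_eq_zero_iff (two_ne_zero) |>.1 this
  have hw : w = 0 := by
    have : w ^ 2 = 0 := le_antisymm (by nlinarith [sq_nonneg z]) (sq_nonneg w)
    exact pow_eq_zero_iff (two_ne_zero) |>.1 this
  subst hz hw
  have e9 : x ^ 2 + 2 * y ^ 2 = 0 := by linarith
  have hx : x = 0 := by
    have : x ^ 2 = 0 := le_antisymm (by nlinarith [sq_nonneg y]) (sq_nonneg x)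
    exact pow_eq_zero_iff (two_ne_zero) |>.1 this
  have hy : y = 0 := by
    have : y ^ 2 = 0 := le_antisymm (by nlinarith [sq_nonneg x]) (sq_nonneg y)
    exact pow_eq_zero_iff (two_ne_zero) |>.1 this
  exact ⟨hx, hy, rfl, rfl⟩

end Func

open Func

theorem exists_functional (s u : ℝ) (hs : 0 < s) (hu : 0 < u) (q : ℚ) (hq : 0 < q)
    (h : Real.sqrt 3 * u ^ 2 = q * s ^ 2) (a b c d : ℝ) :
    ∃ g : ℝ →ₗ[ℚ] ℝ, g s = a ∧ g (Real.sqrt 2 * s) = b ∧ g u = c ∧
      g (Real.sqrt 3 * u) = d := by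
  -- the linear map given by four vectors
  let L : (Fin 4 → ℝ) → ((Fin 4 → ℚ) →ₗ[ℚ] ℝ) := fun v =>
    Fintype.linearCombination ℚ v
  have hL : ∀ v p, L v p = (p 0 : ℝ) * v 0 + p 1 * v 1 + p 2 * v 2 + p 3 * v 3 := by
    intro v p
    simp only [L, Fintype.linearCombination_apply, Fin.sum_univ_four, Rat.smul_def]
  set v : Fin 4 → ℝ := ![s, Real.sqrt 2 * s, u, Real.sqrt 3 * u] with hv
  have hinj : LinearMap.ker (L v) = ⊥ := by
    rw [LinearMap.ker_eq_bot']
    intro p hp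
    rw [hL] at hp
    obtain ⟨h0, h1, h2, h3⟩ := indep s u hs hu q hq h (p 0) (p 1) (p 2) (p 3) (by
      simpa [hv] using hp)
    ext i
    fin_cases i
    · exact h0
    · exact h1
    · exact h2
    · exact h3
  obtain ⟨ψ, hψ⟩ := (L v).exists_leftInverse_of_injective hinj
  have key : ∀ i, ψ (v i) = Pi.single i 1 := by
    intro i
    have h1 : L v (Pi.single i 1) = v i := by
      simp only [L, Fintype.linearCombination_apply_single, one_smul]
    rw [← h1]
    exact LinearMap.congr_fun hψ _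
  refine ⟨(L ![a, b, c, d]).comp ψ, ?_, ?_, ?_, ?_⟩
  · have := key 0
    rw [LinearMap.comp_apply, show s = v 0 from rfl, this, hL]
    simp
  · have := key 1
    rw [LinearMap.comp_apply, show Real.sqrt 2 * s = v 1 from rfl, this, hL]
    simp
  · have := key 2
    rw [LinearMap.comp_apply, show u = v 2 from rfl, this, hL]
    simp
  · have := key 3
    rw [LinearMap.comp_apply, show Real.sqrt 3 * u = v 3 from rfl, this, hL]
    simp

end Pool.Agent.H86.AP
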