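import Pool.Agent.H86.AP.Tri
import Pool.Agent.H86.AP.Func
import Pool.Agent.H86.AP.Cox

/-!
No polygonal set tiles both a right isosceles triangle and a 30-60-90 triangle.
-/

namespace Pool.Agent.H86.AP

open Set Filter Topology ComplexConjugate

/-- `S₀` is dissected, up to finitely many lines, into `N` congruent copies of `H` -/
def Diss (H S₀ : Set ℂ) (N : ℕ) : Prop :=
  ∃ (J : Finset (ℂ ≃ᵢ ℂ)) (E : Finset (ℝ × ℝ × ℝ)), J.card = N ∧ (∀ q ∈ E, ndg q) ∧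
    (∀ z, (∀ q ∈ E, hh q z ≠ 0) → z ∈ S₀ → ∃! φ, φ ∈ J ∧ z ∈ φ '' H) ∧
    ∀ φ ∈ J, φ '' H ⊆ S₀

theorem norm_of_unit {u : ℂ} (hu : u * conj u = 1) : ‖u‖ = 1 := by
  rw [Complex.mul_conj] at hu
  have h2 : Complex.normSq u = 1 := by exact_mod_cast hu
  rw [Complex.normSq_eq_norm_sq] at h2
  have := norm_nonneg u
  nlinarith

theorem PolySet_image (φ : ℂ ≃ᵢ ℂ) {S : Set ℂ} (hS : PolySet S) : PolySet (φ '' S) := by
  obtain ⟨u, w, hu, h | h⟩ := cx_classify φ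
  · exact PolySet_rot (norm_of_unit hu) h hS
  · exact PolySet_ref (norm_of_unit hu) h hS

theorem Phi_image (φ : ℂ ≃ᵢ ℂ) {S : Set ℂ} (hS : PolySet S) {R : ℝ} (hR : ∀ z ∈ S, ‖z‖ ≤ R) :
    ∃ Y Z : ℂ, ∀ g : ℝ →ₗ[ℚ] ℝ, Phi (φ '' S) g = Y * Phi S g + Z * conj (Phi S g) := by
  obtain ⟨u, w, hu, h | h⟩ := cx_classify φ
  · refine ⟨u ^ 3, 0, fun g => ?_⟩
    have := Phi_rot (φ := φ) (u := ⟨u, mem_sphere_zero_iff_norm.2 (norm_of_unit hu)⟩) (w := w)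
      h hS hR g
    rw [this]
    simp
  · refine ⟨0, -u ^ 3, fun g => ?_⟩
    have := Phi_ref (φ := φ) (u := ⟨u, mem_sphere_zero_iff_norm.2 (norm_of_unit hu)⟩) (w := w)
      h hS hR g
    rw [this]
    simp

theorem Diss.phi {H S₀ : Set ℂ} {N : ℕ} (h : Diss H S₀ N) (hH : PolySet H) (h0 : PolySet S₀)
    {R : ℝ} (hR : ∀ z ∈ H, ‖z‖ ≤ R) :
    ∃ Y Z : ℂ, ∀ g : ℝ →ₗ[ℚ] ℝ, Y * Phi H g + Z * conj (Phi H g) = Phi S₀ g := by
  obtain ⟨J, E, _, hE, h1, h2⟩ := h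
  choose Y Z hYZ using fun φ : ℂ ≃ᵢ ℂ => Phi_image φ hH hR
  refine ⟨∑ φ ∈ J, Y φ, ∑ φ ∈ J, Z φ, fun g => ?_⟩
  rw [← Phi_additive (J := J) (Sf := fun φ : ℂ ≃ᵢ ℂ => φ '' H)
    (fun φ _ => PolySet_image φ hH) h0 hE h1 h2 g]
  rw [Finset.sum_mul, Finset.sum_mul, ← Finset.sum_add_distrib]
  exact Finset.sum_congr rfl fun φ _ => (hYZ φ g).symm

theorem lin_alg {Y Z A0 A1 A2 : ℂ} (h0 : Y * A0 + Z * conj A0 = 0)
    (h1 : Y * A1 + Z * conj A1 = -2) (h2 : Y * A2 + Z * conj A2 = -(6 * Complex.I)) : A0 = 0 := by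
  by_contra hA
  have hn : ‖Y‖ = ‖Z‖ := by
    have : Y * A0 = -(Z * conj A0) := by linear_combination h0
    have h3 := congrArg norm this
    rw [norm_neg, norm_mul, norm_mul, Complex.norm_conj] at h3
    exact mul_right_cancel₀ (norm_ne_zero_iff.2 hA) h3
  have hYZ : Y * conj Y = Z * conj Z := by
    rw [Complex.mul_conj, Complex.mul_conj, Complex.normSq_eq_norm_sq, Complex.normSq_eq_norm_sq, hn]
  have c1 := congrArg conj h1
  have c2 := congrArg conj h2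
  simp only [map_add, map_mul, Complex.conj_conj, map_neg, Complex.conj_I] at c1 c2
  have e2 : conj (2 : ℂ) = 2 := Complex.conj_ofNat 2
  have e6 : conj (6 : ℂ) = 6 := Complex.conj_ofNat 6
  rw [e2] at c1
  rw [e6] at c2
  have key : (-2 : ℂ) * (-(6 * Complex.I)) - (-2) * (-(6 * -Complex.I)) = 0 := by
    calc (-2 : ℂ) * (-(6 * Complex.I)) - (-2) * (-(6 * -Complex.I))
        = (conj Y * conj A1 + conj Z * A1) * (Y * A2 + Z * conj A2) -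
          (Y * A1 + Z * conj A1) * (conj Y * conj A2 + conj Z * A2) := by rw [c1, h2, h1, c2]
      _ = (Y * conj Y - Z * conj Z) * (conj A1 * A2 - A1 * conj A2) := by ring
      _ = 0 := by rw [hYZ]; ring
  have : (24 : ℂ) * Complex.I = 0 := by linear_combination key
  have h24 : (24 : ℂ) ≠ 0 := by norm_num
  exact (mul_ne_zero h24 Complex.I_ne_zero) this

theorem Phi_Tri4 {s : ℝ} (hs : 0 < s) {g : ℝ →ₗ[ℚ] ℝ} (h1 : g s = 1)
    (h2 : g (Real.sqrt 2 * s) = 0) : Phi (Tri s s) g ≠ 0 := by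
  rw [Phi_Tri hs hs, h1]
  have : hyp s s = Real.sqrt 2 * s := by
    unfold hyp
    rw [show s ^ 2 + s ^ 2 = 2 * s ^ 2 by ring, Real.sqrt_mul (by norm_num), Real.sqrt_sq hs.le]
  rw [this, h2]
  intro h
  have := congrArg Complex.re h
  simp at this

theorem Phi_Tri6 {u : ℝ} (hu : 0 < u) (g : ℝ →ₗ[ℚ] ℝ) :
    Phi (Tri (Real.sqrt 3 * u) u) g =
      -2 * ((g (Real.sqrt 3 * u) : ℝ) : ℂ) - 6 * Complex.I * ((g u : ℝ) : ℂ) := by
  have h3 : 0 < Real.sqrt 3 := Real.sqrt_pos.2 (by norm_num)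
  have h3s : Real.sqrt 3 ^ 2 = 3 := Real.sq_sqrt (by norm_num)
  rw [Phi_Tri (mul_pos h3 hu) hu]
  have hh1 : hyp (Real.sqrt 3 * u) u = 2 * u := by
    unfold hyp
    rw [show (Real.sqrt 3 * u) ^ 2 + u ^ 2 = (2 * u) ^ 2 by rw [mul_pow, h3s]; ring,
      Real.sqrt_sq (by positivity)]
  have hc : cHz (Real.sqrt 3 * u) u = ⟨-(Real.sqrt 3 / 2), 1 / 2⟩ := by
    unfold cHz
    rw [hh1]
    congr 1
    · field_simp
    · field_simp
  have hcube : (cHz (Real.sqrt 3 * u) u) ^ 3 = Complex.I := by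
    rw [hc]
    apply Complex.ext
    · simp only [pow_succ, pow_zero, one_mul, Complex.mul_re, Complex.mul_im, Complex.I_re]
      ring_nf
      have : Real.sqrt 3 ^ 3 = 3 * Real.sqrt 3 := by rw [pow_succ, h3s]
      rw [this]; ring
    · simp only [pow_succ, pow_zero, one_mul, Complex.mul_re, Complex.mul_im, Complex.I_im]
      ring_nf
      rw [h3s]; ring
  have hg : g (2 * u) = 2 * g u := by
    rw [two_mul, map_add, two_mul]
  rw [hh1, hcube, hg]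
  push_cast
  ring

theorem no_common_tile {H : Set ℂ} (hH : PolySet H) {R : ℝ} (hR : ∀ z ∈ H, ‖z‖ ≤ R)
    {s u : ℝ} (hs : 0 < s) (hu : 0 < u) {q : ℚ} (hq : 0 < q)
    (hrel : Real.sqrt 3 * u ^ 2 = q * s ^ 2) {N4 N6 : ℕ} (h4 : Diss H (Tri s s) N4)
    (h6 : Diss H (Tri (Real.sqrt 3 * u) u) N6) : False := by
  have h3 : 0 < Real.sqrt 3 := Real.sqrt_pos.2 (by norm_num)
  obtain ⟨g0, a1, a2, a3, a4⟩ := exists_functional s u hs hu q hq hrel 1 0 0 0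
  obtain ⟨g1, b1, b2, b3, b4⟩ := exists_functional s u hs hu q hq hrel 0 0 0 1
  obtain ⟨g2, c1, c2, c3, c4⟩ := exists_functional s u hs hu q hq hrel 0 0 1 0
  obtain ⟨Y, Z, hYZ⟩ := h6.phi hH (PolySet_Tri (mul_pos h3 hu) u) hR
  have k0 := hYZ g0
  have k1 := hYZ g1
  have k2 := hYZ g2
  rw [Phi_Tri6 hu] at k0 k1 k2
  rw [a3, a4] at k0
  rw [b3, b4] at k1
  rw [c3, c4] at k2
  have hA0 : Phi H g0 = 0 := lin_alg (Y := Y) (Z := Z) (A1 := Phi H g1) (A2 := Phi H g2)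
    (by rw [k0]; simp) (by rw [k1]; simp) (by rw [k2]; simp)
  obtain ⟨Y', Z', hYZ'⟩ := h4.phi hH (PolySet_Tri hs s) hR
  have k := hYZ' g0
  rw [hA0] at k
  simp only [mul_zero, map_zero, add_zero] at k
  exact Phi_Tri4 hs a1 a2 k.symm

end Pool.Agent.H86.AP
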