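import Pool.Agent.H86.AP.Alg

/-!
Areas.
-/

namespace Pool.Agent.H86.AP

open Set Filter Topology ComplexConjugate MeasureTheory

theorem volume_image (φ : ℂ ≃ᵢ ℂ) (S : Set ℂ) : volume (φ '' S) = volume S := by
  set L := φ.toRealLinearIsometryEquiv with hL
  have h : ∀ z, φ z = L z + φ 0 := by
    intro z; rw [hL, IsometryEquiv.toRealLinearIsometryEquiv_apply]; ring
  have e1 : φ '' S = (fun z => z + φ 0) '' (L '' S) := by
    rw [Set.image_image]
    exact Set.image_congr fun z _ => h z
  rw [e1, Set.image_add_right, measure_preimage_add_right]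
  have e2 : L '' S = L.symm ⁻¹' S := by
    ext z
    simp only [Set.mem_image, Set.mem_preimage]
    constructor
    · rintro ⟨w, hw, rfl⟩
      simpa using hw
    · intro hz
      exact ⟨L.symm z, hz, by simp⟩
  rw [e2]
  exact L.symm.measurePreserving.measure_preimage_equiv (f := L.symm.toHomeomorph.toMeasurableEquiv) S

/-- the linear map `x + i y ↦ a x + i b y` -/
noncomputable def scl (a b : ℝ) : ℂ →ₗ[ℝ] ℂ where
  toFun z := ⟨a * z.re, b * z.im⟩
  map_add' x y := by
    apply Complex.ext <;> simp <;> ring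
  map_smul' r x := by
    apply Complex.ext <;> simp <;> ring

theorem det_scl (a b : ℝ) : LinearMap.det (scl a b) = a * b := by
  rw [← LinearMap.det_toMatrix Complex.basisOneI, Matrix.det_fin_two]
  simp [LinearMap.toMatrix_apply, scl, Complex.coe_basisOneI_repr]

theorem Tri_scl {a b : ℝ} (ha : 0 < a) (hb : 0 < b) : Tri a b = scl a b '' Tri 1 1 := by
  ext z
  constructor
  · rintro ⟨h1, h2, h3⟩
    refine ⟨⟨z.re / a, z.im / b⟩, ⟨by positivity, by positivity, ?_⟩, ?_⟩
    · simp only [one_mul]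
      have : (b * z.re + a * z.im) / (a * b) < 1 := by
        rw [div_lt_one (by positivity)]; exact h3
      calc z.re / a + z.im / b = (b * z.re + a * z.im) / (a * b) := by
            field_simp
        _ < 1 := this
    · apply Complex.ext
      · change a * (z.re / a) = z.re
        field_simp
      · change b * (z.im / b) = z.im
        field_simp
  · rintro ⟨w, ⟨h1, h2, h3⟩, rfl⟩
    refine ⟨mul_pos ha h1, mul_pos hb h2, ?_⟩
    change b * (a * w.re) + a * (b * w.im) < a * b
    have : a * b * (1 * w.re + 1 * w.im) < a * b * (1 * 1) :=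
      mul_lt_mul_of_pos_left h3 (by positivity)
    linarith

theorem volume_Tri {a b : ℝ} (ha : 0 < a) (hb : 0 < b) :
    volume (Tri a b) = ENNReal.ofReal (a * b) * volume (Tri 1 1) := by
  rw [Tri_scl ha hb, Measure.addHaar_image_linearMap, det_scl, abs_of_pos (mul_pos ha hb)]

theorem Tri_bdd {a b : ℝ} (ha : 0 < a) (hb : 0 < b) : Bornology.IsBounded (Tri a b) := by
  rw [isBounded_iff_forall_norm_le]
  refine ⟨a + b, fun z hz => ?_⟩
  obtain ⟨h1, h2, h3⟩ := hz
  have k1 : z.re ≤ a := by nlinarith [mul_pos ha h2]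
  have k2 : z.im ≤ b := by nlinarith [mul_pos hb h1]
  calc ‖z‖ ≤ |z.re| + |z.im| := Complex.norm_le_abs_re_add_abs_im z
    _ ≤ a + b := by rw [abs_of_pos h1, abs_of_pos h2]; linarith

theorem volume_Tri_ne_top {a b : ℝ} (ha : 0 < a) (hb : 0 < b) : volume (Tri a b) ≠ ⊤ :=
  (Tri_bdd ha hb).measure_lt_top.ne

theorem volume_Tri_pos {a b : ℝ} (ha : 0 < a) (hb : 0 < b) : 0 < volume (Tri a b) := by
  have hne : (Tri a b).Nonempty := by
    refine ⟨⟨a / 4, b / 4⟩, by positivity, by positivity, ?_⟩
    simp only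
    nlinarith [mul_pos ha hb]
  exact (isOpen_Tri a b).measure_pos volume hne

theorem volume_line {q : ℝ × ℝ × ℝ} (hq : ndg q) : volume {z : ℂ | hh q z = 0} = 0 := by
  -- the line is contained in an affine image of a proper subspace
  have hk : (LinearMap.ker (q.1 • Complex.reLm + q.2.1 • Complex.imLm) : Submodule ℝ ℂ) ≠ ⊤ := by
    intro h
    rw [LinearMap.ker_eq_top] at h
    have h1 := LinearMap.congr_fun h 1
    have h2 := LinearMap.congr_fun h Complex.I
    simp at h1 h2
    rcases hq with hq | hq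
    · exact hq h1
    · exact hq h2
  have h0 := Measure.addHaar_submodule volume _ hk
  by_cases hne : {z : ℂ | hh q z = 0}.Nonempty
  · obtain ⟨z₀, hz₀⟩ := hne
    apply measure_mono_null (t := (fun z => z + z₀) ''
      ((LinearMap.ker (q.1 • Complex.reLm + q.2.1 • Complex.imLm) : Submodule ℝ ℂ) : Set ℂ))
    · intro z hz
      refine ⟨z - z₀, ?_, by ring⟩
      simp only [SetLike.mem_coe, LinearMap.mem_ker, LinearMap.add_apply, LinearMap.smul_apply,
        Complex.reLm_coe, Complex.imLm_coe, smul_eq_mul, Complex.sub_re, Complex.sub_im]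
      simp only [Set.mem_ofPred_eq, hh] at hz hz₀
      linarith
    · rw [Set.image_add_right, measure_preimage_add_right]
      exact h0
  · rw [Set.not_nonempty_iff_eq_empty.1 hne]
    simp

theorem Diss.volume_eq {H S₀ : Set ℂ} {N : ℕ} (h : Diss H S₀ N) (hH : IsOpen H)
    (h0 : IsOpen S₀) : volume S₀ = N * volume H := by
  classical
  obtain ⟨J, E, hN, hE, h1, h2⟩ := h
  have hopen : ∀ φ : ℂ ≃ᵢ ℂ, IsOpen (φ '' H) := fun φ => φ.toHomeomorph.isOpenMap H hH
  have hnull : volume (⋃ q ∈ E, {z : ℂ | hh q z = 0}) = 0 := by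
    have := (measure_biUnion_null_iff (μ := volume) (Finset.countable_toSet E)
      (s := fun q => {z : ℂ | hh q z = 0})).2 (fun q hq => volume_line (hE q hq))
    exact this
  have hae : ∀ᵐ z : ℂ, ∀ q ∈ E, hh q z ≠ 0 := by
    rw [ae_iff]
    convert hnull using 2
    ext z
    simp
  have e1 : ∀ᵐ z : ℂ, S₀.indicator (fun _ => (1 : ENNReal)) z =
      ∑ φ ∈ J, (φ '' H).indicator (fun _ => (1 : ENNReal)) z := by
    filter_upwards [hae] with z hz
    by_cases hz0 : z ∈ S₀
    · rw [Set.indicator_of_mem hz0]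
      obtain ⟨φ, ⟨hφ1, hφ2⟩, hφ3⟩ := h1 z hz hz0
      rw [Finset.sum_eq_single φ]
      · rw [Set.indicator_of_mem hφ2]
      · intro ψ hψ hne
        rw [Set.indicator_of_notMem]
        intro hz'
        exact hne (hφ3 ψ ⟨hψ, hz'⟩)
      · intro h; exact absurd hφ1 h
    · rw [Set.indicator_of_notMem hz0]
      symm
      apply Finset.sum_eq_zero
      intro φ hφ
      rw [Set.indicator_of_notMem]
      intro hz'
      exact hz0 (h2 φ hφ hz')
  calc volume S₀ = ∫⁻ z, S₀.indicator (fun _ => (1 : ENNReal)) z := by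
        rw [lintegral_indicator h0.measurableSet]; simp
    _ = ∫⁻ z, ∑ φ ∈ J, (φ '' H).indicator (fun _ => (1 : ENNReal)) z := lintegral_congr_ae e1
    _ = ∑ φ ∈ J, ∫⁻ z, (φ '' H).indicator (fun _ => (1 : ENNReal)) z := by
        rw [lintegral_finsetSum]
        intro φ _
        exact measurable_const.indicator (hopen φ).measurableSet
    _ = ∑ φ ∈ J, volume H := by
        apply Finset.sum_congr rfl
        intro φ _
        rw [lintegral_indicator (hopen φ).measurableSet]
        simp [volume_image]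
    _ = N * volume H := by rw [Finset.sum_const, hN, nsmul_eq_mul]

theorem no_common_tile' {H : Set ℂ} (hH : PolySet H) (hHo : IsOpen H) {R : ℝ}
    (hR : ∀ z ∈ H, ‖z‖ ≤ R)
    {s u : ℝ} (hs : 0 < s) (hu : 0 < u) {N4 N6 : ℕ} (h4 : Diss H (Tri s s) N4)
    (h6 : Diss H (Tri (Real.sqrt 3 * u) u) N6) : False := by
  have h3 : 0 < Real.sqrt 3 := Real.sqrt_pos.2 (by norm_num)
  have hu3 := mul_pos h3 hu
  have v4 := h4.volume_eq hHo (isOpen_Tri _ _)
  have v6 := h6.volume_eq hHo (isOpen_Tri _ _)
  have p4 := volume_Tri_pos hs hs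
  have p6 := volume_Tri_pos hu3 hu
  have f4 := volume_Tri_ne_top hs hs
  have n4 : N4 ≠ 0 := by
    rintro rfl
    rw [v4] at p4
    simp at p4
  have n6 : N6 ≠ 0 := by
    rintro rfl
    rw [v6] at p6
    simp at p6
  have fH : volume H ≠ ⊤ := by
    intro h
    rw [v4, h] at f4
    apply f4
    rw [ENNReal.mul_top]
    exact_mod_cast n4
  rw [volume_Tri hs hs] at v4
  rw [volume_Tri hu3 hu] at v6
  set V := volume (Tri 1 1) with hV
  have fV : V ≠ ⊤ := volume_Tri_ne_top one_pos one_pos
  have pV : 0 < V := volume_Tri_pos one_pos one_pos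
  have r4 : s * s * V.toReal = N4 * (volume H).toReal := by
    have := congrArg ENNReal.toReal v4
    rw [ENNReal.toReal_mul, ENNReal.toReal_mul, ENNReal.toReal_ofReal (by positivity)] at this
    simpa using this
  have r6 : Real.sqrt 3 * u * u * V.toReal = N6 * (volume H).toReal := by
    have := congrArg ENNReal.toReal v6
    rw [ENNReal.toReal_mul, ENNReal.toReal_mul, ENNReal.toReal_ofReal (by positivity)] at this
    simpa using this
  have hVr : 0 < V.toReal := ENNReal.toReal_pos pV.ne' fV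
  have c4 : (0 : ℝ) < N4 := by exact_mod_cast Nat.pos_of_ne_zero n4
  have c6 : (0 : ℝ) < N6 := by exact_mod_cast Nat.pos_of_ne_zero n6
  refine no_common_tile hH hR hs hu (q := (N6 : ℚ) / N4) (by
    have : (0 : ℚ) < N4 := by exact_mod_cast Nat.pos_of_ne_zero n4
    have : (0 : ℚ) < N6 := by exact_mod_cast Nat.pos_of_ne_zero n6
    positivity) ?_ h4 h6
  push_cast
  rw [div_mul_eq_mul_div, eq_div_iff c4.ne']
  have key : V.toReal * (Real.sqrt 3 * u ^ 2 * N4) = V.toReal * (N6 * s ^ 2) := by
    calc V.toReal * (Real.sqrt 3 * u ^ 2 * N4) = (Real.sqrt 3 * u * u * V.toReal) * N4 := by ring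
      _ = N6 * (volume H).toReal * N4 := by rw [r6]
      _ = N6 * (N4 * (volume H).toReal) := by ring
      _ = N6 * (s * s * V.toReal) := by rw [r4]
      _ = V.toReal * (N6 * s ^ 2) := by ring
  exact mul_left_cancel₀ hVr.ne' key

end Pool.Agent.H86.AP
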