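import Pool.Agent.H86.AP.Eng
import Pool.Agent.H55.APE.Base

/-!
# H86-AP-END: beginning and end of AP (proved by helper55, H55/APE)

* `start`: for `q = id`, `b = 0`, `w = 0`: `Vg id 0 g s x = 1` if `s` is conjugate to `g` and `s x = x s` (otherwise `0`), `Jf = 0`, `φ t_v` and `φ F_v` commute (`Fr.com`), so `SS` is the number of
  the `φ` with `Teq D.S0 Q φ φ₁`, `φ t_v` conjugate to `e v` at `E`, typed or unramified outside, rich. `φ` determines its configuration: `f v = some j` iff `φ t_v` is in the class `j`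
  (`f v = none` for `v ∈ E`); onto (`M ≥ 1`): the values at the `t_v` meet all conjugacy classes, `pg_char`.
* `base`: for `G` trivial: `XS L Q 1 T = {1}`, `Jf = 0` (`w` is normalised), `Vg q b g 1 1 ∈ {0, 1}`: `#P⁻¹ ∑_{σ conjugate to g} ∑_{x ∈ C(σ)} e(-⟨b⟩(σ,x))`, `d2 b = 0`, `x ↦ ⟨b⟩(σ,x)` is a
  homomorphism on `C(σ)`, conjugation invariant (`br_conj`), so the inner sum is `#C(σ)` for all `σ` in the class, or `0` for all. If some class has `Vg = 0`, `SS = 0` by richness.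
* `rc_lim`: `#RC / (Y (log Y)^(N-1)) → u > 0` (`un_lim` of H63/MB/BUe, `f ↔ (f⁻¹ (some j))_j`; not rich: at most `C Y (log Y)^(N-2+ε)`, `cnt_pat` of H35/CF/Cnt). `rc_sub`: primes outside `E`.
-/

set_option autoImplicit false
set_option linter.dupNamespace false

open scoped NumberField ComplexConjugate
open IsDedekindDomain Filter Topology
open scoped Classical

noncomputable section

namespace H86.AP

open H63.MA H38.ML H38.BB H38.BG H57.PC H57.BRA H77.PC3 H77.WD Pool.Agent.H19.NF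
  Pool.Agent.H19.AB H35.CF

variable {K : Type} [Field K] [NumberField K] {Ω : Type} [Field Ω] [Algebra K Ω]
  {p m N : ℕ} {ζ : K}

/-- the homomorphisms equal to `φ₁` at `S0`, with `t_v` conjugate to `e v` at `E`, typed or unramified outside, with `M` large typed primes of each class -/
def SYE {D : RD0 K p ζ} (L : LDs D Ω) (Q : DP K Ω) {P : Type} [Group P] (c : CL p N P)
    (φ₁ : Gal(Ω/K) →* P) (E : Finset (Pl K)) (e : Pl K → P) (M : ℕ) (T₀ Y : ℝ) :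
    Set (Gal(Ω/K) →* P) :=
  {φ | H38.ML.FT φ ∧ Teq D.S0 Q φ φ₁ ∧ (∀ v ∈ E, IsConj (φ (L.t v)) (e v)) ∧
    (∀ v, v ∉ D.S0 → v ∉ E → φ (L.t v) ≠ 1 → D.Gd v) ∧
    (∀ T : Finset (Pl K), (∀ v ∈ T, v ∉ D.S0 ∧ v ∉ E ∧ φ (L.t v) ≠ 1) → nr T ≤ Y) ∧
    ∀ j, ∃ T : Finset (Pl K), M ≤ T.card ∧
      ∀ v ∈ T, D.Gd v ∧ v ∉ E ∧ T₀ < (nm v : ℝ) ∧ IsConj (φ (L.t v)) (c.g j)}

theorem start [IsAlgClosure K Ω] [NeZero N] (hp : p.Prime) (hζ : IsPrimitiveRoot ζ p)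
    [NeZero (p ^ m)] (D : RD K p ζ) (L : LDs D.toRD0 Ω) (Q : DP K Ω) (Fr : FR L)
    {lam : Pl K → ZMod p} (hone : ∀ v, D.Gd v → lam v = 1)
    (I : (Gal(Ω/K) → Gal(Ω/K) → Gal(Ω/K) → ZMod (p ^ m)) →+ AddCircle (1 : ℝ))
    {P : Type} [Group P] [Fintype P] (hP : ∀ x : P, x ^ p = 1) (c : CL p N P)
    (hc : ∀ x : P, x ≠ 1 → ∃ j, IsConj x (c.g j)) (φ₁ : Gal(Ω/K) →* P) (E : Finset (Pl K))
    (e : Pl K → P) (hE : ∀ v ∈ E, v ∉ D.S0) (M : ℕ) (T₀ Y : ℝ) :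
    (SYE L Q c φ₁ E e M T₀ Y).Finite ∧
    (1 ≤ M → ∀ φ ∈ SYE L Q c φ₁ E e M T₀ Y, Function.Surjective φ) ∧
    SS c (BB L Q Fr lam I φ₁ (MonoidHom.id P) 0 0) D.toRD0 E e M T₀ Y =
      ((SYE L Q c φ₁ E e M T₀ Y).ncard : ℂ) := by
  exact H55.APE.start' hp hζ D L Q Fr lam I hP c hc φ₁ E e hE M T₀ Y

theorem base [IsAlgClosure K Ω] [NeZero N] (hp : p.Prime) (hζ : IsPrimitiveRoot ζ p)
    [NeZero (p ^ m)] (D : RD K p ζ) (L : LDs D.toRD0 Ω) (Q : DP K Ω) (Fr : FR L)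
    {lam : Pl K → ZMod p} (hone : ∀ v, D.Gd v → lam v = 1)
    (I : (Gal(Ω/K) → Gal(Ω/K) → Gal(Ω/K) → ZMod (p ^ m)) →+ AddCircle (1 : ℝ))
    {P : Type} [Group P] [Fintype P] (hP : ∀ x : P, x ^ p = 1) (c : CL p N P)
    (φ₁ : Gal(Ω/K) →* P) {G : Type} [Group G] [Fintype G] [Subsingleton G] (q : P →* G)
    (b : P → P → ZMod (p ^ m)) (w : G → G → G → ZMod (p ^ m)) {k : ℕ} (hbw : Sta p m k q b w) :
    ∃ r : ℝ, 0 ≤ r ∧ r ≤ 1 ∧ (b = 0 → r = 1) ∧ ∀ (M : ℕ) (T₀ Y : ℝ), 1 ≤ M →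
      SS c (BB L Q Fr lam I φ₁ q b w) D.toRD0 ∅ (fun _ => 1) M T₀ Y =
        (r : ℂ) * (RC D.toRD0 N M T₀ Y ∅).card ∧
      ∀ (E : Finset (Pl K)) (e : Pl K → P),
        ‖SS c (BB L Q Fr lam I φ₁ q b w) D.toRD0 E e M T₀ Y‖ ≤ (RC D.toRD0 N M T₀ Y E).card := by
  exact H55.APE.base' hp hζ D L Q Fr hone I hP c φ₁ q b w hbw

theorem rc_lim [NeZero N] (hp : p.Prime) (hζ : IsPrimitiveRoot ζ p) (D : RD0 K p ζ) :
    ∃ u : ℝ, 0 < u ∧ ∀ (M : ℕ) (ε : ℝ), 0 < ε → ε < 1 →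
      Tendsto (fun Y : ℝ => ((RC D N M (Real.exp (Real.log Y ^ ε)) Y ∅).card : ℝ) /
        (Y * Real.log Y ^ (N - 1))) atTop (𝓝 u) := by
  exact H55.APE.rc_lim' D

theorem rc_sub [NeZero N] (D : RD0 K p ζ) (M : ℕ) (T₀ Y : ℝ) (E : Finset (Pl K)) :
    (RC D N M T₀ Y E).card ≤ (RC D N M T₀ Y ∅).card := by
  exact H55.APE.rc_sub' D M T₀ Y E

end H86.AP
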