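import Pool.Agent.H1.ENG.Hsc
import Pool.Agent.H1.ENG.E1
import Pool.Agent.H1.ENG.E2

/-!
# H86-AP-ENG: the analytic engine of AP (proofs in H1/ENG)

* `hs_card`: at most `C^(#T + 1)` homomorphisms. `bb_bd`: trivial bound of `BB`.
* `eng1`: `Mn → Sm`. `eng2`: `Ng → Sm` (with the trivial bound).
-/

set_option autoImplicit false
set_option linter.dupNamespace false

open scoped NumberField ComplexConjugate
open IsDedekindDomain
open scoped Classical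

noncomputable section

namespace H86.AP

open H63.MA H38.ML H38.BB H38.BG H57.PC H57.BRA H57.GP H77.PC3 H77.WD Pool.Agent.H19.NF
  Pool.Agent.H19.AB H35.CF

section any

variable {K : Type} [Field K] [NumberField K] {Ω : Type} [Field Ω] [Algebra K Ω] [IsAlgClosure K Ω]
  {p m : ℕ} {ζ : K}

theorem hs_card (hp : p.Prime) (hζ : IsPrimitiveRoot ζ p) {D : RD0 K p ζ} (L : LDs D Ω) (B : ℕ) :
    ∃ C : ℝ, 1 ≤ C ∧ ∀ (H : Type) [Group H] [Finite H], Nat.card H ≤ B → (∀ h : H, h ^ p = 1) →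
      ∀ T : Finset (Pl K), ((HS L H T).card : ℝ) ≤ C ^ (T.card + 1) ∧
        ∀ φ : Gal(Ω/K) →* H, φ ∈ HS L H T ↔ Hon L T φ := by
  exact H1.ENG.hs_card hp hζ L B

theorem bb_bd (hp : p.Prime) (hζ : IsPrimitiveRoot ζ p) [NeZero (p ^ m)] (D : RD0 K p ζ)
    (L : LDs D Ω) (Q : DP K Ω) (Fr : FR L) (lam : Pl K → ZMod p)
    (I : (Gal(Ω/K) → Gal(Ω/K) → Gal(Ω/K) → ZMod (p ^ m)) →+ AddCircle (1 : ℝ))
    {P : Type} [Group P] [Fintype P] (hP : ∀ x : P, x ^ p = 1) (φ₁ : Gal(Ω/K) →* P) {G : Type}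
    [Group G] [Fintype G] (q : P →* G) (hq : Function.Surjective q)
    (b : P → P → ZMod (p ^ m)) (w : G → G → G → ZMod (p ^ m)) :
    ∃ C : ℝ, 1 ≤ C ∧ ∀ (T : Finset (Pl K)) (γ : Pl K → P),
      ‖BB L Q Fr lam I φ₁ q b w T γ‖ ≤ C ^ (T.card + 1) := by
  exact H1.ENG.bb_bd hp hζ D L Q Fr lam I hP φ₁ q hq b w

end any

section qbar

variable {p N : ℕ} [NeZero N] {K : IntermediateField ℚ QBar} [NumberField K] {ζ : K}
  {P : Type} [Group P]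

theorem eng1 (hp : p.Prime) (hp2 : p ≠ 2) (hζ : IsPrimitiveRoot ζ p) (D : RD0 K p ζ)
    (L : LDs D QBar) (Fr : FR L) (c : CL p N P) (j₀ : Fin N)
    (X : Finset (Pl K) → (Pl K → P) → ℂ) (hX : Mn L Fr c j₀ X) : Sm D c j₀ X := by
  exact H1.ENG.eng1 hp hp2 hζ D L Fr c j₀ X hX

theorem eng2 (hp : p.Prime) (hp2 : p ≠ 2) (hζ : IsPrimitiveRoot ζ p) (D : RD0 K p ζ)
    (L : LDs D QBar) (Fr : FR L) (c : CL p N P) (j₀ : Fin N)
    (X : Finset (Pl K) → (Pl K → P) → ℂ) (hX : Ng L Fr c j₀ X) {C : ℝ} (hC : 1 ≤ C)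
    (hb : ∀ T γ, ‖X T γ‖ ≤ C ^ (T.card + 1)) : Sm D c j₀ X := by
  exact H1.ENG.eng2 hp hp2 hζ D L Fr c j₀ X hX hC hb

end qbar

end H86.AP
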