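import Mathlib
import Pool.Agent.H86.AP.Defs

/-!
The interior of a polygon is (pre)connected.
-/

namespace Pool.Agent.H86.AP

open Set Metric Filter Topology

/-- Open half-planes through `x`. -/
def pcH (x : ℂ) (A B : ℝ) : Set ℂ := {z | 0 < A * (z.re - x.re) + B * (z.im - x.im)}

theorem pcH_convex (x : ℂ) (A B : ℝ) : Convex ℝ (pcH x A B) := by
  intro z1 h1 z2 h2 a b ha hb hab
  simp only [pcH, mem_ofPred_eq, Complex.add_re, Complex.add_im, Complex.real_smul,
    Complex.re_ofReal_mul, Complex.im_ofReal_mul] at *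
  have e : A * (a * z1.re + b * z2.re - x.re) + B * (a * z1.im + b * z2.im - x.im) =
      a * (A * (z1.re - x.re) + B * (z1.im - x.im)) +
        b * (A * (z2.re - x.re) + B * (z2.im - x.im)) := by
    linear_combination (A * x.re + B * x.im) * hab
  rw [e]
  rcases ha.lt_or_eq with ha | ha
  · have := mul_pos ha h1
    have := mul_nonneg hb h2.le
    linarith
  · have hb1 : b = 1 := by linarith
    rw [← ha, hb1]
    linarith

/-- Rays. -/
def pcRay (x u : ℂ) : Set ℂ := {z | ∃ t : ℝ, 0 ≤ t ∧ z = x + t • u}

/-- closure criterion -/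
theorem pc_closure {x y c : ℂ} {r : ℝ} {S : Set ℂ} (hy : y ∈ ball x r)
    (h : ∀ ε : ℝ, 0 < ε → y + ε • c ∈ S) : y ∈ closure (S ∩ ball x r) := by
  have h1 : y ∈ closure S := by
    have ht : Tendsto (fun ε : ℝ => y + ε • c) (𝓝[>] 0) (𝓝 y) := by
      have : Tendsto (fun ε : ℝ => y + ε • c) (𝓝 0) (𝓝 (y + (0 : ℝ) • c)) :=
        Continuous.tendsto (by fun_prop) 0
      rw [zero_smul, add_zero] at this
      exact this.mono_left nhdsWithin_le_nhds
    refine mem_closure_of_tendsto ht ?_
    filter_upwards [self_mem_nhdsWithin] with ε hε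
    exact h ε hε
  have := isOpen_ball.inter_closure (s := ball x r) (t := S) ⟨hy, h1⟩
  rwa [inter_comm] at this

theorem pc_sectors_aux (x u w : ℂ) (r : ℝ) (hr : 0 < r)
    (hD : 0 < u.re * w.im - u.im * w.re) :
    ∃ C1 C2 : Set ℂ, IsPreconnected C1 ∧ IsPreconnected C2 ∧
      ball x r \ (pcRay x u ∪ pcRay x w) = C1 ∪ C2 ∧
      ∀ y ∈ (pcRay x u ∪ pcRay x w) ∩ ball x r, y ∈ closure C1 ∧ y ∈ closure C2 := by
  set D := u.re * w.im - u.im * w.re with hDdef
  -- α z = cr (z-x) w, β z = cr u (z-x)
  let α : ℂ → ℝ := fun z => w.im * (z.re - x.re) + (-w.re) * (z.im - x.im)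
  let β : ℂ → ℝ := fun z => (-u.im) * (z.re - x.re) + u.re * (z.im - x.im)
  have hrep : ∀ z, z = x + (α z / D) • u + (β z / D) • w := by
    intro z
    apply Complex.ext
    · simp only [Complex.add_re, Complex.real_smul, Complex.re_ofReal_mul]
      field_simp
      simp only [α, β, hDdef]
      ring
    · simp only [Complex.add_im, Complex.real_smul, Complex.im_ofReal_mul]
      field_simp
      simp only [α, β, hDdef]
      ring
  have hα : ∀ a b : ℝ, α (x + a • u + b • w) = a * D := by
    intro a b
    simp only [α, hDdef, Complex.add_re, Complex.add_im, Complex.real_smul, Complex.re_ofReal_mul,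
      Complex.im_ofReal_mul]
    ring
  have hβ : ∀ a b : ℝ, β (x + a • u + b • w) = b * D := by
    intro a b
    simp only [β, hDdef, Complex.add_re, Complex.add_im, Complex.real_smul, Complex.re_ofReal_mul,
      Complex.im_ofReal_mul]
    ring
  have hU : ∀ z, z ∈ pcRay x u ↔ 0 ≤ α z ∧ β z = 0 := by
    intro z
    constructor
    · rintro ⟨t, ht, rfl⟩
      have e : x + t • u = x + t • u + (0 : ℝ) • w := by simp
      rw [e, hα, hβ]
      exact ⟨mul_nonneg ht hD.le, by simp⟩
    · rintro ⟨h1, h2⟩
      refine ⟨α z / D, div_nonneg h1 hD.le, ?_⟩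
      have := hrep z
      rw [h2, zero_div, zero_smul, add_zero] at this
      exact this
  have hW : ∀ z, z ∈ pcRay x w ↔ 0 ≤ β z ∧ α z = 0 := by
    intro z
    constructor
    · rintro ⟨t, ht, rfl⟩
      have e : x + t • w = x + (0 : ℝ) • u + t • w := by simp
      rw [e, hα, hβ]
      exact ⟨mul_nonneg ht hD.le, by simp⟩
    · rintro ⟨h1, h2⟩
      refine ⟨β z / D, div_nonneg h1 hD.le, ?_⟩
      have := hrep z
      rw [h2, zero_div, zero_smul, add_zero] at this
      exact this
  have eα : ∀ z, z ∈ pcH x w.im (-w.re) ↔ 0 < α z := fun z => Iff.rfl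
  have eβ : ∀ z, z ∈ pcH x (-u.im) u.re ↔ 0 < β z := fun z => Iff.rfl
  have eα' : ∀ z, z ∈ pcH x (-w.im) w.re ↔ α z < 0 := by
    intro z
    simp only [pcH, mem_ofPred_eq, α]
    constructor <;> intro h <;> linarith
  have eβ' : ∀ z, z ∈ pcH x u.im (-u.re) ↔ β z < 0 := by
    intro z
    simp only [pcH, mem_ofPred_eq, β]
    constructor <;> intro h <;> linarith
  refine ⟨(pcH x w.im (-w.re) ∩ pcH x (-u.im) u.re) ∩ ball x r,
    (pcH x (-w.im) w.re ∪ pcH x u.im (-u.re)) ∩ ball x r, ?_, ?_, ?_, ?_⟩
  · exact (((pcH_convex _ _ _).inter (pcH_convex _ _ _)).inter (convex_ball _ _)).isPreconnected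
  · rw [union_inter_distrib_right]
    have h1 := ((pcH_convex x (-w.im) w.re).inter (convex_ball x r)).isPreconnected
    have h2 := ((pcH_convex x u.im (-u.re)).inter (convex_ball x r)).isPreconnected
    -- a common point
    set ε : ℝ := r / (2 * (‖u + w‖ + 1)) with hε
    have hpos : 0 < ‖u + w‖ + 1 := by positivity
    have hε0 : 0 < ε := by positivity
    have hz : x + (-ε) • u + (-ε) • w ∈ ball x r := by
      rw [mem_ball, dist_eq_norm]
      have e1 : x + (-ε) • u + (-ε) • w - x = (-ε) • (u + w) := by
        rw [smul_add]; ring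
      rw [e1, norm_smul, Real.norm_eq_abs, abs_neg, abs_of_pos hε0]
      have : ε * (‖u + w‖ + 1) = r / 2 := by
        rw [hε]; field_simp
      nlinarith [norm_nonneg (u + w)]
    refine IsPreconnected.union (x + (-ε) • u + (-ε) • w) ⟨?_, hz⟩ ⟨?_, hz⟩ h1 h2
    · rw [eα', hα]; nlinarith
    · rw [eβ', hβ]; nlinarith
  · ext z
    simp only [Set.mem_sdiff, mem_union, mem_inter_iff, hU, hW, eα, eβ, eα', eβ']
    constructor
    · rintro ⟨hb, hn⟩
      push Not at hn
      rcases lt_trichotomy (α z) 0 with h | h | h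
      · exact Or.inr ⟨Or.inl h, hb⟩
      · rcases lt_trichotomy (β z) 0 with h' | h' | h'
        · exact Or.inr ⟨Or.inr h', hb⟩
        · exact absurd h (hn.2 h'.ge)
        · exact absurd h (hn.2 h'.le)
      · rcases lt_trichotomy (β z) 0 with h' | h' | h'
        · exact Or.inr ⟨Or.inr h', hb⟩
        · exact absurd h' (hn.1 h.le)
        · exact Or.inl ⟨⟨h, h'⟩, hb⟩
    · rintro (⟨⟨h1, h2⟩, hb⟩ | ⟨h | h, hb⟩)
      · exact ⟨hb, by push Not; exact ⟨fun _ => h2.ne', fun _ => h1.ne'⟩⟩
      · exact ⟨hb, by push Not; exact ⟨fun h3 => absurd h3 (not_le.mpr h), fun _ => h.ne⟩⟩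
      · exact ⟨hb, by push Not; exact ⟨fun _ => h.ne, fun h3 => absurd h3 (not_le.mpr h)⟩⟩
  · rintro y ⟨hy | hy, hb⟩
    · obtain ⟨t, ht, rfl⟩ := hy
      constructor
      · refine pc_closure (c := u + w) hb fun ε hε => ?_
        have e : x + t • u + ε • (u + w) = x + (t + ε) • u + ε • w := by
          rw [smul_add, add_smul]; ring
        rw [e]
        refine ⟨?_, ?_⟩
        · rw [eα, hα]; positivity
        · rw [eβ, hβ]; positivity
      · refine pc_closure (c := -w) hb fun ε hε => ?_
        have e : x + t • u + ε • (-w) = x + t • u + (-ε) • w := by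
          rw [smul_neg, neg_smul]
        rw [e]
        right
        rw [eβ', hβ]; nlinarith
    · obtain ⟨t, ht, rfl⟩ := hy
      constructor
      · refine pc_closure (c := u + w) hb fun ε hε => ?_
        have e : x + t • w + ε • (u + w) = x + ε • u + (t + ε) • w := by
          rw [smul_add, add_smul]; ring
        rw [e]
        refine ⟨?_, ?_⟩
        · rw [eα, hα]; positivity
        · rw [eβ, hβ]; positivity
      · refine pc_closure (c := -u) hb fun ε hε => ?_
        have e : x + t • w + ε • (-u) = x + (-ε) • u + t • w := by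
          rw [smul_neg, neg_smul]; ring
        rw [e]
        left
        rw [eα', hα]; nlinarith

theorem pc_sectors (x u w : ℂ) (r : ℝ) (hr : 0 < r) (hu : u ≠ 0) (hw : w ≠ 0)
    (h : ∀ t : ℝ, 0 < t → w ≠ t • u) :
    ∃ C1 C2 : Set ℂ, IsPreconnected C1 ∧ IsPreconnected C2 ∧
      ball x r \ (pcRay x u ∪ pcRay x w) = C1 ∪ C2 ∧
      ∀ y ∈ (pcRay x u ∪ pcRay x w) ∩ ball x r, y ∈ closure C1 ∧ y ∈ closure C2 := by
  rcases lt_trichotomy (u.re * w.im - u.im * w.re) 0 with hD | hD | hD
  · have := pc_sectors_aux x w u r hr (by linarith)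
    rwa [union_comm] at this
  · -- opposite directions
    have hu2 : 0 < u.re ^ 2 + u.im ^ 2 := by
      have : 0 < Complex.normSq u := Complex.normSq_pos.mpr hu
      rw [Complex.normSq_apply] at this
      nlinarith
    obtain ⟨c, hc, hcw⟩ : ∃ c : ℝ, 0 < c ∧ w = (-c) • u := by
      set k := (u.re * w.re + u.im * w.im) / (u.re ^ 2 + u.im ^ 2) with hk
      have hkw : w = k • u := by
        apply Complex.ext
        · simp only [Complex.real_smul, Complex.re_ofReal_mul]
          rw [hk]; field_simp
          linear_combination (-u.im) * hD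
        · simp only [Complex.real_smul, Complex.im_ofReal_mul]
          rw [hk]; field_simp
          linear_combination (u.re) * hD
      refine ⟨-k, ?_, by rw [neg_neg]; exact hkw⟩
      by_contra hcon
      push Not at hcon
      have hk0 : 0 ≤ k := by linarith
      rcases hk0.lt_or_eq with hk0 | hk0
      · exact h k hk0 hkw
      · rw [← hk0, zero_smul] at hkw
        exact hw hkw
    let β : ℂ → ℝ := fun z => (-u.im) * (z.re - x.re) + u.re * (z.im - x.im)
    have hβ : ∀ a b : ℝ, β (x + a • u + b • (Complex.I * u)) = b * (u.re ^ 2 + u.im ^ 2) := by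
      intro a b
      simp only [β, Complex.add_re, Complex.add_im, Complex.real_smul,
        Complex.mul_re, Complex.mul_im, Complex.I_re, Complex.I_im, Complex.ofReal_re,
        Complex.ofReal_im]
      ring
    have hR : ∀ z, z ∈ pcRay x u ∪ pcRay x w ↔ β z = 0 := by
      intro z
      constructor
      · rintro (⟨t, ht, rfl⟩ | ⟨t, ht, rfl⟩)
        · have := hβ t 0
          simpa using this
        · have := hβ (t * (-c)) 0
          rw [hcw, smul_smul]
          simpa using this
      · intro hz
        set s := (u.re * (z.re - x.re) + u.im * (z.im - x.im)) / (u.re ^ 2 + u.im ^ 2) with hs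
        have hzs : z = x + s • u := by
          apply Complex.ext
          · simp only [Complex.add_re, Complex.real_smul, Complex.re_ofReal_mul]
            rw [hs]; field_simp
            simp only [β] at hz
            linear_combination (-u.im) * hz
          · simp only [Complex.add_im, Complex.real_smul, Complex.im_ofReal_mul]
            rw [hs]; field_simp
            simp only [β] at hz
            linear_combination (u.re) * hz
        rcases le_total 0 s with h0 | h0
        · exact Or.inl ⟨s, h0, hzs⟩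
        · refine Or.inr ⟨(-s) / c, div_nonneg (by linarith) hc.le, ?_⟩
          rw [hcw, smul_smul, hzs]
          congr 2
          field_simp
    have eβ : ∀ z, z ∈ pcH x (-u.im) u.re ↔ 0 < β z := fun z => Iff.rfl
    have eβ' : ∀ z, z ∈ pcH x u.im (-u.re) ↔ β z < 0 := by
      intro z
      simp only [pcH, mem_ofPred_eq, β]
      constructor <;> intro h <;> linarith
    have hline : ∀ y, y ∈ pcRay x u ∪ pcRay x w → ∃ t : ℝ, y = x + t • u := by
      rintro y (⟨t, ht, rfl⟩ | ⟨t, ht, rfl⟩)
      · exact ⟨t, rfl⟩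
      · exact ⟨t * (-c), by rw [hcw, smul_smul]⟩
    refine ⟨pcH x (-u.im) u.re ∩ ball x r, pcH x u.im (-u.re) ∩ ball x r, ?_, ?_, ?_, ?_⟩
    · exact ((pcH_convex _ _ _).inter (convex_ball _ _)).isPreconnected
    · exact ((pcH_convex _ _ _).inter (convex_ball _ _)).isPreconnected
    · ext z
      rw [Set.mem_sdiff, hR]
      simp only [mem_union, mem_inter_iff, eβ, eβ']
      constructor
      · rintro ⟨hb, hn⟩
        rcases lt_trichotomy (β z) 0 with h' | h' | h'
        · exact Or.inr ⟨h', hb⟩
        · exact absurd h' hn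
        · exact Or.inl ⟨h', hb⟩
      · rintro (⟨h', hb⟩ | ⟨h', hb⟩)
        · exact ⟨hb, h'.ne'⟩
        · exact ⟨hb, h'.ne⟩
    · rintro y ⟨hy, hb⟩
      obtain ⟨t, rfl⟩ := hline y hy
      constructor
      · refine pc_closure (c := Complex.I * u) hb fun ε hε => ?_
        rw [eβ, hβ]; positivity
      · refine pc_closure (c := -(Complex.I * u)) hb fun ε hε => ?_
        have e : x + t • u + ε • (-(Complex.I * u)) = x + t • u + (-ε) • (Complex.I * u) := by
          rw [smul_neg, neg_smul]
        rw [e, eβ', hβ]; nlinarith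
  · exact pc_sectors_aux x u w r hr hD

theorem pc_three {n : ℕ} (hn : 3 ≤ n) : (1 : ZMod n) ≠ 0 ∧ (2 : ZMod n) ≠ 0 := by
  constructor
  · intro h
    have h1 : ((1 : ℕ) : ZMod n) = 0 := by simpa using h
    rw [ZMod.natCast_eq_zero_iff] at h1
    have := Nat.le_of_dvd (by norm_num) h1
    omega
  · intro h
    have h1 : ((2 : ℕ) : ZMod n) = 0 := by simpa using h
    rw [ZMod.natCast_eq_zero_iff] at h1
    have := Nat.le_of_dvd (by norm_num) h1
    omega

/-- near its end point a segment is a ray -/
theorem pc_seg_ball (x p : ℂ) (hp : p ≠ x) {r : ℝ} (hr : r ≤ ‖p - x‖) :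
    segment ℝ x p ∩ ball x r = pcRay x (p - x) ∩ ball x r := by
  ext z
  simp only [mem_inter_iff, and_congr_left_iff]
  intro hb
  rw [segment_eq_image']
  constructor
  · rintro ⟨t, ⟨h0, _⟩, rfl⟩
    exact ⟨t, h0, rfl⟩
  · rintro ⟨t, h0, rfl⟩
    refine ⟨t, ⟨h0, ?_⟩, rfl⟩
    rw [mem_ball, dist_eq_norm, add_sub_cancel_left, norm_smul, Real.norm_eq_abs,
      abs_of_nonneg h0] at hb
    have hpos : 0 < ‖p - x‖ := norm_pos_iff.mpr (sub_ne_zero.mpr hp)
    by_contra hcon
    push Not at hcon
    nlinarith

/-- a segment is the union of the two segments from an interior point -/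
theorem pc_seg_split {a b x : ℂ} (hx : x ∈ segment ℝ a b) :
    segment ℝ a b = segment ℝ x a ∪ segment ℝ x b := by
  apply subset_antisymm
  · intro z hz
    rw [segment_eq_image'] at hx hz
    obtain ⟨s, ⟨hs0, hs1⟩, rfl⟩ := hx
    obtain ⟨t, ⟨ht0, ht1⟩, rfl⟩ := hz
    simp only
    rcases le_total t s with h | h
    · left
      rcases hs0.lt_or_eq with hs | hs
      · rw [segment_eq_image']
        refine ⟨(s - t) / s, ⟨div_nonneg (by linarith) hs0, ?_⟩, ?_⟩
        · rw [div_le_one hs]; linarith
        · simp only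
          have e : a - (a + s • (b - a)) = (-s) • (b - a) := by
            rw [neg_smul]; ring
          rw [e, smul_smul, add_assoc, ← add_smul]
          congr 2
          field_simp
          ring
      · have ht : t = 0 := by linarith
        rw [ht, ← hs]
        simp
    · right
      rcases hs1.lt_or_eq with hs | hs
      · rw [segment_eq_image']
        have hpos : 0 < 1 - s := by linarith
        refine ⟨(t - s) / (1 - s), ⟨div_nonneg (by linarith) hpos.le, ?_⟩, ?_⟩
        · rw [div_le_one hpos]; linarith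
        · simp only
          have e : b - (a + s • (b - a)) = (1 - s) • (b - a) := by
            rw [sub_smul, one_smul]; ring
          rw [e, smul_smul, add_assoc, ← add_smul]
          congr 2
          field_simp
          ring
      · have ht : t = 1 := by linarith
        rw [ht, hs]
        simp
  · apply union_subset
    · exact (convex_segment a b).segment_subset hx (left_mem_segment _ _ _)
    · exact (convex_segment a b).segment_subset hx (right_mem_segment _ _ _)

/-- local structure of a simple closed polygonal curve -/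
theorem pc_local {J : Set ℂ} (hJ : IsSimpleClosedPolygonalCurve J) {x : ℂ} (hx : x ∈ J) :
    ∃ (u w : ℂ) (r : ℝ), 0 < r ∧ u ≠ 0 ∧ w ≠ 0 ∧ (∀ t : ℝ, 0 < t → w ≠ t • u) ∧
      J ∩ ball x r = (pcRay x u ∪ pcRay x w) ∩ ball x r := by
  obtain ⟨n, v, hn, hv, hsimple, rfl⟩ := hJ
  have : NeZero n := ⟨by omega⟩
  obtain ⟨h10, h20⟩ := pc_three hn
  obtain ⟨i, hi⟩ := mem_iUnion.mp hx
  -- edges not through x
  have hfar : ∃ r > 0, ∀ j, x ∉ segment ℝ (v j) (v (j + 1)) →
      Disjoint (ball x r) (segment ℝ (v j) (v (j + 1))) := by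
    have hclosed : IsClosed (⋃ j ∈ {j : ZMod n | x ∉ segment ℝ (v j) (v (j + 1))},
        segment ℝ (v j) (v (j + 1))) := by
      refine Set.Finite.isClosed_biUnion (toFinite _) fun j _ => ?_
      rw [segment_eq_image']
      exact (isCompact_Icc.image (by fun_prop)).isClosed
    have hxn : x ∉ ⋃ j ∈ {j : ZMod n | x ∉ segment ℝ (v j) (v (j + 1))},
        segment ℝ (v j) (v (j + 1)) := by
      simp only [mem_iUnion, not_exists]
      intro j hj
      exact hj
    obtain ⟨r, hr, hball⟩ := Metric.isOpen_iff.mp hclosed.isOpen_compl x hxn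
    refine ⟨r, hr, fun j hj => ?_⟩
    rw [disjoint_left]
    intro z hz hzj
    apply hball hz
    simp only [mem_iUnion]
    exact ⟨j, hj, hzj⟩
  obtain ⟨r0, hr0, hfar⟩ := hfar
  have hnotsame : ∀ j : ZMod n, v j ≠ v (j + 1) := by
    intro j h
    have := hv h
    apply h10
    have h2 : j + 1 = j + 0 := by rw [add_zero]; exact this.symm
    exact add_left_cancel h2
  -- the unified claim: J near x is two segments from x
  suffices hmain : ∃ p q : ℂ, p ≠ x ∧ q ≠ x ∧ (∀ t : ℝ, 0 < t → q - x ≠ t • (p - x)) ∧
      ∃ r > 0, (⋃ i : ZMod n, segment ℝ (v i) (v (i + 1))) ∩ ball x r =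
        (segment ℝ x p ∪ segment ℝ x q) ∩ ball x r by
    obtain ⟨p, q, hp, hq, hpq, r, hr, hE⟩ := hmain
    refine ⟨p - x, q - x, min r (min ‖p - x‖ ‖q - x‖), ?_, sub_ne_zero.mpr hp,
      sub_ne_zero.mpr hq, hpq, ?_⟩
    · have := norm_pos_iff.mpr (sub_ne_zero.mpr hp)
      have := norm_pos_iff.mpr (sub_ne_zero.mpr hq)
      positivity
    · set r' := min r (min ‖p - x‖ ‖q - x‖) with hr'
      have h1 : ball x r' ⊆ ball x r := ball_subset_ball (min_le_left _ _)
      have h2 : r' ≤ ‖p - x‖ := (min_le_right _ _).trans (min_le_left _ _)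
      have h3 : r' ≤ ‖q - x‖ := (min_le_right _ _).trans (min_le_right _ _)
      have e1 : (⋃ i : ZMod n, segment ℝ (v i) (v (i + 1))) ∩ ball x r' =
          (segment ℝ x p ∪ segment ℝ x q) ∩ ball x r' := by
        rw [← inter_eq_self_of_subset_right h1, ← inter_assoc, ← inter_assoc, hE]
      rw [e1, union_inter_distrib_right, union_inter_distrib_right, pc_seg_ball x p hp h2,
        pc_seg_ball x q hq h3]
  by_cases hvert : ∃ k, x = v k
  · obtain ⟨k, rfl⟩ := hvert
    refine ⟨v (k + 1), v (k - 1), (hnotsame k).symm, ?_, ?_, r0, hr0, ?_⟩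
    · have := hnotsame (k - 1)
      rwa [sub_add_cancel] at this
    · -- rays do not overlap
      intro t ht hcon
      have hk : k ≠ k - 1 := by
        intro h
        apply h10
        have h2 : k - 0 = k - 1 := by rw [sub_zero]; exact h
        exact (sub_right_injective h2).symm
      set s : ℝ := min 1 (1 / t) with hs
      have hspos : 0 < s := by positivity
      have hs1 : s ≤ 1 := min_le_left _ _
      have hs2 : s * t ≤ 1 := by
        calc s * t ≤ 1 / t * t := mul_le_mul_of_nonneg_right (min_le_right _ _) ht.le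
          _ = 1 := by field_simp
      -- the point v k + s (v(k-1) - v k) = v k + (s t) (v(k+1) - v k)
      have hz1 : v k + s • (v (k - 1) - v k) ∈ segment ℝ (v (k - 1)) (v (k - 1 + 1)) := by
        rw [sub_add_cancel, segment_symm, segment_eq_image']
        exact ⟨s, ⟨hspos.le, hs1⟩, rfl⟩
      have hz2 : v k + s • (v (k - 1) - v k) ∈ segment ℝ (v k) (v (k + 1)) := by
        rw [hcon, smul_smul, segment_eq_image']
        exact ⟨s * t, ⟨by positivity, hs2⟩, rfl⟩
      rcases hsimple k (k - 1) hk _ ⟨hz2, hz1⟩ with ⟨h, _⟩ | ⟨_, h⟩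
      · apply h20
        have h2 : k - 1 = k - (-1) := by rw [sub_neg_eq_add]; exact h
        have h3 := sub_right_injective h2
        have h4 : (1 : ZMod n) + 1 = 0 := by
          nth_rewrite 1 [h3]; ring
        rw [← h4]; norm_num
      · have h2 : s • (v (k - 1) - v k) = 0 := by
          have h' : v k + s • (v (k - 1) - v k) = v k + 0 := by rw [add_zero]; exact h
          exact add_left_cancel h'
        rw [smul_eq_zero] at h2
        rcases h2 with h2 | h2
        · exact hspos.ne' h2
        · have := hnotsame (k - 1)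
          rw [sub_add_cancel] at this
          exact this (sub_eq_zero.mp h2)
    · ext z
      simp only [mem_inter_iff, and_congr_left_iff]
      intro hb
      constructor
      · intro hz
        obtain ⟨j, hj⟩ := mem_iUnion.mp hz
        have hxj : v k ∈ segment ℝ (v j) (v (j + 1)) := by
          by_contra hcon
          exact (disjoint_left.mp (hfar j hcon)) hb hj
        by_cases hjk : j = k
        · subst hjk; exact Or.inl hj
        · rcases hsimple k j (Ne.symm hjk) (v k) ⟨left_mem_segment _ _ _, hxj⟩ with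
            ⟨h, h'⟩ | ⟨h, _⟩
          · exact absurd (hv h').symm hjk
          · right
            have hj' : j = k - 1 := by rw [h]; ring
            rw [hj', sub_add_cancel] at hj
            rw [segment_symm]
            exact hj
      · rintro (hz | hz)
        · exact mem_iUnion.mpr ⟨k, hz⟩
        · refine mem_iUnion.mpr ⟨k - 1, ?_⟩
          rw [sub_add_cancel, segment_symm]
          exact hz
  · push Not at hvert
    refine ⟨v i, v (i + 1), (hvert i).symm, (hvert (i + 1)).symm, ?_, r0, hr0, ?_⟩
    · intro t ht hcon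
      -- x = a + s (b - a)
      rw [segment_eq_image'] at hi
      obtain ⟨s, ⟨hs0, hs1⟩, hxs⟩ := hi
      simp only at hxs
      have hab : v (i + 1) - v i ≠ 0 := sub_ne_zero.mpr (hnotsame i).symm
      have e1 : v i - x = (-s) • (v (i + 1) - v i) := by
        rw [← hxs, neg_smul]; ring
      have e2 : v (i + 1) - x = (1 - s) • (v (i + 1) - v i) := by
        rw [← hxs, sub_smul, one_smul]; ring
      rw [e1, e2, smul_smul] at hcon
      have h3 := smul_left_injective ℝ hab hcon
      have h4 : s = 0 ∧ s = 1 := by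
        constructor <;> nlinarith
      linarith [h4.1, h4.2]
    · ext z
      simp only [mem_inter_iff, and_congr_left_iff]
      intro hb
      rw [← pc_seg_split hi]
      constructor
      · intro hz
        obtain ⟨j, hj⟩ := mem_iUnion.mp hz
        have hxj : x ∈ segment ℝ (v j) (v (j + 1)) := by
          by_contra hcon
          exact (disjoint_left.mp (hfar j hcon)) hb hj
        by_cases hji : j = i
        · subst hji; exact hj
        · rcases hsimple i j (Ne.symm hji) x ⟨hi, hxj⟩ with ⟨_, h⟩ | ⟨_, h⟩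
          · exact absurd h (hvert j)
          · exact absurd h (hvert i)
      · intro hz
        exact mem_iUnion.mpr ⟨i, hz⟩

/-- a simple closed polygonal curve is connected -/
theorem pc_conn {J : Set ℂ} (hJ : IsSimpleClosedPolygonalCurve J) : IsPreconnected J := by
  obtain ⟨n, v, hn, hv, hsimple, rfl⟩ := hJ
  have : NeZero n := ⟨by omega⟩
  have e : (⋃ i : ZMod n, segment ℝ (v i) (v (i + 1))) =
      ⋃ k : ℕ, segment ℝ (v (k : ZMod n)) (v ((k : ZMod n) + 1)) := by
    apply subset_antisymm
    · refine iUnion_subset fun i => ?_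
      refine subset_iUnion_of_subset i.val ?_
      rw [ZMod.natCast_zmod_val]
    · exact iUnion_subset fun k => subset_iUnion_of_subset (k : ZMod n) subset_rfl
  rw [e]
  refine IsPreconnected.iUnion_of_chain (fun k => (convex_segment _ _).isPreconnected) ?_
  intro k
  refine ⟨v ((k : ZMod n) + 1), right_mem_segment _ _ _, ?_⟩
  have : ((Order.succ k : ℕ) : ZMod n) = (k : ZMod n) + 1 := by
    rw [Nat.succ_eq_succ]; push_cast; ring
  rw [this]
  exact left_mem_segment _ _ _

theorem IsPolygon.interior_isPreconnected {P : Set ℂ} (hP : IsPolygon P) :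
    IsPreconnected (interior P) := by
  obtain ⟨hcomp, hne, hJ⟩ := hP
  have hclosed : IsClosed P := hcomp.isClosed
  rw [isPreconnected_iff_subset_of_disjoint]
  intro U V hU hV hUV hdisj
  by_contra hcon
  push Not at hcon
  obtain ⟨hnU, hnV⟩ := hcon
  -- general facts for an open piece
  have key : ∀ U V : Set ℂ, IsOpen U → IsOpen V → interior P ⊆ U ∪ V →
      interior P ∩ (U ∩ V) = ∅ → ¬ interior P ⊆ V →
      ∀ x ∈ frontier P, ∀ (r : ℝ) (C1 C2 : Set ℂ), IsPreconnected C1 → IsPreconnected C2 →
        0 < r → ball x r \ frontier P = C1 ∪ C2 →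
        (∀ y ∈ frontier P ∩ ball x r, y ∈ closure C1 ∧ y ∈ closure C2) →
        C1 ⊆ interior P ∩ U ∨ C2 ⊆ interior P ∩ U := by
    intro U V hU hV hUV hdisj hnV
    set O := interior P ∩ U with hO
    have hOopen : IsOpen O := isOpen_interior.inter hU
    have hOne : O.Nonempty := by
      obtain ⟨z, hz, hzV⟩ := not_subset.mp hnV
      rcases hUV hz with h | h
      · exact ⟨z, hz, h⟩
      · exact absurd h hzV
    have hfr : frontier O ⊆ frontier P := by
      intro z hz
      have hzc : z ∈ closure O := frontier_subset_closure hz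
      have hzP : z ∈ P := by
        have : closure O ⊆ P :=
          closure_minimal (inter_subset_left.trans interior_subset) hclosed
        exact this hzc
      rw [hclosed.frontier_eq]
      refine ⟨hzP, fun hzi => ?_⟩
      rcases hUV hzi with h | h
      · have hzO : z ∈ O := ⟨hzi, h⟩
        rw [hOopen.frontier_eq] at hz
        exact hz.2 hzO
      · rw [_root_.mem_closure_iff] at hzc
        obtain ⟨y, ⟨hyV, hyi⟩, hyO⟩ := hzc (V ∩ interior P) (hV.inter isOpen_interior) ⟨h, hzi⟩
        have : y ∈ interior P ∩ (U ∩ V) := ⟨hyi, hyO.2, hyV⟩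
        rw [hdisj] at this
        exact this
    have hOJ : ∀ z ∈ O, z ∉ frontier P := by
      intro z hz hzf
      rw [hclosed.frontier_eq] at hzf
      exact hzf.2 hz.1
    -- a preconnected set missing the frontier and meeting O lies in O
    have hsec : ∀ C : Set ℂ, IsPreconnected C → Disjoint C (frontier P) → (C ∩ O).Nonempty →
        C ⊆ O := by
      intro C hC hCd hCO
      refine hC.subset_of_closure_inter_subset hOopen hCO ?_
      rintro z ⟨hz1, hz2⟩
      by_contra hzO
      have : z ∈ frontier O := by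
        rw [hOopen.frontier_eq]; exact ⟨hz1, hzO⟩
      exact disjoint_left.mp hCd hz2 (hfr this)
    -- local statement
    have hloc : ∀ x ∈ frontier P, ∀ (r : ℝ) (C1 C2 : Set ℂ), IsPreconnected C1 →
        IsPreconnected C2 → 0 < r → ball x r \ frontier P = C1 ∪ C2 →
        (∀ y ∈ frontier P ∩ ball x r, y ∈ closure C1 ∧ y ∈ closure C2) →
        ∀ y ∈ frontier P ∩ ball x r, y ∈ closure O → (C1 ⊆ O ∨ C2 ⊆ O) := by
      intro x hx r C1 C2 h1 h2 hr hball hcl y hy hyO
      rw [_root_.mem_closure_iff] at hyO
      obtain ⟨z, hzb, hzO⟩ := hyO (ball x r) isOpen_ball hy.2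
      have hz : z ∈ C1 ∪ C2 := by
        rw [← hball]; exact ⟨hzb, hOJ z hzO⟩
      have hd : Disjoint (C1 ∪ C2) (frontier P) := by
        rw [← hball]; exact disjoint_sdiff_left
      rw [disjoint_union_left] at hd
      rcases hz with hz | hz
      · exact Or.inl (hsec C1 h1 hd.1 ⟨z, hz, hzO⟩)
      · exact Or.inr (hsec C2 h2 hd.2 ⟨z, hz, hzO⟩)
    -- all points of J are in the closure of O
    have hall : ∀ x ∈ frontier P, x ∈ closure O := by
      -- starting point
      have hfne : (frontier O).Nonempty := by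
        rw [nonempty_frontier_iff]
        refine ⟨hOne, fun huniv => ?_⟩
        have : (univ : Set ℂ) ⊆ P := by
          rw [← huniv]; exact inter_subset_left.trans interior_subset
        have hb : Bornology.IsBounded (univ : Set ℂ) := hcomp.isBounded.subset this
        exact (NormedSpace.unbounded_univ ℝ ℂ) hb
      obtain ⟨x0, hx0⟩ := hfne
      have hx0J : x0 ∈ frontier P := hfr hx0
      intro x hx
      have hstep : ∀ x ∈ frontier P, ∀ᶠ y in 𝓝[frontier P] x,
          (x ∈ closure O → y ∈ closure O) ∧ (y ∈ closure O → x ∈ closure O) := by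
        intro x hx
        obtain ⟨u, w, r, hr, hu, hw, huw, hE⟩ := pc_local hJ hx
        obtain ⟨C1, C2, h1, h2, h3, h4⟩ := pc_sectors x u w r hr hu hw huw
        have hball : ball x r \ frontier P = C1 ∪ C2 := by
          rw [← h3]
          ext z
          have := Set.ext_iff.mp hE z
          simp only [mem_inter_iff, Set.mem_sdiff] at *
          tauto
        have hcl : ∀ y ∈ frontier P ∩ ball x r, y ∈ closure C1 ∧ y ∈ closure C2 := by
          rw [hE]; exact h4
        have hxx : x ∈ frontier P ∩ ball x r := ⟨hx, mem_ball_self hr⟩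
        filter_upwards [inter_mem_nhdsWithin (frontier P) (ball_mem_nhds x hr)] with y hy
        constructor
        · intro hxO
          rcases hloc x hx r C1 C2 h1 h2 hr hball hcl x hxx hxO with h | h
          · exact closure_mono h (hcl y hy).1
          · exact closure_mono h (hcl y hy).2
        · intro hyO
          rcases hloc x hx r C1 C2 h1 h2 hr hball hcl y hy hyO with h | h
          · exact closure_mono h (hcl x hxx).1
          · exact closure_mono h (hcl x hxx).2
      have := (pc_conn hJ).induction₂' (fun x y => (x ∈ closure O → y ∈ closure O)) hstep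
        (fun x y z _ _ _ hxy hyz hx => hyz (hxy hx)) hx0J hx
      exact this (frontier_subset_closure hx0)
    intro x hx r C1 C2 h1 h2 hr hball hcl
    exact hloc x hx r C1 C2 h1 h2 hr hball hcl x ⟨hx, mem_ball_self hr⟩ (hall x hx)
  -- a point of the frontier
  have hfP : (frontier P).Nonempty := by
    rw [nonempty_frontier_iff]
    refine ⟨hne.mono interior_subset, fun huniv => ?_⟩
    have hb := hcomp.isBounded
    rw [huniv] at hb
    exact (NormedSpace.unbounded_univ ℝ ℂ) hb
  obtain ⟨x, hx⟩ := hfP
  obtain ⟨u, w, r, hr, hu, hw, huw, hE⟩ := pc_local hJ hx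
  obtain ⟨C1, C2, h1, h2, h3, h4⟩ := pc_sectors x u w r hr hu hw huw
  have hball : ball x r \ frontier P = C1 ∪ C2 := by
    rw [← h3]
    ext z
    have := Set.ext_iff.mp hE z
    simp only [mem_inter_iff, Set.mem_sdiff] at *
    tauto
  have hcl : ∀ y ∈ frontier P ∩ ball x r, y ∈ closure C1 ∧ y ∈ closure C2 := by
    rw [hE]; exact h4
  have hxx : x ∈ frontier P ∩ ball x r := ⟨hx, mem_ball_self hr⟩
  have k1 := key U V hU hV hUV hdisj hnV x hx r C1 C2 h1 h2 hr hball hcl
  have k2 := key V U hV hU (by rw [union_comm]; exact hUV) (by rw [inter_comm V U]; exact hdisj)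
    hnU x hx r C1 C2 h1 h2 hr hball hcl
  have hC1ne : C1.Nonempty := by
    by_contra h
    rw [not_nonempty_iff_eq_empty] at h
    have := (hcl x hxx).1
    rw [h, closure_empty] at this
    exact this
  have hC2ne : C2.Nonempty := by
    by_contra h
    rw [not_nonempty_iff_eq_empty] at h
    have := (hcl x hxx).2
    rw [h, closure_empty] at this
    exact this
  have hboth : C1 ⊆ interior P ∧ C2 ⊆ interior P := by
    have hno : ∀ C : Set ℂ, C.Nonempty → C ⊆ interior P ∩ U → C ⊆ interior P ∩ V → False := by
      rintro C ⟨c, hc⟩ ha hb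
      have : c ∈ interior P ∩ (U ∩ V) := ⟨(ha hc).1, (ha hc).2, (hb hc).2⟩
      rw [hdisj] at this
      exact this
    rcases k1 with a | a <;> rcases k2 with b | b
    · exact (hno C1 hC1ne a b).elim
    · exact ⟨a.trans inter_subset_left, b.trans inter_subset_left⟩
    · exact ⟨b.trans inter_subset_left, a.trans inter_subset_left⟩
    · exact (hno C2 hC2ne a b).elim
  have hxi : x ∈ interior P := by
    rw [mem_interior_iff_mem_nhds]
    refine Filter.mem_of_superset (ball_mem_nhds x hr) ?_
    intro z hz
    by_cases hzf : z ∈ frontier P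
    · exact hclosed.frontier_subset hzf
    · have : z ∈ C1 ∪ C2 := by rw [← hball]; exact ⟨hz, hzf⟩
      rcases this with h | h
      · exact interior_subset (hboth.1 h)
      · exact interior_subset (hboth.2 h)
  rw [hclosed.frontier_eq] at hx
  exact hx.2 hxi

end Pool.Agent.H86.AP
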