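import Pool.Agent.H86.AP.Defs

/-!
# `p4m` and `p6m` are wallpaper groups
-/

namespace Pool.Agent.H86.AP

open Set

namespace Wall

/-- the lattice spanned by `1` and `ω` -/
def lat (ω : ℂ) : Set ℂ := {z | ∃ m n : ℤ, z = m + n * ω}

theorem lat_zero (ω : ℂ) : (0 : ℂ) ∈ lat ω := ⟨0, 0, by simp⟩
theorem lat_one (ω : ℂ) : (1 : ℂ) ∈ lat ω := ⟨1, 0, by simp⟩
theorem lat_omega (ω : ℂ) : ω ∈ lat ω := ⟨0, 1, by simp⟩

theorem lat_add {ω z w : ℂ} (hz : z ∈ lat ω) (hw : w ∈ lat ω) : z + w ∈ lat ω := by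
  obtain ⟨m, n, rfl⟩ := hz
  obtain ⟨m', n', rfl⟩ := hw
  exact ⟨m + m', n + n', by push_cast; ring⟩

theorem lat_neg {ω z : ℂ} (hz : z ∈ lat ω) : -z ∈ lat ω := by
  obtain ⟨m, n, rfl⟩ := hz
  exact ⟨-m, -n, by push_cast; ring⟩

theorem lat_ball_finite (ω : ℂ) (h0 : 0 < ω.im) (R : ℝ) : (lat ω ∩ {z | ‖z‖ ≤ R}).Finite := by
  set N : ℕ := ⌈R / ω.im⌉₊ with hN
  set M : ℕ := ⌈R + N * |ω.re|⌉₊ with hM
  have hfin : ((fun p : ℤ × ℤ => (p.1 : ℂ) + p.2 * ω) ''
      (Icc (-(M : ℤ)) M ×ˢ Icc (-(N : ℤ)) N)).Finite :=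
    ((finite_Icc _ _).prod (finite_Icc _ _)).image _
  apply hfin.subset
  rintro z ⟨⟨m, n, rfl⟩, hz⟩
  simp only [mem_ofPred_eq] at hz
  have hre : |((m : ℂ) + n * ω).re| ≤ R := (Complex.abs_re_le_norm _).trans hz
  have him : |((m : ℂ) + n * ω).im| ≤ R := (Complex.abs_im_le_norm _).trans hz
  have e1 : ((m : ℂ) + n * ω).re = m + n * ω.re := by simp
  have e2 : ((m : ℂ) + n * ω).im = n * ω.im := by simp
  rw [e1] at hre
  rw [e2, abs_mul, abs_of_pos h0] at him
  have hn : |(n : ℝ)| ≤ N := by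
    have : |(n : ℝ)| ≤ R / ω.im := by rw [le_div_iff₀ h0]; exact him
    exact this.trans (Nat.le_ceil _)
  have hm : |(m : ℝ)| ≤ M := by
    have h1 : |(m : ℝ)| ≤ |(m : ℝ) + n * ω.re| + |(n : ℝ) * ω.re| := by
      have := abs_sub (m + n * ω.re : ℝ) (n * ω.re)
      rwa [add_sub_cancel_right] at this
    have h2 : |(n : ℝ) * ω.re| ≤ N * |ω.re| := by
      rw [abs_mul]; gcongr
    exact (h1.trans (by linarith)).trans (Nat.le_ceil _)
  refine ⟨(m, n), ⟨?_, ?_⟩, rfl⟩
  · have := abs_le.1 hm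
    exact ⟨by exact_mod_cast this.1, by exact_mod_cast this.2⟩
  · have := abs_le.1 hn
    exact ⟨by exact_mod_cast this.1, by exact_mod_cast this.2⟩

theorem normSq_eq {z w : ℂ} (h : ‖z‖ = ‖w‖) : z.re ^ 2 + z.im ^ 2 = w.re ^ 2 + w.im ^ 2 := by
  have h1 : Complex.normSq z = Complex.normSq w := by
    rw [Complex.normSq_eq_norm_sq, Complex.normSq_eq_norm_sq, h]
  rw [Complex.normSq_apply, Complex.normSq_apply] at h1
  nlinarith

/-- a point is determined by its distances to `0, 1, ω` -/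
theorem eq_of_dist {ω z w : ℂ} (h0 : 0 < ω.im) (a : ‖z‖ = ‖w‖) (b : ‖z - 1‖ = ‖w - 1‖)
    (c : ‖z - ω‖ = ‖w - ω‖) : z = w := by
  have a' := normSq_eq a
  have b' := normSq_eq b
  have c' := normSq_eq c
  simp only [Complex.sub_re, Complex.sub_im, Complex.one_re, Complex.one_im] at b' c'
  have e1 : z.re = w.re := by nlinarith
  have e2 : z.im = w.im := by
    have : ω.im * (z.im - w.im) = 0 := by
      rw [e1] at a' c'
      nlinarith
    rcases mul_eq_zero.1 this with h | h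
    · exact absurd h h0.ne'
    · linarith
  exact Complex.ext e1 e2

/-- an isometry fixing `0`, `1`, `ω` is the identity -/
theorem isom_ext {ω : ℂ} (h0 : 0 < ω.im) {g h : ℂ ≃ᵢ ℂ} (a : g 0 = h 0) (b : g 1 = h 1)
    (c : g ω = h ω) : g = h := by
  have hk : ∀ z, h.symm (g z) = z := by
    intro z
    have k : ∀ x y : ℂ, ‖h.symm (g x) - h.symm (g y)‖ = ‖x - y‖ := by
      intro x y
      rw [← dist_eq_norm, ← dist_eq_norm, h.symm.dist_eq, g.dist_eq]
    have f0 : h.symm (g 0) = 0 := by rw [a, h.symm_apply_apply]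
    have f1 : h.symm (g 1) = 1 := by rw [b, h.symm_apply_apply]
    have f2 : h.symm (g ω) = ω := by rw [c, h.symm_apply_apply]
    apply eq_of_dist h0
    · have := k z 0
      rwa [f0, sub_zero, sub_zero] at this
    · have := k z 1
      rwa [f1] at this
    · have := k z ω
      rwa [f2] at this
  ext z
  have := hk z
  rw [← this, h.apply_symm_apply, this]

theorem mem_lat_of_stab {ω : ℂ} {g : ℂ ≃ᵢ ℂ} (hg : g ∈ stab (lat ω)) {z : ℂ}
    (hz : z ∈ lat ω) : g z ∈ lat ω := by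
  have : g '' lat ω = lat ω := hg
  rw [← this]
  exact mem_image_of_mem g hz

theorem translation_mem {ω l : ℂ} (hl : l ∈ lat ω) :
    IsometryEquiv.addRight l ∈ stab (lat ω) := by
  change IsometryEquiv.addRight l '' lat ω = lat ω
  ext z
  constructor
  · rintro ⟨w, hw, rfl⟩
    exact lat_add hw hl
  · intro hz
    exact ⟨z + -l, lat_add hz (lat_neg hl), by simp⟩

theorem isWallpaper (ω : ℂ) (h0 : 0 < ω.im) (h1 : ω.im ≤ 1) : IsWallpaper (stab (lat ω)) := by
  constructor
  · intro p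
    set R : ℝ := 2 * ‖p‖ + 1 + 1 + ‖ω‖ with hR
    set S : Set (ℂ ≃ᵢ ℂ) := {g | g ∈ stab (lat ω) ∧ ‖p - g p‖ < 1} with hS
    have hF := lat_ball_finite ω h0 R
    set F := lat ω ∩ {z | ‖z‖ ≤ R} with hFdef
    have hSfin : S.Finite := by
      apply Set.Finite.of_finite_image (f := fun g : ℂ ≃ᵢ ℂ => (g 0, g 1, g ω))
      · apply (hF.prod (hF.prod hF)).subset
        rintro _ ⟨g, ⟨hg, hgp⟩, rfl⟩
        have b0 : ∀ z : ℂ, ‖g z‖ ≤ 2 * ‖p‖ + 1 + ‖z‖ := by
          intro z
          have e1 : ‖g z - g p‖ = ‖z - p‖ := by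
            rw [← dist_eq_norm, ← dist_eq_norm, g.dist_eq]
          have e2 : g z = (g z - g p) + (-(p - g p)) + p := by ring
          calc ‖g z‖ = ‖(g z - g p) + (-(p - g p)) + p‖ := by rw [← e2]
            _ ≤ ‖g z - g p‖ + ‖-(p - g p)‖ + ‖p‖ := norm_add₃_le
            _ ≤ (‖z‖ + ‖p‖) + 1 + ‖p‖ := by
                rw [norm_neg, e1]
                have := norm_sub_le z p
                linarith
            _ = _ := by ring
        refine ⟨⟨mem_lat_of_stab hg (lat_zero ω), ?_⟩, ⟨mem_lat_of_stab hg (lat_one ω), ?_⟩,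
          ⟨mem_lat_of_stab hg (lat_omega ω), ?_⟩⟩
        · have := b0 0
          rw [norm_zero] at this
          simp only [mem_ofPred_eq]
          have := norm_nonneg ω
          linarith
        · have := b0 1
          rw [norm_one] at this
          simp only [mem_ofPred_eq]
          have := norm_nonneg ω
          linarith
        · have := b0 ω
          simp only [mem_ofPred_eq]
          linarith
      · intro g _ h _ hgh
        simp only [Prod.mk.injEq] at hgh
        exact isom_ext h0 hgh.1 hgh.2.1 hgh.2.2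
    -- the nontrivial images of `p` nearby
    have hfin : ((fun g : ℂ ≃ᵢ ℂ => g p) '' S \ {p}).Finite := (hSfin.image _).sdiff
    have hopen : IsOpen ((fun g : ℂ ≃ᵢ ℂ => g p) '' S \ {p})ᶜ := hfin.isClosed.isOpen_compl
    obtain ⟨ε, hε, hball⟩ := Metric.isOpen_iff.1 hopen p (by simp)
    refine ⟨min ε 1, lt_min hε one_pos, ?_⟩
    intro g hg hgp
    by_contra hcon
    push Not at hcon
    have h2 : ‖p - g p‖ < 1 := hcon.trans_le (min_le_right _ _)
    have h3 : g p ∈ Metric.ball p ε := by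
      rw [Metric.mem_ball, dist_comm, dist_eq_norm]
      exact hcon.trans_le (min_le_left _ _)
    exact hball h3 ⟨⟨g, ⟨hg, h2⟩, rfl⟩, hgp⟩
  · refine ⟨Metric.closedBall 0 2, Metric.isBounded_closedBall, ?_⟩
    intro z
    set n : ℤ := round (z.im / ω.im) with hn
    set m : ℤ := round ((z - n * ω).re) with hm
    set l : ℂ := m + n * ω with hl
    have hlm : l ∈ lat ω := ⟨m, n, rfl⟩
    refine ⟨IsometryEquiv.addRight l, translation_mem hlm, z - l, ?_, by simp⟩
    have e1 : |(z - l).re| ≤ 1 / 2 := by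
      have : (z - l).re = (z - n * ω).re - m := by
        rw [hl]; simp; ring
      rw [this, hm]
      exact abs_sub_round _
    have e2 : |(z - l).im| ≤ 1 / 2 := by
      have h3 : (z - l).im = ω.im * (z.im / ω.im - n) := by
        rw [hl]; simp; field_simp
      rw [h3, abs_mul, abs_of_pos h0]
      have h4 : |z.im / ω.im - n| ≤ 1 / 2 := by rw [hn]; exact abs_sub_round _
      have h5 := abs_nonneg (z.im / ω.im - n)
      nlinarith
    rw [Metric.mem_closedBall, dist_zero_right]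
    have := Complex.norm_le_abs_re_add_abs_im (z - l)
    linarith

end Wall

theorem p4m_isWallpaper : IsWallpaper p4m := by
  have := Wall.isWallpaper Complex.I (by simp) (by simp)
  exact this

theorem p6m_isWallpaper : IsWallpaper p6m := by
  have e : ((1 + Real.sqrt 3 * Complex.I) / 2 : ℂ).im = Real.sqrt 3 / 2 := by
    simp
  have h3 : Real.sqrt 3 ≤ 2 := by
    rw [Real.sqrt_le_iff]; norm_num
  have := Wall.isWallpaper ((1 + Real.sqrt 3 * Complex.I) / 2) (by rw [e]; positivity)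
    (by rw [e]; linarith)
  exact this

end Pool.Agent.H86.AP
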