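import Pool.Agent.H86.AP.TileDiss
import Pool.Agent.H86.AP.PolyConn
import Pool.Agent.H86.AP.Wall

/-!
No polygon admits monohedral tilings of both types `p4m` and `p6m`.
-/

namespace Pool.Agent.H86.AP

open Set Filter Topology ComplexConjugate MeasureTheory

/-- the line through two points -/
def lineThru (x y : ℂ) : ℝ × ℝ × ℝ :=
  (y.im - x.im, x.re - y.re, (y.im - x.im) * x.re + (x.re - y.re) * x.im)

theorem lineThru_ndg {x y : ℂ} (h : x ≠ y) : ndg (lineThru x y) := by
  by_contra hcon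
  unfold ndg lineThru at hcon
  push Not at hcon
  apply h
  apply Complex.ext
  · linarith [hcon.2]
  · linarith [hcon.1]

theorem lineThru_mem {x y z : ℂ} (hz : z ∈ segment ℝ x y) : hh (lineThru x y) z = 0 := by
  obtain ⟨a, b, _, _, hab, rfl⟩ := hz
  have ha : a = 1 - b := by linarith
  subst ha
  simp only [hh, lineThru, Complex.add_re, Complex.add_im, Complex.real_smul, Complex.mul_re,
    Complex.mul_im, Complex.ofReal_re, Complex.ofReal_im]
  ring

theorem polySet_of_polygon {P : Set ℂ} (hP : IsPolygon P) : PolySet P := by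
  classical
  obtain ⟨_, _, n, v, hn, hinj, _, hJ⟩ := hP
  haveI : NeZero n := ⟨by omega⟩
  refine ⟨Finset.univ.image fun i : ZMod n => lineThru (v i) (v (i + 1)), ?_, ?_⟩
  · intro q hq
    rw [Finset.mem_image] at hq
    obtain ⟨i, _, rfl⟩ := hq
    apply lineThru_ndg
    intro h
    have h1 : i = i + 1 := hinj h
    have h2 : (1 : ZMod n) = 0 := by linear_combination -h1
    haveI : Fact (1 < n) := ⟨by omega⟩
    exact one_ne_zero h2
  · intro z hz
    rw [hJ, Set.mem_iUnion] at hz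
    obtain ⟨i, hi⟩ := hz
    exact ⟨_, Finset.mem_image_of_mem _ (Finset.mem_univ i), lineThru_mem hi⟩

theorem tile_of_polygon {P : Set ℂ} (hP : IsPolygon P) : Tile P :=
  ⟨hP.1, hP.2.1, polySet_of_polygon hP⟩

theorem IsMonohedral.img {P : Set ℂ} {T : Set (Set ℂ)} (hT : IsMonohedral P T) (κ : ℂ ≃ᵢ ℂ) :
    IsMonohedral P (imgFam κ T) := by
  obtain ⟨⟨h1, h2, h3, h4⟩, h5⟩ := hT
  refine ⟨⟨h1.image _, ?_, ?_, ?_⟩, ?_⟩
  · rintro _ ⟨t, ht, rfl⟩
    exact κ.toHomeomorph.isClosedMap _ (h2 t ht)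
  · ext z
    simp only [Set.mem_sUnion, Set.mem_univ, iff_true]
    have : κ.symm z ∈ ⋃₀ T := by rw [h3]; trivial
    obtain ⟨t, ht, hz⟩ := this
    exact ⟨κ '' t, ⟨t, ht, rfl⟩, κ.symm z, hz, by simp⟩
  · rintro _ ⟨s, hs, rfl⟩ _ ⟨t, ht, rfl⟩ hne
    have hne' : s ≠ t := by rintro rfl; exact hne rfl
    have := h4 s hs t ht hne'
    simp only
    rw [interior_image, interior_image]
    exact (Set.disjoint_image_iff κ.injective).2 this
  · rintro _ ⟨t, ht, rfl⟩
    obtain ⟨φ, rfl⟩ := h5 t ht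
    exact ⟨κ * φ, by rw [mul_image]⟩

theorem not_both {P : Set ℂ} (hP : IsPolygon P) {T4 T6 : Set (Set ℂ)} (h4 : IsMonohedral P T4)
    (h6 : IsMonohedral P T6) (e4 : Nonempty (symGroup T4 ≃* p4m))
    (e6 : Nonempty (symGroup T6 ≃* p6m)) : False := by
  have hPt := tile_of_polygon hP
  have hconn := hP.interior_isPreconnected
  obtain ⟨b, hb⟩ := hPt.exists_base
  obtain ⟨κ, s, hs, m1, m2, m3⟩ := exists_triangle4 e4
  obtain ⟨κ', u, hu, l1, l2, l3⟩ := exists_triangle6 e6
  have h3 : 0 < Real.sqrt 3 := Real.sqrt_pos.2 (by norm_num)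
  have hu3 := mul_pos h3 hu
  obtain ⟨N4, d4⟩ := diss_of_mirrors hPt hconn hb (h4.img κ) (Or.inl one_ne_zero) m1 m2 m3
    (Tri_bdd hs hs) (by
      intro z
      simp only [Tri, Set.mem_ofPred_eq]
      constructor
      · rintro ⟨k1, k2, k3⟩
        refine ⟨k1, k2, ?_⟩
        have : s * (z.re + z.im) < s * s := by linarith
        have := lt_of_mul_lt_mul_left this hs.le
        linarith
      · rintro ⟨k1, k2, k3⟩
        refine ⟨k1, k2, ?_⟩
        have : s * (z.re + z.im) < s * s := mul_lt_mul_of_pos_left (by linarith) hs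
        linarith)
  obtain ⟨N6, d6⟩ := diss_of_mirrors hPt hconn hb (h6.img κ') (Or.inl one_ne_zero) l1 l2 l3
    (Tri_bdd hu3 hu) (by
      intro z
      simp only [Tri, Set.mem_ofPred_eq]
      constructor
      · rintro ⟨k1, k2, k3⟩
        refine ⟨k1, k2, ?_⟩
        have : u * (z.re + Real.sqrt 3 * z.im) < u * (Real.sqrt 3 * u) := by linarith
        have := lt_of_mul_lt_mul_left this hu.le
        linarith
      · rintro ⟨k1, k2, k3⟩
        refine ⟨k1, k2, ?_⟩
        have : u * (z.re + Real.sqrt 3 * z.im) < u * (Real.sqrt 3 * u) :=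
          mul_lt_mul_of_pos_left (by linarith) hu
        linarith)
  obtain ⟨R, hR⟩ := (isBounded_iff_forall_norm_le).1 hPt.compact.isBounded
  exact no_common_tile' (hPt.polySet_piece hb) (hPt.isOpen_piece b)
    (fun z hz => hR z (interior_subset hz.1)) hs hu d4 d6

end Pool.Agent.H86.AP
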