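import Mathlib

/-!
Germs of planar sets along a ray, on one side of the ray.
-/

namespace Pool.Agent.H86.AP

open Set Filter Topology

/-- the affine function `a x + b y - c` -/
def hh (q : ℝ × ℝ × ℝ) (z : ℂ) : ℝ := q.1 * z.re + q.2.1 * z.im - q.2.2

/-- its linear part -/
def aa (q : ℝ × ℝ × ℝ) (z : ℂ) : ℝ := q.1 * z.re + q.2.1 * z.im

/-- non degenerate -/
def ndg (q : ℝ × ℝ × ℝ) : Prop := q.1 ≠ 0 ∨ q.2.1 ≠ 0

/-- the frontier of `S` is covered by the lines in `F` -/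
def Cov (F : Finset (ℝ × ℝ × ℝ)) (S : Set ℂ) : Prop :=
  (∀ q ∈ F, ndg q) ∧ ∀ z ∈ frontier S, ∃ q ∈ F, hh q z = 0

def PolySet (S : Set ℂ) : Prop := ∃ F : Finset (ℝ × ℝ × ℝ), Cov F S

/-- germ filter: points `p + y τ + δ ν` with `0 < δ ≪ y ≪ 1` -/
def sec (p τ ν : ℂ) : Filter ℂ :=
  (𝓝[>] (0 : ℝ)).bind fun y => (𝓝[>] (0 : ℝ)).map fun δ : ℝ => p + y * τ + δ * ν

/-- lexicographic positivity -/
def LP (q : ℝ × ℝ × ℝ) (p τ ν : ℂ) : Prop :=
  0 < hh q p ∨ (hh q p = 0 ∧ (0 < aa q τ ∨ (aa q τ = 0 ∧ 0 < aa q ν)))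

/-- `τ, ν` is a basis of the plane -/
def bs (τ ν : ℂ) : Prop := τ.re * ν.im - τ.im * ν.re ≠ 0

theorem hh_add (q : ℝ × ℝ × ℝ) (p v : ℂ) : hh q (p + v) = hh q p + aa q v := by
  simp only [hh, aa, Complex.add_re, Complex.add_im]; ring

theorem aa_add (q : ℝ × ℝ × ℝ) (p v : ℂ) : aa q (p + v) = aa q p + aa q v := by
  simp only [aa, Complex.add_re, Complex.add_im]; ring

theorem aa_mul (q : ℝ × ℝ × ℝ) (y : ℝ) (v : ℂ) : aa q (y * v) = y * aa q v := by
  simp only [aa, Complex.mul_re, Complex.mul_im, Complex.ofReal_re, Complex.ofReal_im]; ring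

theorem aa_neg (q : ℝ × ℝ × ℝ) (v : ℂ) : aa q (-v) = - aa q v := by
  simp only [aa, Complex.neg_re, Complex.neg_im]; ring

theorem hh_expand (q : ℝ × ℝ × ℝ) (p τ ν : ℂ) (y δ : ℝ) :
    hh q (p + y * τ + δ * ν) = hh q p + y * aa q τ + δ * aa q ν := by
  rw [hh_add, hh_add, aa_mul, aa_mul]

theorem eventually_sec {p τ ν : ℂ} {Q : ℂ → Prop} :
    (∀ᶠ z in sec p τ ν, Q z) ↔
      ∀ᶠ y in 𝓝[>] (0 : ℝ), ∀ᶠ δ in 𝓝[>] (0 : ℝ), Q (p + (y : ℝ) * τ + (δ : ℝ) * ν) := by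
  unfold sec
  rw [Filter.eventually_bind]
  simp only [Filter.eventually_map]

instance sec_neBot (p τ ν : ℂ) : (sec p τ ν).NeBot := by
  constructor
  intro h
  have h1 : ∀ᶠ z in sec p τ ν, False := by rw [h]; exact Filter.eventually_bot
  rw [eventually_sec] at h1
  obtain ⟨y, hy⟩ := h1.exists
  obtain ⟨δ, hδ⟩ := hy.exists
  exact hδ

theorem sec_le_nhds (p τ ν : ℂ) : sec p τ ν ≤ 𝓝 p := by
  intro U hU
  rw [Metric.mem_nhds_iff] at hU
  obtain ⟨ε, hε, hb⟩ := hU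
  change ∀ᶠ z in sec p τ ν, z ∈ U
  rw [eventually_sec]
  have e1 : ∀ᶠ y in 𝓝[>] (0 : ℝ), ‖((y : ℝ) : ℂ) * τ‖ < ε / 2 := by
    have : Tendsto (fun y : ℝ => ‖((y : ℝ) : ℂ) * τ‖) (𝓝[>] 0) (𝓝 0) := by
      have hc : Continuous fun y : ℝ => ‖((y : ℝ) : ℂ) * τ‖ := by fun_prop
      have := hc.tendsto 0
      simp only [Complex.ofReal_zero, zero_mul, norm_zero] at this
      exact this.mono_left nhdsWithin_le_nhds
    exact this.eventually_lt_const (by positivity)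
  have e2 : ∀ᶠ y in 𝓝[>] (0 : ℝ), ‖((y : ℝ) : ℂ) * ν‖ < ε / 2 := by
    have : Tendsto (fun y : ℝ => ‖((y : ℝ) : ℂ) * ν‖) (𝓝[>] 0) (𝓝 0) := by
      have hc : Continuous fun y : ℝ => ‖((y : ℝ) : ℂ) * ν‖ := by fun_prop
      have := hc.tendsto 0
      simp only [Complex.ofReal_zero, zero_mul, norm_zero] at this
      exact this.mono_left nhdsWithin_le_nhds
    exact this.eventually_lt_const (by positivity)
  filter_upwards [e1] with y hy
  filter_upwards [e2] with δ hδ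
  apply hb
  rw [Metric.mem_ball, dist_eq_norm]
  calc ‖p + (y : ℂ) * τ + (δ : ℂ) * ν - p‖ = ‖(y : ℂ) * τ + (δ : ℂ) * ν‖ := by
        congr 1; ring
    _ ≤ ‖(y : ℂ) * τ‖ + ‖(δ : ℂ) * ν‖ := norm_add_le _ _
    _ < ε := by linarith

theorem continuous_hh (q : ℝ × ℝ × ℝ) : Continuous (hh q) := by
  unfold hh
  fun_prop

theorem continuous_aa (q : ℝ × ℝ × ℝ) : Continuous (aa q) := by
  unfold aa
  fun_prop

theorem sec_pos {q : ℝ × ℝ × ℝ} {p τ ν : ℂ} (h : LP q p τ ν) :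
    ∀ᶠ z in sec p τ ν, 0 < hh q z := by
  rcases h with h | ⟨h0, h | ⟨h1, h2⟩⟩
  · exact sec_le_nhds p τ ν ((continuous_hh q).continuousAt.eventually (lt_mem_nhds h))
  · rw [eventually_sec]
    filter_upwards [self_mem_nhdsWithin] with y hy
    have hy' : (0 : ℝ) < y := hy
    have : Tendsto (fun δ : ℝ => y * aa q τ + δ * aa q ν) (𝓝[>] 0) (𝓝 (y * aa q τ)) := by
      have hc : Continuous fun δ : ℝ => y * aa q τ + δ * aa q ν := by fun_prop
      have := hc.tendsto 0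
      simp only [zero_mul, add_zero] at this
      exact this.mono_left nhdsWithin_le_nhds
    filter_upwards [this.eventually_const_lt (mul_pos hy' h)] with δ hδ
    rw [hh_expand, h0]
    linarith
  · rw [eventually_sec]
    filter_upwards with y
    filter_upwards [self_mem_nhdsWithin] with δ hδ
    have hδ' : (0 : ℝ) < δ := hδ
    rw [hh_expand, h0, h1]
    have := mul_pos hδ' h2
    linarith

/-- opposite functional -/
def qneg (q : ℝ × ℝ × ℝ) : ℝ × ℝ × ℝ := (-q.1, -q.2.1, -q.2.2)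

theorem hh_qneg (q : ℝ × ℝ × ℝ) (z : ℂ) : hh (qneg q) z = - hh q z := by
  simp only [hh, qneg]; ring

theorem aa_qneg (q : ℝ × ℝ × ℝ) (z : ℂ) : aa (qneg q) z = - aa q z := by
  simp only [aa, qneg]; ring

theorem LP_qneg {q : ℝ × ℝ × ℝ} {p τ ν : ℂ} (hq : ndg q) (hb : bs τ ν) (h : ¬ LP q p τ ν) :
    LP (qneg q) p τ ν := by
  unfold LP at *
  rw [hh_qneg, aa_qneg, aa_qneg]
  push Not at h
  obtain ⟨h1, h2⟩ := h
  rcases lt_or_eq_of_le h1 with h3 | h3
  · left; linarith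
  · right
    refine ⟨by linarith, ?_⟩
    obtain ⟨h4, h5⟩ := h2 h3
    rcases lt_or_eq_of_le h4 with h6 | h6
    · left; linarith
    · right
      refine ⟨by linarith, ?_⟩
      rcases lt_or_eq_of_le (h5 h6) with h7 | h7
      · linarith
      · exfalso
        unfold aa at h6 h7
        unfold bs at hb
        have e1 : q.1 * (τ.re * ν.im - τ.im * ν.re) = 0 := by linear_combination ν.im * h6 - τ.im * h7
        have e2 : q.2.1 * (τ.re * ν.im - τ.im * ν.re) = 0 := by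
          linear_combination τ.re * h7 - ν.re * h6
        rcases hq with hq | hq
        · exact (mul_ne_zero hq hb) e1
        · exact (mul_ne_zero hq hb) e2

theorem sec_neg {q : ℝ × ℝ × ℝ} {p τ ν : ℂ} (hq : ndg q) (hb : bs τ ν) (h : ¬ LP q p τ ν) :
    ∀ᶠ z in sec p τ ν, hh q z < 0 := by
  filter_upwards [sec_pos (LP_qneg hq hb h)] with z hz
  rw [hh_qneg] at hz
  linarith

theorem sec_ne {q : ℝ × ℝ × ℝ} {p τ ν : ℂ} (hq : ndg q) (hb : bs τ ν) :
    ∀ᶠ z in sec p τ ν, hh q z ≠ 0 := by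
  by_cases h : LP q p τ ν
  · filter_upwards [sec_pos h] with z hz using ne_of_gt hz
  · filter_upwards [sec_neg hq hb h] with z hz using ne_of_lt hz

/-- the open convex cell of an arrangement with a given sign pattern -/
def cell (F : Finset (ℝ × ℝ × ℝ)) (σ : ℝ × ℝ × ℝ → Prop) : Set ℂ :=
  {z | ∀ q ∈ F, (σ q → 0 < hh q z) ∧ (¬ σ q → hh q z < 0)}

theorem convex_cell (F : Finset (ℝ × ℝ × ℝ)) (σ : ℝ × ℝ × ℝ → Prop) : Convex ℝ (cell F σ) := by
  intro x hx y hy a b ha hb hab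
  intro q hq
  have e : hh q (a • x + b • y) = a * hh q x + b * hh q y := by
    simp only [hh, Complex.add_re, Complex.add_im, Complex.real_smul, Complex.mul_re,
      Complex.mul_im, Complex.ofReal_re, Complex.ofReal_im]
    linear_combination (-q.2.2) * (1 - hab)
  obtain ⟨h1, h2⟩ := hx q hq
  obtain ⟨h3, h4⟩ := hy q hq
  rw [e]
  constructor
  · intro hs
    have k1 := h1 hs
    have k2 := h3 hs
    rcases eq_or_lt_of_le ha with ha' | ha'
    · have : b = 1 := by linarith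
      rw [← ha', this]; linarith
    · have := mul_pos ha' k1
      have := mul_nonneg hb k2.le
      linarith
  · intro hs
    have k1 := h2 hs
    have k2 := h4 hs
    rcases eq_or_lt_of_le ha with ha' | ha'
    · have : b = 1 := by linarith
      rw [← ha', this]; linarith
    · have := mul_neg_of_pos_of_neg ha' k1
      have := mul_nonpos_of_nonneg_of_nonpos hb k2.le
      linarith

theorem cell_mem_sec {F : Finset (ℝ × ℝ × ℝ)} (hF : ∀ q ∈ F, ndg q) {p τ ν : ℂ} (hb : bs τ ν) :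
    ∀ᶠ z in sec p τ ν, z ∈ cell F (fun q => LP q p τ ν) := by
  have : ∀ q ∈ F, ∀ᶠ z in sec p τ ν,
      (LP q p τ ν → 0 < hh q z) ∧ (¬ LP q p τ ν → hh q z < 0) := by
    intro q hq
    by_cases h : LP q p τ ν
    · filter_upwards [sec_pos h] with z hz using ⟨fun _ => hz, fun h' => absurd h h'⟩
    · filter_upwards [sec_neg (hF q hq) hb h] with z hz using ⟨fun h' => absurd h' h, fun _ => hz⟩
  have h2 := (Filter.eventually_all_finset F).2 this
  exact h2

theorem subset_of_disjoint_frontier {C S : Set ℂ} (hpre : IsPreconnected C)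
    (hdis : ∀ z ∈ C, z ∉ frontier S) (hA : (C ∩ S).Nonempty) : ∀ z ∈ C, z ∈ S := by
  have hsub : C ⊆ interior S ∪ (closure S)ᶜ := by
    intro z hz
    by_cases h1 : z ∈ closure S
    · left
      by_contra h2
      exact hdis z hz ⟨h1, h2⟩
    · right; exact h1
  have hd : Disjoint (interior S) (closure S)ᶜ := by
    rw [Set.disjoint_left]
    intro z hz hz2
    exact hz2 (subset_closure (interior_subset hz))
  have hn : (C ∩ interior S).Nonempty := by
    obtain ⟨z, hz, hzS⟩ := hA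
    refine ⟨z, hz, ?_⟩
    by_contra h2
    exact hdis z hz ⟨subset_closure hzS, h2⟩
  have := hpre.subset_left_of_subset_union isOpen_interior isClosed_closure.isOpen_compl hd hsub hn
  intro z hz
  exact interior_subset (this hz)

/-- The germ of `S` is determined by the sign pattern. -/
theorem germ_congr {F : Finset (ℝ × ℝ × ℝ)} {S : Set ℂ} (hS : Cov F S)
    {p τ ν p' τ' ν' : ℂ} (hb : bs τ ν) (hb' : bs τ' ν')
    (h : ∀ q ∈ F, (LP q p τ ν ↔ LP q p' τ' ν')) :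
    ((∀ᶠ z in sec p τ ν, z ∈ S) ↔ (∀ᶠ z in sec p' τ' ν', z ∈ S)) ∧
    ((∀ᶠ z in sec p τ ν, z ∈ S) ∨ (∀ᶠ z in sec p τ ν, z ∉ S)) := by
  set C := cell F (fun q => LP q p τ ν) with hC
  have hC' : C = cell F (fun q => LP q p' τ' ν') := by
    ext z
    simp only [hC, cell, Set.mem_ofPred_eq]
    constructor
    · intro hz q hq
      rw [← h q hq]; exact hz q hq
    · intro hz q hq
      rw [h q hq]; exact hz q hq
  have m1 : ∀ᶠ z in sec p τ ν, z ∈ C := cell_mem_sec hS.1 hb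
  have m2 : ∀ᶠ z in sec p' τ' ν', z ∈ C := by rw [hC']; exact cell_mem_sec hS.1 hb'
  have hdis : ∀ z ∈ C, z ∉ frontier S := by
    intro z hz hf
    obtain ⟨q, hq, h0⟩ := hS.2 z hf
    obtain ⟨h1, h2⟩ := hz q hq
    by_cases hl : LP q p τ ν
    · have := h1 hl; linarith
    · have := h2 hl; linarith
  have hpre : IsPreconnected C := (convex_cell F _).isPreconnected
  by_cases hA : (C ∩ S).Nonempty
  · have hsub : ∀ z ∈ C, z ∈ S := subset_of_disjoint_frontier hpre hdis hA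
    have k1 : ∀ᶠ z in sec p τ ν, z ∈ S := m1.mono hsub
    have k2 : ∀ᶠ z in sec p' τ' ν', z ∈ S := m2.mono hsub
    exact ⟨⟨fun _ => k2, fun _ => k1⟩, Or.inl k1⟩
  · have hsub : ∀ z ∈ C, z ∉ S := fun z hz hzS => hA ⟨z, hz, hzS⟩
    have k1 : ∀ᶠ z in sec p τ ν, z ∉ S := m1.mono hsub
    have k2 : ∀ᶠ z in sec p' τ' ν', z ∉ S := m2.mono hsub
    refine ⟨⟨fun h1 => ?_, fun h1 => ?_⟩, Or.inr k1⟩
    · obtain ⟨z, hz⟩ := (h1.and k1).exists
      exact absurd hz.1 hz.2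
    · obtain ⟨z, hz⟩ := (h1.and k2).exists
      exact absurd hz.1 hz.2

theorem germ_or {F : Finset (ℝ × ℝ × ℝ)} {S : Set ℂ} (hS : Cov F S)
    {p τ ν : ℂ} (hb : bs τ ν) :
    (∀ᶠ z in sec p τ ν, z ∈ S) ∨ (∀ᶠ z in sec p τ ν, z ∉ S) :=
  (germ_congr hS hb hb (fun _ _ => Iff.rfl)).2

open Classical in
/-- germ value -/
noncomputable def qv (S : Set ℂ) (p τ ν : ℂ) : ℤ := if ∀ᶠ z in sec p τ ν, z ∈ S then 1 else 0

theorem qv_congr {F : Finset (ℝ × ℝ × ℝ)} {S : Set ℂ} (hS : Cov F S)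
    {p τ ν p' τ' ν' : ℂ} (hb : bs τ ν) (hb' : bs τ' ν')
    (h : ∀ q ∈ F, (LP q p τ ν ↔ LP q p' τ' ν')) : qv S p τ ν = qv S p' τ' ν' := by
  unfold qv
  have := (germ_congr hS hb hb' h).1
  by_cases h1 : ∀ᶠ z in sec p τ ν, z ∈ S
  · rw [if_pos h1, if_pos (this.1 h1)]
  · rw [if_neg h1, if_neg (fun h2 => h1 (this.2 h2))]

/-- jump across the ray from `p` in direction `τ` (left minus right) -/
noncomputable def jj (S : Set ℂ) (p τ : ℂ) : ℤ :=
  qv S p τ (Complex.I * τ) - qv S p τ (-(Complex.I * τ))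

/-- vertex number -/
noncomputable def NN (S : Set ℂ) (p τ : ℂ) : ℤ := jj S p τ + jj S p (-τ)

theorem bs_I {τ : ℂ} (h : τ ≠ 0) : bs τ (Complex.I * τ) := by
  unfold bs
  simp only [Complex.mul_re, Complex.mul_im, Complex.I_re, Complex.I_im]
  have : τ.re ^ 2 + τ.im ^ 2 ≠ 0 := by
    intro h0
    apply h
    have h1 : τ.re = 0 := by nlinarith [sq_nonneg τ.re, sq_nonneg τ.im]
    have h2 : τ.im = 0 := by nlinarith [sq_nonneg τ.re, sq_nonneg τ.im]
    exact Complex.ext h1 h2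
  intro h1
  apply this
  linarith

theorem bs_negI {τ : ℂ} (h : τ ≠ 0) : bs τ (-(Complex.I * τ)) := by
  have := bs_I h
  unfold bs at *
  simp only [Complex.neg_re, Complex.neg_im]
  intro h1
  apply this
  linarith

theorem bs_neg_left {τ ν : ℂ} (h : bs τ ν) : bs (-τ) ν := by
  unfold bs at *
  simp only [Complex.neg_re, Complex.neg_im]
  intro h1
  apply h
  linarith

/-- if no line of the arrangement passes through `p` in direction `τ` then there is no jump -/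
theorem jj_eq_zero {F : Finset (ℝ × ℝ × ℝ)} {S : Set ℂ} (hS : Cov F S) {p τ : ℂ} (hτ : τ ≠ 0)
    (h : ∀ q ∈ F, hh q p = 0 → aa q τ ≠ 0) : jj S p τ = 0 := by
  unfold jj
  rw [sub_eq_zero]
  apply qv_congr hS (bs_I hτ) (bs_negI hτ)
  intro q hq
  unfold LP
  have := h q hq
  constructor
  · rintro (h1 | ⟨h1, h2 | ⟨h2, h3⟩⟩)
    · exact Or.inl h1
    · exact Or.inr ⟨h1, Or.inl h2⟩
    · exact absurd h2 (this h1)
  · rintro (h1 | ⟨h1, h2 | ⟨h2, h3⟩⟩)
    · exact Or.inl h1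
    · exact Or.inr ⟨h1, Or.inl h2⟩
    · exact absurd h2 (this h1)

theorem NN_eq_zero_of_no_line {F : Finset (ℝ × ℝ × ℝ)} {S : Set ℂ} (hS : Cov F S) {p τ : ℂ}
    (hτ : τ ≠ 0) (h : ∀ q ∈ F, hh q p = 0 → aa q τ ≠ 0) : NN S p τ = 0 := by
  unfold NN
  rw [jj_eq_zero hS hτ h, jj_eq_zero hS (neg_ne_zero.2 hτ), add_zero]
  intro q hq h0
  rw [aa_neg]
  exact neg_ne_zero.2 (h q hq h0)

theorem LP_flip {q : ℝ × ℝ × ℝ} {p τ ν : ℂ} (h : hh q p = 0 → aa q τ = 0) :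
    LP q p τ ν ↔ LP q p (-τ) ν := by
  unfold LP
  rw [aa_neg q τ]
  constructor
  · rintro (h1 | ⟨h1, h2 | ⟨h2, h3⟩⟩)
    · exact Or.inl h1
    · rw [h h1] at h2; exact absurd h2 (lt_irrefl _)
    · exact Or.inr ⟨h1, Or.inr ⟨by linarith, h3⟩⟩
  · rintro (h1 | ⟨h1, h2 | ⟨h2, h3⟩⟩)
    · exact Or.inl h1
    · rw [h h1] at h2; simp at h2
    · exact Or.inr ⟨h1, Or.inr ⟨by linarith, h3⟩⟩

theorem NN_eq_zero_of_only_line {F : Finset (ℝ × ℝ × ℝ)} {S : Set ℂ} (hS : Cov F S) {p τ : ℂ}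
    (hτ : τ ≠ 0) (h : ∀ q ∈ F, hh q p = 0 → aa q τ = 0) : NN S p τ = 0 := by
  unfold NN jj
  have e1 : qv S p τ (Complex.I * τ) = qv S p (-τ) (-(Complex.I * (-τ))) := by
    have : -(Complex.I * (-τ)) = Complex.I * τ := by ring
    rw [this]
    exact qv_congr hS (bs_I hτ) (bs_neg_left (bs_I hτ)) (fun q hq => LP_flip (h q hq))
  have e2 : qv S p τ (-(Complex.I * τ)) = qv S p (-τ) (Complex.I * (-τ)) := by
    have : Complex.I * (-τ) = -(Complex.I * τ) := by ring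
    rw [this]
    exact qv_congr hS (bs_negI hτ) (bs_neg_left (bs_negI hτ)) (fun q hq => LP_flip (h q hq))
  rw [e1, e2]
  ring

end Pool.Agent.H86.AP
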