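import Pool.Agent.H86.AP.EngD
import Pool.Agent.H35.CF.Ins

/-!
# H86-AP-INSP: the insertion lemma of AP
-/

set_option autoImplicit false
set_option linter.dupNamespace false

open scoped NumberField ComplexConjugate
open IsDedekindDomain
open scoped Classical

noncomputable section

namespace H86.AP

open H63.MA H38.ML H38.BB H38.BG H57.PC H57.BRA H77.PC3 H77.WD Pool.Agent.H19.NF
  Pool.Agent.H19.AB H35.CF

variable {K : Type} [Field K] [NumberField K] {p N : ℕ} {ζ : K}

private theorem nm_one (v : Pl K) : 1 ≤ (nm v : ℝ) := by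
  have h : 0 < nm v := Nat.pos_of_ne_zero (Ideal.absNorm_ne_zero_of_nonZeroDivisors
    ⟨v.asIdeal, mem_nonZeroDivisors_of_ne_zero v.ne_bot⟩)
  exact_mod_cast h

private theorem nr_nonneg (n : Finset (Pl K)) : 0 ≤ nr n :=
  Finset.prod_nonneg fun v _ => le_trans zero_le_one (nm_one v)

private theorem sp_up (Z : Finset (Pl K)) (f : Pl K → Option (Fin N)) {u : Pl K} (hu : u ∈ Z)
    (j : Fin N) : sp Z (Function.update f u (some j)) = insert u (sp Z f) := by
  ext v
  rw [mem_sp, Finset.mem_insert, mem_sp]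
  by_cases h : v = u
  · subst h
    simp [hu]
  · rw [Function.update_of_ne h]
    simp [h]

private theorem pl_up_ne (Z : Finset (Pl K)) (f : Pl K → Option (Fin N)) {u : Pl K}
    (hf : f u = none) {i j : Fin N} (hij : i ≠ j) :
    pl Z (Function.update f u (some j)) i = pl Z f i := by
  ext v
  rw [mem_pl, mem_pl]
  by_cases h : v = u
  · subst h
    rw [Function.update_self, hf]
    simp [Ne.symm hij]
  · rw [Function.update_of_ne h]

private theorem pl_up (Z : Finset (Pl K)) (f : Pl K → Option (Fin N)) {u : Pl K} (hu : u ∈ Z)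
    (j : Fin N) : pl Z (Function.update f u (some j)) j = insert u (pl Z f j) := by
  ext v
  rw [mem_pl, Finset.mem_insert, mem_pl]
  by_cases h : v = u
  · subst h
    simp [hu]
  · rw [Function.update_of_ne h]
    simp [h]

theorem ins_p [NeZero N] (D : RD0 K p ζ) {P : Type} [Group P] (c : CL p N P) (j₀ : Fin N) (M : ℕ)
    (hM : 1 ≤ M) (T₀ Y : ℝ) (E : Finset (Pl K)) (e : Pl K → P) :
    ∃ wt : (Pl K → Option (Fin N)) → ℝ, (∀ f, 0 ≤ wt f ∧ wt f ≤ 1) ∧
      ∀ X : Finset (Pl K) → (Pl K → P) → ℂ, SS c X D E e M T₀ Y =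
        ∑ f ∈ RX D j₀ T₀ Y E, (wt f : ℂ) * ∑ u ∈ UU D T₀ Y E (sp (ZZ D Y \ E) f),
          X (insert u (sp (ZZ D Y \ E) f ∪ E)) (Function.update (gl c E e f) u (c.g j₀)) := by
  set Z : Finset (Pl K) := ZZ D Y \ E with hZ
  set W : Pl K → Prop := fun v => T₀ < (nm v : ℝ) with hW
  let la : (Pl K → Option (Fin N)) → Fin N → ℕ := fun f j => ((pl Z f j).filter W).card
  let A : (Pl K → Option (Fin N)) → Prop := fun f => (∀ j, j ≠ j₀ → M ≤ la f j) ∧ M ≤ la f j₀ + 1
  let wt : (Pl K → Option (Fin N)) → ℝ := fun f => if A f then ((la f j₀ : ℝ) + 1)⁻¹ else 0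
  have hla : ∀ f : Pl K → Option (Fin N), 0 < (la f j₀ : ℝ) + 1 := fun f => by positivity
  refine ⟨wt, fun f => ?_, fun X => ?_⟩
  · change 0 ≤ (if A f then ((la f j₀ : ℝ) + 1)⁻¹ else 0) ∧
      (if A f then ((la f j₀ : ℝ) + 1)⁻¹ else 0) ≤ (1 : ℝ)
    split_ifs
    · refine ⟨by positivity, inv_le_one_of_one_le₀ ?_⟩
      have : (0 : ℝ) ≤ la f j₀ := Nat.cast_nonneg _
      linarith
    · exact ⟨le_refl _, zero_le_one⟩
  -- the condition of `RC`
  let R : (Pl K → Option (Fin N)) → Prop := fun f => Rich M T₀ Z f ∧ nr (sp Z f) ≤ Y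
  let G : (Pl K → Option (Fin N)) → ℂ := fun f => X (sp Z f ∪ E) (gl c E e f)
  have h1 : SS c X D E e M T₀ Y = ∑ f ∈ Cf Z (Fin N), if R f then G f else 0 := by
    unfold SS RC
    rw [Finset.sum_filter]
  have h2 : ∀ f : Pl K → Option (Fin N), (if R f then G f else 0) =
      ∑ u ∈ (pl Z f j₀).filter W, if R f then (la f j₀ : ℂ)⁻¹ * G f else 0 := by
    intro f
    by_cases hf : R f
    · rw [if_pos hf, Finset.sum_congr rfl fun u _ => if_pos hf, Finset.sum_const, nsmul_eq_mul]
      have h3 : 0 < la f j₀ := lt_of_lt_of_le (Nat.succ_le_iff.1 hM) (hf.1 j₀)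
      have h4 : ((la f j₀ : ℕ) : ℂ) ≠ 0 := Nat.cast_ne_zero.2 h3.ne'
      change G f = ((la f j₀ : ℕ) : ℂ) * ((la f j₀ : ℂ)⁻¹ * G f)
      rw [mul_inv_cancel_left₀ h4]
    · rw [if_neg hf, Finset.sum_congr rfl fun u _ => if_neg hf, Finset.sum_const_zero]
  rw [h1, Finset.sum_congr rfl fun f _ => h2 f,
    cf_ins Z W j₀ fun f _ => if R f then (la f j₀ : ℂ)⁻¹ * G f else 0]
  -- the terms
  have h5 : ∀ (f : Pl K → Option (Fin N)) (u : Pl K), u ∈ Z → W u → f u = none →
      (if R (Function.update f u (some j₀)) then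
        (la (Function.update f u (some j₀)) j₀ : ℂ)⁻¹ * G (Function.update f u (some j₀)) else 0) =
      if nr (sp Z f) * (nm u : ℝ) ≤ Y then (wt f : ℂ) *
        X (insert u (sp Z f ∪ E)) (Function.update (gl c E e f) u (c.g j₀)) else 0 := by
    intro f u hu hWu hfu
    have hus : u ∉ sp Z f := fun h => (mem_sp.1 h).2 hfu
    have huE : u ∉ E := (Finset.mem_sdiff.1 hu).2
    have e1 : nr (sp Z (Function.update f u (some j₀))) = nr (sp Z f) * (nm u : ℝ) := by
      rw [sp_up Z f hu, nr, nr, Finset.prod_insert hus, mul_comm]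
    have e2 : la (Function.update f u (some j₀)) j₀ = la f j₀ + 1 := by
      change ((pl Z (Function.update f u (some j₀)) j₀).filter W).card = _
      rw [pl_up Z f hu, Finset.filter_insert, if_pos hWu, Finset.card_insert_of_notMem]
      rw [Finset.mem_filter, mem_pl]
      rintro ⟨⟨-, h⟩, -⟩
      rw [hfu] at h
      exact absurd h (by simp)
    have e3 : ∀ j, j ≠ j₀ → la (Function.update f u (some j₀)) j = la f j := by
      intro j hj
      change ((pl Z (Function.update f u (some j₀)) j).filter W).card = _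
      rw [pl_up_ne Z f hfu hj]
    have e4 : Rich M T₀ Z (Function.update f u (some j₀)) ↔ A f := by
      constructor
      · intro h
        refine ⟨fun j hj => ?_, ?_⟩
        · rw [← e3 j hj]
          exact h j
        · rw [← e2]
          exact h j₀
      · rintro ⟨h3, h4⟩ j
        by_cases hj : j = j₀
        · rw [hj]
          change M ≤ la (Function.update f u (some j₀)) j₀
          rw [e2]
          exact h4
        · change M ≤ la (Function.update f u (some j₀)) j
          rw [e3 j hj]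
          exact h3 j hj
    have e5 : G (Function.update f u (some j₀)) =
        X (insert u (sp Z f ∪ E)) (Function.update (gl c E e f) u (c.g j₀)) := by
      change X (sp Z (Function.update f u (some j₀)) ∪ E) (gl c E e (Function.update f u (some j₀)))
        = _
      rw [sp_up Z f hu, Finset.insert_union]
      congr 1
      funext v
      by_cases hv : v = u
      · subst hv
        rw [Function.update_self]
        unfold gl cf
        rw [if_neg huE, Function.update_self]
        rfl
      · rw [Function.update_of_ne hv]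
        unfold gl cf
        rw [Function.update_of_ne hv]
    have e6 : R (Function.update f u (some j₀)) ↔ A f ∧ nr (sp Z f) * (nm u : ℝ) ≤ Y := by
      change (Rich M T₀ Z (Function.update f u (some j₀)) ∧
        nr (sp Z (Function.update f u (some j₀))) ≤ Y) ↔ _
      rw [e4, e1]
    by_cases hA : A f
    · by_cases hn : nr (sp Z f) * (nm u : ℝ) ≤ Y
      · rw [if_pos (e6.2 ⟨hA, hn⟩), if_pos hn, e5, e2]
        have e7 : wt f = ((la f j₀ : ℝ) + 1)⁻¹ := if_pos hA
        rw [e7]
        push_cast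
        rfl
      · rw [if_neg hn, if_neg fun h => hn (e6.1 h).2]
    · have e7 : wt f = 0 := if_neg hA
      rw [if_neg fun h => hA (e6.1 h).1, e7]
      simp
  have h6 : ∀ f : Pl K → Option (Fin N),
      (∑ u ∈ Z.filter (fun v => W v ∧ f v = none),
        if R (Function.update f u (some j₀)) then
          (la (Function.update f u (some j₀)) j₀ : ℂ)⁻¹ * G (Function.update f u (some j₀)) else 0) =
      (wt f : ℂ) * ∑ u ∈ UU D T₀ Y E (sp Z f),
        X (insert u (sp Z f ∪ E)) (Function.update (gl c E e f) u (c.g j₀)) := by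
    intro f
    rw [Finset.sum_congr rfl fun u hu => h5 f u (Finset.mem_filter.1 hu).1
      (Finset.mem_filter.1 hu).2.1 (Finset.mem_filter.1 hu).2.2, Finset.mul_sum,
      ← Finset.sum_filter]
    refine Finset.sum_congr ?_ fun _ _ => rfl
    ext u
    unfold UU
    rw [Finset.mem_filter, Finset.mem_filter, Finset.mem_filter, mem_sp, ← hZ]
    constructor
    · rintro ⟨⟨h3, h4, h5⟩, h6⟩
      exact ⟨h3, fun h => h.2 h5, h4, h6⟩
    · rintro ⟨h3, h4, h5, h6⟩
      refine ⟨⟨h3, h5, ?_⟩, h6⟩
      by_contra h7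
      exact h4 ⟨h3, h7⟩
  rw [Finset.sum_congr rfl fun f _ => h6 f]
  symm
  refine Finset.sum_subset (Finset.filter_subset _ _) fun f hf hf2 => ?_
  by_cases hA : A f
  · have h7 : UU D T₀ Y E (sp Z f) = ∅ := by
      by_contra hne
      obtain ⟨u, hu⟩ := Finset.nonempty_iff_ne_empty.2 hne
      apply hf2
      unfold RX
      rw [Finset.mem_filter]
      refine ⟨hf, fun j hj => ?_, ?_⟩
      · have h8 : 0 < la f j := lt_of_lt_of_le (Nat.succ_le_iff.1 hM) (hA.1 j hj)
        obtain ⟨v, hv⟩ := Finset.card_pos.1 h8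
        exact ⟨v, (Finset.mem_filter.1 hv).1, (Finset.mem_filter.1 hv).2⟩
      · unfold UU at hu
        have h8 := (Finset.mem_filter.1 hu).2.2.2
        exact le_trans (le_mul_of_one_le_right (nr_nonneg _) (nm_one u)) h8
    rw [h7, Finset.sum_empty, mul_zero]
  · have e7 : wt f = 0 := if_neg hA
    rw [e7]
    simp

end H86.AP
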