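import Pool.Agent.H86.AP.End
import Pool.Agent.H86.AP.InsP
import Pool.Agent.H19.ST.Stf

/-!
# H86-AP-IND: the induction of AP

`Asy c D X κ`: the sum `SS` of `X` without `E` is `κ #RC + O(Y (log Y)^(-A))`. `Upp c D X B`: `‖SS‖ ≤ B #RC + Y (log Y)^(-A)`, uniformly in `E`.
`ap_ind`: every state has an asymptotic formula and an upper bound; for `φ₁ = 1` the constant is `≥ 0`, and `> 0` for `(0, 0)`.
-/

set_option autoImplicit false
set_option linter.dupNamespace false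

open scoped NumberField ComplexConjugate
open IsDedekindDomain Filter Topology
open scoped Classical

noncomputable section

namespace H86.AP

open H63.MA H38.ML H38.BB H38.BG H57.PC H57.BRA H57.GP H77.PC3 H77.WD Pool.Agent.H19.NF
  Pool.Agent.H19.AB H35.CF

section gen

variable {K : Type} [Field K] [NumberField K] {p N : ℕ} [NeZero N] {ζ : K} {P : Type} [Group P]

/-- the asymptotic formula -/
def Asy (c : CL p N P) (D : RD0 K p ζ) (X : Finset (Pl K) → (Pl K → P) → ℂ) (κ : ℂ) : Prop :=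
  ∀ (ε : ℝ) (A : ℕ), 0 < ε → ∃ Y₀ : ℝ, ∀ Y : ℝ, Y₀ ≤ Y → ∀ M : ℕ, 1 ≤ M →
    ‖SS c X D ∅ (fun _ => 1) M (Real.exp (Real.log Y ^ ε)) Y -
      κ * (RC D N M (Real.exp (Real.log Y ^ ε)) Y ∅).card‖ ≤ Y * Real.log Y ^ (-(A : ℝ))

/-- the uniform upper bound -/
def Upp (c : CL p N P) (D : RD0 K p ζ) (X : Finset (Pl K) → (Pl K → P) → ℂ) (B : ℝ) : Prop :=
  ∀ (ε : ℝ) (A A₁ : ℕ), 0 < ε → ∃ Y₀ : ℝ, ∀ Y : ℝ, Y₀ ≤ Y → ∀ M : ℕ, 1 ≤ M →
    ∀ (E : Finset (Pl K)) (e : Pl K → P), (∀ v ∈ E, v ∉ D.S0) → nr E ≤ Real.log Y ^ A₁ →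
    ‖SS c X D E e M (Real.exp (Real.log Y ^ ε)) Y‖ ≤
      B * (RC D N M (Real.exp (Real.log Y ^ ε)) Y ∅).card + Y * Real.log Y ^ (-(A : ℝ))

theorem sm_upp {c : CL p N P} {D : RD0 K p ζ} {j₀ : Fin N}
    {X : Finset (Pl K) → (Pl K → P) → ℂ} (h : Sm D c j₀ X) : Upp c D X 0 := by
  intro ε A A₁ hε
  obtain ⟨Y₀, hY⟩ := h ε A A₁ hε
  refine ⟨Y₀, fun Y hYY M hM E e hE hn => ?_⟩
  obtain ⟨wt, hwt, hi⟩ := ins_p D c j₀ M hM (Real.exp (Real.log Y ^ ε)) Y E e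
  rw [hi X, zero_mul, zero_add]
  exact hY Y hYY E e hE hn wt hwt

theorem sm_asy {c : CL p N P} {D : RD0 K p ζ} {j₀ : Fin N}
    {X : Finset (Pl K) → (Pl K → P) → ℂ} (h : Sm D c j₀ X) : Asy c D X 0 := by
  intro ε A hε
  obtain ⟨Y₀, hY⟩ := sm_upp h ε A 0 hε
  refine ⟨Y₀, fun Y hYY M hM => ?_⟩
  have h1 := hY Y hYY M hM ∅ (fun _ => 1) (fun v hv => absurd hv (Finset.notMem_empty v)) (by
    rw [nr, Finset.prod_empty, pow_zero])
  rw [zero_mul, zero_add] at h1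
  rw [zero_mul, sub_zero]
  exact h1

theorem ss_lin (c : CL p N P) (D : RD0 K p ζ) (X : Finset (Pl K) → (Pl K → P) → ℂ) {n : ℕ}
    (κ : Fin n → ℂ) (Xs : Fin n → Finset (Pl K) → (Pl K → P) → ℂ) (E : Finset (Pl K))
    (e : Pl K → P) (M : ℕ) (T₀ Y : ℝ) :
    SS c X D E e M T₀ Y = SS c (fun T γ => X T γ - ∑ i, κ i * Xs i T γ) D E e M T₀ Y +
      ∑ i, κ i * SS c (Xs i) D E e M T₀ Y := by
  unfold SS
  beta_reduce
  rw [Finset.sum_sub_distrib, Finset.sum_comm]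
  have h : ∀ i, ∑ f ∈ RC D N M T₀ Y E, κ i * Xs i (sp (ZZ D Y \ E) f ∪ E) (gl c E e f) =
      κ i * ∑ f ∈ RC D N M T₀ Y E, Xs i (sp (ZZ D Y \ E) f ∪ E) (gl c E e f) := fun i =>
    (Finset.mul_sum _ _ _).symm
  rw [Finset.sum_congr rfl fun i _ => h i, sub_add_cancel]

/-- a constant times `(log Y)^(-A-1)` is `≤ (log Y)^(-A)` -/
private theorem abs_c (C : ℝ) (A : ℕ) : ∃ Y₀ : ℝ, ∀ Y : ℝ, Y₀ ≤ Y →
    0 ≤ Y ∧ 0 < Real.log Y ∧
      C * (Y * Real.log Y ^ (-((A + 1 : ℕ) : ℝ))) ≤ Y * Real.log Y ^ (-(A : ℝ)) := by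
  have h1 : Tendsto Real.log atTop atTop := Real.tendsto_log_atTop
  have h2 := (h1.eventually_ge_atTop (max C 1)).and (eventually_ge_atTop (1 : ℝ))
  obtain ⟨Y₀, hY⟩ := eventually_atTop.1 h2
  refine ⟨Y₀, fun Y hYY => ?_⟩
  obtain ⟨h3, h4⟩ := hY Y hYY
  have h5 : C ≤ Real.log Y := le_trans (le_max_left _ _) h3
  have h6 : 0 < Real.log Y := lt_of_lt_of_le zero_lt_one (le_trans (le_max_right _ _) h3)
  refine ⟨by linarith, h6, ?_⟩
  have e1 : Real.log Y ^ (-(A : ℝ)) = Real.log Y * Real.log Y ^ (-((A + 1 : ℕ) : ℝ)) := by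
    have e2 : -(A : ℝ) = 1 + -((A + 1 : ℕ) : ℝ) := by
      push_cast
      ring
    rw [e2, Real.rpow_add h6, Real.rpow_one]
  have h7 : 0 < Real.log Y ^ (-((A + 1 : ℕ) : ℝ)) := Real.rpow_pos_of_pos h6 _
  have h8 : 0 ≤ Y := by linarith
  rw [e1]
  have h9 : C * (Y * Real.log Y ^ (-((A + 1 : ℕ) : ℝ))) ≤
      Real.log Y * (Y * Real.log Y ^ (-((A + 1 : ℕ) : ℝ))) :=
    mul_le_mul_of_nonneg_right h5 (mul_nonneg h8 h7.le)
  linarith [mul_left_comm (Real.log Y) Y (Real.log Y ^ (-((A + 1 : ℕ) : ℝ)))]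

theorem asy_lin {c : CL p N P} {D : RD0 K p ζ} {X : Finset (Pl K) → (Pl K → P) → ℂ} {n : ℕ}
    {κ : Fin n → ℂ} {Xs : Fin n → Finset (Pl K) → (Pl K → P) → ℂ} {κs : Fin n → ℂ}
    (h0 : Asy c D (fun T γ => X T γ - ∑ i, κ i * Xs i T γ) 0)
    (h1 : ∀ i, Asy c D (Xs i) (κs i)) : Asy c D X (∑ i, κ i * κs i) := by
  intro ε A hε
  obtain ⟨Y₁, hY₁⟩ := h0 ε (A + 1) hε
  choose Ys hYs using fun i => h1 i ε (A + 1) hε
  obtain ⟨Y₂, hY₂⟩ := abs_c (1 + ∑ i, ‖κ i‖) A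
  refine ⟨max Y₁ (max Y₂ (∑ i, |Ys i|)), fun Y hY M hM => ?_⟩
  have g1 : Y₁ ≤ Y := le_trans (le_max_left _ _) hY
  have g2 : Y₂ ≤ Y := le_trans (le_max_left _ _) (le_trans (le_max_right _ _) hY)
  have g3 : ∀ i, Ys i ≤ Y := fun i => le_trans (le_abs_self _) (le_trans
    (Finset.single_le_sum (f := fun i => |Ys i|) (fun j _ => abs_nonneg _) (Finset.mem_univ i))
    (le_trans (le_max_right _ _) (le_trans (le_max_right _ _) hY)))
  set T₀ := Real.exp (Real.log Y ^ ε) with hT₀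
  set w : ℝ := Y * Real.log Y ^ (-((A + 1 : ℕ) : ℝ)) with hw
  set R : ℂ := ((RC D N M T₀ Y ∅).card : ℂ) with hR
  have k0 : ‖SS c (fun T γ => X T γ - ∑ i, κ i * Xs i T γ) D ∅ (fun _ => 1) M T₀ Y‖ ≤ w := by
    have h := hY₁ Y g1 M hM
    rw [zero_mul, sub_zero] at h
    exact h
  have k1 : ∀ i, ‖SS c (Xs i) D ∅ (fun _ => 1) M T₀ Y - κs i * R‖ ≤ w := fun i =>
    hYs i Y (g3 i) M hM
  have e : SS c X D ∅ (fun _ => 1) M T₀ Y - (∑ i, κ i * κs i) * R =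
      SS c (fun T γ => X T γ - ∑ i, κ i * Xs i T γ) D ∅ (fun _ => 1) M T₀ Y +
        ∑ i, κ i * (SS c (Xs i) D ∅ (fun _ => 1) M T₀ Y - κs i * R) := by
    rw [ss_lin c D X κ Xs, add_sub_assoc, Finset.sum_mul, ← Finset.sum_sub_distrib]
    congr 1
    exact Finset.sum_congr rfl fun i _ => by ring
  rw [e]
  calc _ ≤ ‖SS c (fun T γ => X T γ - ∑ i, κ i * Xs i T γ) D ∅ (fun _ => 1) M T₀ Y‖ +
        ∑ i, ‖κ i * (SS c (Xs i) D ∅ (fun _ => 1) M T₀ Y - κs i * R)‖ :=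
        (norm_add_le _ _).trans (add_le_add le_rfl (norm_sum_le _ _))
    _ ≤ w + ∑ i, ‖κ i‖ * w := by
        refine add_le_add k0 (Finset.sum_le_sum fun i _ => ?_)
        rw [norm_mul]
        exact mul_le_mul_of_nonneg_left (k1 i) (norm_nonneg _)
    _ = (1 + ∑ i, ‖κ i‖) * w := by rw [← Finset.sum_mul]; ring
    _ ≤ Y * Real.log Y ^ (-(A : ℝ)) := (hY₂ Y g2).2.2

theorem upp_lin {c : CL p N P} {D : RD0 K p ζ} {X : Finset (Pl K) → (Pl K → P) → ℂ} {n : ℕ}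
    {κ : Fin n → ℂ} {Xs : Fin n → Finset (Pl K) → (Pl K → P) → ℂ} {Bs : Fin n → ℝ}
    (h0 : Upp c D (fun T γ => X T γ - ∑ i, κ i * Xs i T γ) 0)
    (h1 : ∀ i, Upp c D (Xs i) (Bs i)) : Upp c D X (∑ i, ‖κ i‖ * Bs i) := by
  intro ε A A₁ hε
  obtain ⟨Y₁, hY₁⟩ := h0 ε (A + 1) A₁ hε
  choose Ys hYs using fun i => h1 i ε (A + 1) A₁ hε
  obtain ⟨Y₂, hY₂⟩ := abs_c (1 + ∑ i, ‖κ i‖) A
  refine ⟨max Y₁ (max Y₂ (∑ i, |Ys i|)), fun Y hY M hM E e hE hn => ?_⟩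
  have g1 : Y₁ ≤ Y := le_trans (le_max_left _ _) hY
  have g2 : Y₂ ≤ Y := le_trans (le_max_left _ _) (le_trans (le_max_right _ _) hY)
  have g3 : ∀ i, Ys i ≤ Y := fun i => le_trans (le_abs_self _) (le_trans
    (Finset.single_le_sum (f := fun i => |Ys i|) (fun j _ => abs_nonneg _) (Finset.mem_univ i))
    (le_trans (le_max_right _ _) (le_trans (le_max_right _ _) hY)))
  set T₀ := Real.exp (Real.log Y ^ ε) with hT₀
  set w : ℝ := Y * Real.log Y ^ (-((A + 1 : ℕ) : ℝ)) with hw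
  set R : ℝ := ((RC D N M T₀ Y ∅).card : ℝ) with hR
  have k0 : ‖SS c (fun T γ => X T γ - ∑ i, κ i * Xs i T γ) D E e M T₀ Y‖ ≤ w := by
    have h := hY₁ Y g1 M hM E e hE hn
    rw [zero_mul, zero_add] at h
    exact h
  have k1 : ∀ i, ‖SS c (Xs i) D E e M T₀ Y‖ ≤ Bs i * R + w := fun i =>
    hYs i Y (g3 i) M hM E e hE hn
  rw [ss_lin c D X κ Xs]
  calc _ ≤ ‖SS c (fun T γ => X T γ - ∑ i, κ i * Xs i T γ) D E e M T₀ Y‖ +
        ∑ i, ‖κ i * SS c (Xs i) D E e M T₀ Y‖ :=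
        (norm_add_le _ _).trans (add_le_add le_rfl (norm_sum_le _ _))
    _ ≤ w + ∑ i, ‖κ i‖ * (Bs i * R + w) := by
        refine add_le_add k0 (Finset.sum_le_sum fun i _ => ?_)
        rw [norm_mul]
        exact mul_le_mul_of_nonneg_left (k1 i) (norm_nonneg _)
    _ = (∑ i, ‖κ i‖ * Bs i) * R + (1 + ∑ i, ‖κ i‖) * w := by
        have e1 : ∑ i, ‖κ i‖ * (Bs i * R + w) = (∑ i, ‖κ i‖ * Bs i) * R + (∑ i, ‖κ i‖) * w := by
          rw [Finset.sum_mul, Finset.sum_mul, ← Finset.sum_add_distrib]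
          exact Finset.sum_congr rfl fun i _ => by ring
        rw [e1]
        ring
    _ ≤ (∑ i, ‖κ i‖ * Bs i) * R + Y * Real.log Y ^ (-(A : ℝ)) :=
        add_le_add le_rfl (hY₂ Y g2).2.2

end gen

section main

variable {p m N : ℕ} [NeZero N] {K : IntermediateField ℚ QBar} [NumberField K] {ζ : K}

/-- the induction -/
theorem ap_ind [NeZero (p ^ m)] (hp : p.Prime) (hp2 : p ≠ 2) (hζ : IsPrimitiveRoot ζ p) {z : K}
    (hz : IsPrimitiveRoot z (p ^ (m + 1))) (hzζ : z ^ (p ^ m) = ζ) (D : RD K p ζ)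
    (L : LDs D.toRD0 QBar) (Q : DP K QBar) (Fr : FR L) {lam : Pl K → ZMod p}
    (hlam : IsRec p ζ lam) (hone : ∀ v, D.Gd v → lam v = 1)
    (I : (Gal(QBar/K) → Gal(QBar/K) → Gal(QBar/K) → ZMod (p ^ m)) →+ AddCircle (1 : ℝ))
    (hI : ∀ Ψ : Gal(QBar/K) → Gal(QBar/K) → ZMod (p ^ m), LfT L Ψ → Rel D.toRD0 Q Ψ →
      I (d2 Ψ) = ZMod.toAddCircle (TS L Fr lam Ψ))
    {P : Type} [Group P] [Fintype P] (hP : ∀ x : P, x ^ p = 1) (c : CL p N P)
    (hc : ∀ x : P, x ≠ 1 → ∃ j, IsConj x (c.g j)) (φ₁ : Gal(QBar/K) →* P) (h₁ : H38.ML.FT φ₁)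
    (n : ℕ) : ∀ (G : Type) [Group G] [Fintype G] (q : P →* G), Function.Surjective q →
      Nat.card G = n → ∀ (k : ℕ), Nat.card G * p ^ k ≤ p ^ m →
      ∀ (b : P → P → ZMod (p ^ m)) (w : G → G → G → ZMod (p ^ m)), Sta p m k q b w →
      ∃ κ : ℂ, Asy c D.toRD0 (BB L Q Fr lam I φ₁ q b w) κ ∧
        (∃ B, 0 ≤ B ∧ Upp c D.toRD0 (BB L Q Fr lam I φ₁ q b w) B) ∧
        (φ₁ = 1 → ∃ r : ℝ, κ = r ∧ 0 ≤ r ∧ (b = 0 → w = 0 → 0 < r)) := by
  induction n using Nat.strong_induction_on with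
  | _ n ih =>
    intro G _ _ q hq hn k hk b w hbw
    rcases subsingleton_or_nontrivial G with hs | hnt
    · obtain ⟨r, hr0, hr1, hr2, hr3⟩ := base hp hζ D L Q Fr hone I hP c φ₁ q b w hbw
      refine ⟨r, fun ε A hε => ?_, ⟨1, zero_le_one, fun ε A A₁ hε => ?_⟩, fun _ =>
        ⟨r, rfl, hr0, fun hb _ => ?_⟩⟩
      · obtain ⟨Y₀, hY⟩ := abs_c 0 A
        refine ⟨Y₀, fun Y hYY M hM => ?_⟩
        rw [(hr3 M _ Y hM).1, sub_self, norm_zero]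
        obtain ⟨h1, h2, -⟩ := hY Y hYY
        exact mul_nonneg h1 (Real.rpow_nonneg h2.le _)
      · obtain ⟨Y₀, hY⟩ := abs_c 0 A
        refine ⟨Y₀, fun Y hYY M hM E e hE hn' => ?_⟩
        obtain ⟨h1, h2, -⟩ := hY Y hYY
        have h3 := (hr3 M (Real.exp (Real.log Y ^ ε)) Y hM).2 E e
        have h4 : ((RC D.toRD0 N M (Real.exp (Real.log Y ^ ε)) Y E).card : ℝ) ≤
            (RC D.toRD0 N M (Real.exp (Real.log Y ^ ε)) Y ∅).card := by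
          exact_mod_cast rc_sub D.toRD0 M _ Y E
        rw [one_mul]
        have h5 : 0 ≤ Y * Real.log Y ^ (-(A : ℝ)) := mul_nonneg h1 (Real.rpow_nonneg h2.le _)
        linarith
      · rw [hr2 hb]
        exact zero_lt_one
    · have hpk : p ^ (k + 1) ≤ p ^ m := by
        refine le_trans ?_ hk
        rw [pow_succ, mul_comm]
        refine Nat.mul_le_mul_right _ ?_
        obtain ⟨g, hg⟩ := exists_ne (1 : G)
        have h1 : g ^ p = 1 := by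
          obtain ⟨x, rfl⟩ := hq g
          rw [← map_pow, hP, map_one]
        haveI : Fact p.Prime := ⟨hp⟩
        have h2 : orderOf g = p := orderOf_eq_prime h1 hg
        rw [← h2]
        exact Nat.le_of_dvd Nat.card_pos (orderOf_dvd_natCard g)
      have hk1 : k + 1 ≤ m := (Nat.pow_le_pow_iff_right hp.one_lt).1 hpk
      obtain ⟨G', _, _, π, j₀, hπ, hcard, hcase⟩ := step_pf hp hp2 hζ hz hzζ D L Q Fr hlam hone I hI
        hP c hc φ₁ h₁ q hq hk1 b w hbw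
      rcases hcase with ⟨hne, hng⟩ | ⟨n', κ, bs, ws, hst, hpos, hzero, hmn⟩
      · obtain ⟨C, hC, hb⟩ := bb_bd hp hζ D.toRD0 L Q Fr lam I hP φ₁ q hq b w
        have hsm := eng2 hp hp2 hζ D.toRD0 L Fr c j₀ _ hng hC hb
        refine ⟨0, sm_asy hsm, ⟨0, le_refl _, sm_upp hsm⟩, fun _ => ⟨0, by simp, le_refl _,
          fun h1 h2 => absurd ⟨h1, h2⟩ hne⟩⟩
      · have hsm := eng1 hp hp2 hζ D.toRD0 L Fr c j₀ _ hmn
        have hlt : Nat.card G' < n := by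
          rw [← hn, hcard]
          exact lt_mul_of_one_lt_left Nat.card_pos hp.one_lt
        have hk' : Nat.card G' * p ^ (k + 1) ≤ p ^ m := by
          rw [pow_succ, mul_comm (p ^ k) p, ← mul_assoc, mul_comm (Nat.card G') p, ← hcard]
          exact hk
        have hind := fun i => ih (Nat.card G') hlt G' (π.comp q) (hπ.comp hq) rfl (k + 1) hk'
          (bs i) (ws i) (hst i)
        choose κs h1 h2 h3 using hind
        choose Bs hB0 hB using h2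
        refine ⟨_, asy_lin (sm_asy hsm) h1, ⟨_, ?_, upp_lin (sm_upp hsm) hB⟩, fun hφ => ?_⟩
        · exact Finset.sum_nonneg fun i _ => mul_nonneg (norm_nonneg _) (hB0 i)
        · choose rs hr hr0 hr1 using fun i => h3 i hφ
          choose rk hrk hrk1 using fun i => hpos hφ i
          refine ⟨∑ i, rk i * rs i, ?_, ?_, fun hb hw => ?_⟩
          · push_cast
            exact Finset.sum_congr rfl fun i _ => by rw [hr i, hrk1 i]
          · exact Finset.sum_nonneg fun i _ => mul_nonneg (hrk i).le (hr0 i)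
          · obtain ⟨i, hi1, hi2⟩ := hzero hb hw
            exact Finset.sum_pos' (fun i _ => mul_nonneg (hrk i).le (hr0 i))
              ⟨i, Finset.mem_univ i, mul_pos (hrk i) (hr1 i hi1 hi2)⟩

end main

end H86.AP
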