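import Pool.Agent.H86.AP.Psi

/-!
The additive functional `Phi`: additivity and behaviour under isometries.
-/

namespace Pool.Agent.H86.AP

open Set Filter Topology

/-- the functional -/
noncomputable def Phi (S : Set ℂ) (g : ℝ →ₗ[ℚ] ℝ) : ℂ :=
  ∑ᶠ x : ℂ × Circle, (NN S x.1 x.2 : ℂ) *
    ((x.2 : ℂ) ^ 3 * ((g ((x.1 * (starRingEnd ℂ) (x.2 : ℂ)).re) : ℝ) : ℂ))

theorem Phi_support {S : Set ℂ} (hS : PolySet S) (H : ℂ × Circle → ℂ) :
    (Function.support fun x : ℂ × Circle => (NN S x.1 x.2 : ℂ) * H x).Finite := by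
  apply (NN_support_finite hS).subset
  intro x hx
  simp only [Function.mem_support] at hx
  simp only [Set.mem_ofPred_eq]
  intro h0
  apply hx
  rw [h0]; simp

theorem qv_additive {ι : Type*} {J : Finset ι} {Sf : ι → Set ℂ} {S₀ : Set ℂ}
    (hS : ∀ i ∈ J, PolySet (Sf i)) (h0 : PolySet S₀) {E : Finset (ℝ × ℝ × ℝ)}
    (hE : ∀ q ∈ E, ndg q) 
    (h1 : ∀ z, (∀ q ∈ E, hh q z ≠ 0) → z ∈ S₀ → ∃! i, i ∈ J ∧ z ∈ Sf i)
    (h2 : ∀ i ∈ J, Sf i ⊆ S₀)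
    {p τ ν : ℂ} (hb : bs τ ν) : ∑ i ∈ J, qv (Sf i) p τ ν = qv S₀ p τ ν := by
  classical
  have e1 : ∀ᶠ z in sec p τ ν, ∀ q ∈ E, hh q z ≠ 0 := by
    rw [Filter.eventually_all_finset]
    intro q hq
    exact sec_ne (hE q hq) hb
  have e2 : ∀ᶠ z in sec p τ ν, ∀ i ∈ J, (qv (Sf i) p τ ν = if z ∈ Sf i then 1 else 0) := by
    rw [Filter.eventually_all_finset]
    intro i hi
    obtain ⟨F, hF⟩ := hS i hi
    unfold qv
    rcases germ_or hF (p := p) hb with h | h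
    · rw [if_pos h]
      filter_upwards [h] with z hz
      rw [if_pos hz]
    · rw [if_neg]
      · filter_upwards [h] with z hz
        rw [if_neg hz]
      · intro h'
        obtain ⟨z, hz1, hz2⟩ := (h.and h').exists
        exact hz1 hz2
  have e3 : ∀ᶠ z in sec p τ ν, (qv S₀ p τ ν = if z ∈ S₀ then 1 else 0) := by
    obtain ⟨F, hF⟩ := h0
    unfold qv
    rcases germ_or hF (p := p) hb with h | h
    · rw [if_pos h]
      filter_upwards [h] with z hz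
      rw [if_pos hz]
    · rw [if_neg]
      · filter_upwards [h] with z hz
        rw [if_neg hz]
      · intro h'
        obtain ⟨z, hz1, hz2⟩ := (h.and h').exists
        exact hz1 hz2
  obtain ⟨z, hz1, hz2, hz3⟩ := (e1.and (e2.and e3)).exists
  rw [hz3, Finset.sum_congr rfl hz2]
  by_cases hz : z ∈ S₀
  · rw [if_pos hz]
    obtain ⟨i, ⟨hi1, hi2⟩, hi3⟩ := h1 z hz1 hz
    rw [Finset.sum_eq_single i]
    · rw [if_pos hi2]
    · intro k hk hki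
      rw [if_neg]
      intro hzk
      exact hki (hi3 k ⟨hk, hzk⟩)
    · intro h; exact absurd hi1 h
  · rw [if_neg hz]
    apply Finset.sum_eq_zero
    intro i hi
    rw [if_neg]
    intro hzi
    exact hz (h2 i hi hzi)

theorem NN_additive {ι : Type*} {J : Finset ι} {Sf : ι → Set ℂ} {S₀ : Set ℂ}
    (hS : ∀ i ∈ J, PolySet (Sf i)) (h0 : PolySet S₀) {E : Finset (ℝ × ℝ × ℝ)}
    (hE : ∀ q ∈ E, ndg q) 
    (h1 : ∀ z, (∀ q ∈ E, hh q z ≠ 0) → z ∈ S₀ → ∃! i, i ∈ J ∧ z ∈ Sf i)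
    (h2 : ∀ i ∈ J, Sf i ⊆ S₀)
    {p τ : ℂ} (hτ : τ ≠ 0) : ∑ i ∈ J, NN (Sf i) p τ = NN S₀ p τ := by
  unfold NN jj
  rw [Finset.sum_add_distrib, Finset.sum_sub_distrib, Finset.sum_sub_distrib,
    qv_additive hS h0 hE h1 h2 (bs_I hτ), qv_additive hS h0 hE h1 h2 (bs_negI hτ),
    qv_additive hS h0 hE h1 h2 (bs_I (neg_ne_zero.2 hτ)),
    qv_additive hS h0 hE h1 h2 (bs_negI (neg_ne_zero.2 hτ))]

theorem Phi_additive {ι : Type*} {J : Finset ι} {Sf : ι → Set ℂ} {S₀ : Set ℂ}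
    (hS : ∀ i ∈ J, PolySet (Sf i)) (h0 : PolySet S₀) {E : Finset (ℝ × ℝ × ℝ)}
    (hE : ∀ q ∈ E, ndg q) 
    (h1 : ∀ z, (∀ q ∈ E, hh q z ≠ 0) → z ∈ S₀ → ∃! i, i ∈ J ∧ z ∈ Sf i)
    (h2 : ∀ i ∈ J, Sf i ⊆ S₀) (g : ℝ →ₗ[ℚ] ℝ) : ∑ i ∈ J, Phi (Sf i) g = Phi S₀ g := by
  unfold Phi
  rw [← finsum_sum_comm]
  · apply finsum_congr
    intro x
    rw [← NN_additive hS h0 hE h1 h2 (circle_ne x.2)]
    push_cast
    rw [Finset.sum_mul]
  · intro i hi
    exact Phi_support (hS i hi) _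

/-! ### isometries -/

theorem qv_image {φ : ℂ ≃ᵢ ℂ} {L : ℂ → ℂ}
    (hφ : ∀ (p v w : ℂ) (y δ : ℝ), φ (p + y * v + δ * w) = φ p + y * L v + δ * L w)
    (S : Set ℂ) (p τ ν : ℂ) : qv (φ '' S) (φ p) (L τ) (L ν) = qv S p τ ν := by
  have : (∀ᶠ z in sec (φ p) (L τ) (L ν), z ∈ φ '' S) ↔ (∀ᶠ z in sec p τ ν, z ∈ S) := by
    rw [eventually_sec, eventually_sec]
    apply Filter.eventually_congr
    filter_upwards with y
    apply Filter.eventually_congr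
    filter_upwards with δ
    rw [← hφ]
    exact φ.injective.mem_set_image
  unfold qv
  by_cases h : ∀ᶠ z in sec p τ ν, z ∈ S
  · rw [if_pos h, if_pos (this.2 h)]
  · rw [if_neg h, if_neg (fun h' => h (this.1 h'))]

theorem frontier_image (φ : ℂ ≃ᵢ ℂ) (S : Set ℂ) : frontier (φ '' S) = φ '' frontier S := by
  exact (φ.toHomeomorph.image_frontier S).symm

theorem PolySet_rot {φ : ℂ ≃ᵢ ℂ} {u w : ℂ} (hu : ‖u‖ = 1) (hφ : ∀ z, φ z = u * z + w)
    {S : Set ℂ} (hS : PolySet S) : PolySet (φ '' S) := by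
  classical
  obtain ⟨F, hF1, hF2⟩ := hS
  have hu2 : u.re ^ 2 + u.im ^ 2 = 1 := by
    have := Complex.sq_norm u
    rw [hu, Complex.normSq_apply] at this
    linarith
  let f : ℝ × ℝ × ℝ → ℝ × ℝ × ℝ := fun q =>
    (q.1 * u.re - q.2.1 * u.im, q.1 * u.im + q.2.1 * u.re,
      q.2.2 + ((q.1 * u.re - q.2.1 * u.im) * w.re + (q.1 * u.im + q.2.1 * u.re) * w.im))
  refine ⟨F.image f, ?_, ?_⟩
  · intro q' hq'
    obtain ⟨q, hq, rfl⟩ := Finset.mem_image.1 hq'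
    have hn := hF1 q hq
    unfold ndg at *
    by_contra hcon
    push Not at hcon
    obtain ⟨h1, h2⟩ := hcon
    simp only [f] at h1 h2
    have e1 : q.1 = 0 := by linear_combination u.re * h1 + u.im * h2 - q.1 * hu2
    have e2 : q.2.1 = 0 := by linear_combination u.re * h2 - u.im * h1 - q.2.1 * hu2
    rcases hn with hn | hn
    · exact hn e1
    · exact hn e2
  · rw [frontier_image]
    rintro _ ⟨z, hz, rfl⟩
    obtain ⟨q, hq, h0⟩ := hF2 z hz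
    refine ⟨f q, Finset.mem_image_of_mem f hq, ?_⟩
    rw [hφ]
    simp only [hh, f, Complex.add_re, Complex.add_im, Complex.mul_re, Complex.mul_im] at h0 ⊢
    linear_combination h0 + (q.1 * z.re + q.2.1 * z.im) * hu2

theorem PolySet_ref {φ : ℂ ≃ᵢ ℂ} {u w : ℂ} (hu : ‖u‖ = 1)
    (hφ : ∀ z, φ z = u * (starRingEnd ℂ) z + w)
    {S : Set ℂ} (hS : PolySet S) : PolySet (φ '' S) := by
  classical
  obtain ⟨F, hF1, hF2⟩ := hS
  have hu2 : u.re ^ 2 + u.im ^ 2 = 1 := by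
    have := Complex.sq_norm u
    rw [hu, Complex.normSq_apply] at this
    linarith
  let f : ℝ × ℝ × ℝ → ℝ × ℝ × ℝ := fun q =>
    (q.1 * u.re + q.2.1 * u.im, q.1 * u.im - q.2.1 * u.re,
      q.2.2 + ((q.1 * u.re + q.2.1 * u.im) * w.re + (q.1 * u.im - q.2.1 * u.re) * w.im))
  refine ⟨F.image f, ?_, ?_⟩
  · intro q' hq'
    obtain ⟨q, hq, rfl⟩ := Finset.mem_image.1 hq'
    have hn := hF1 q hq
    unfold ndg at *
    by_contra hcon
    push Not at hcon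
    obtain ⟨h1, h2⟩ := hcon
    simp only [f] at h1 h2
    have e1 : q.1 = 0 := by linear_combination u.re * h1 + u.im * h2 - q.1 * hu2
    have e2 : q.2.1 = 0 := by linear_combination -u.re * h2 + u.im * h1 - q.2.1 * hu2
    rcases hn with hn | hn
    · exact hn e1
    · exact hn e2
  · rw [frontier_image]
    rintro _ ⟨z, hz, rfl⟩
    obtain ⟨q, hq, h0⟩ := hF2 z hz
    refine ⟨f q, Finset.mem_image_of_mem f hq, ?_⟩
    rw [hφ]
    simp only [hh, f, Complex.add_re, Complex.add_im, Complex.mul_re, Complex.mul_im,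
      Complex.conj_re, Complex.conj_im] at h0 ⊢
    linear_combination h0 + (q.1 * z.re + q.2.1 * z.im) * hu2

theorem NN_rot {φ : ℂ ≃ᵢ ℂ} {u w : ℂ} (hφ : ∀ z, φ z = u * z + w) (S : Set ℂ) (p τ : ℂ) :
    NN (φ '' S) (φ p) (u * τ) = NN S p τ := by
  have hL : ∀ (p v w : ℂ) (y δ : ℝ), φ (p + y * v + δ * w) =
      φ p + y * ((fun x => u * x) v) + δ * ((fun x => u * x) w) := by
    intro p v w' y δ
    rw [hφ, hφ]; ring
  have key := fun p τ ν => qv_image hL S p τ ν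
  unfold NN jj
  have e1 : Complex.I * (u * τ) = u * (Complex.I * τ) := by ring
  have e2 : -(u * (Complex.I * τ)) = u * (-(Complex.I * τ)) := by ring
  have e3 : -(u * τ) = u * (-τ) := by ring
  have e4 : Complex.I * (u * (-τ)) = u * (Complex.I * (-τ)) := by ring
  have e5 : -(u * (Complex.I * (-τ))) = u * (-(Complex.I * (-τ))) := by ring
  rw [e1, e2, e3, e4, e5, key, key, key, key]

theorem NN_ref {φ : ℂ ≃ᵢ ℂ} {u w : ℂ} (hφ : ∀ z, φ z = u * (starRingEnd ℂ) z + w) (S : Set ℂ)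
    (p τ : ℂ) : NN (φ '' S) (φ p) (u * (starRingEnd ℂ) τ) = - NN S p τ := by
  have hL : ∀ (p v w : ℂ) (y δ : ℝ), φ (p + y * v + δ * w) =
      φ p + y * ((fun x => u * (starRingEnd ℂ) x) v) +
        δ * ((fun x => u * (starRingEnd ℂ) x) w) := by
    intro p v w' y δ
    rw [hφ, hφ]
    simp only [map_add, map_mul, Complex.conj_ofReal]
    ring
  have key := fun p τ ν => qv_image hL S p τ ν
  unfold NN jj
  have e1 : Complex.I * (u * (starRingEnd ℂ) τ) = u * (starRingEnd ℂ) (-(Complex.I * τ)) := by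
    simp only [map_neg, map_mul, Complex.conj_I]; ring
  have e2 : -(u * (starRingEnd ℂ) (-(Complex.I * τ))) = u * (starRingEnd ℂ) (Complex.I * τ) := by
    simp only [map_neg, map_mul, Complex.conj_I]; ring
  have e3 : -(u * (starRingEnd ℂ) τ) = u * (starRingEnd ℂ) (-τ) := by
    simp only [map_neg]; ring
  have e4 : Complex.I * (u * (starRingEnd ℂ) (-τ)) =
      u * (starRingEnd ℂ) (-(Complex.I * (-τ))) := by
    simp only [map_neg, map_mul, Complex.conj_I]; ring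
  have e5 : -(u * (starRingEnd ℂ) (-(Complex.I * (-τ)))) =
      u * (starRingEnd ℂ) (Complex.I * (-τ)) := by
    simp only [map_neg, map_mul, Complex.conj_I]; ring
  rw [e1, e2, e3, e4, e5, key, key, key, key]
  ring

theorem Phi_rot {φ : ℂ ≃ᵢ ℂ} {u : Circle} {w : ℂ} (hφ : ∀ z, φ z = u * z + w)
    {S : Set ℂ} (hS : PolySet S) {R : ℝ} (hR : ∀ z ∈ S, ‖z‖ ≤ R) (g : ℝ →ₗ[ℚ] ℝ) :
    Phi (φ '' S) g = (u : ℂ) ^ 3 * Phi S g := by
  let e : ℂ × Circle ≃ ℂ × Circle := Equiv.prodCongr φ.toEquiv (Equiv.mulLeft u)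
  have he : ∀ x : ℂ × Circle, e x = (φ x.1, u * x.2) := fun x => rfl
  unfold Phi
  rw [← finsum_comp_equiv e]
  have h1 : ∀ x : ℂ × Circle, (NN (φ '' S) (e x).1 (e x).2 : ℂ) *
      (((e x).2 : ℂ) ^ 3 * ((g (((e x).1 * (starRingEnd ℂ) ((e x).2 : ℂ)).re) : ℝ) : ℂ)) =
      (u : ℂ) ^ 3 * ((NN S x.1 x.2 : ℂ) * ((x.2 : ℂ) ^ 3 *
        ((g ((x.1 * (starRingEnd ℂ) (x.2 : ℂ)).re) : ℝ) : ℂ))) +
      (NN S x.1 x.2 : ℂ) * ((fun τ : Circle => (u : ℂ) ^ 3 * (τ : ℂ) ^ 3 *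
        ((g ((w * (starRingEnd ℂ) ((u : ℂ) * τ)).re) : ℝ) : ℂ)) x.2) := by
    intro x
    rw [he]
    simp only [Circle.coe_mul]
    rw [NN_rot hφ]
    have huu : (u : ℂ) * (starRingEnd ℂ) (u : ℂ) = 1 := by
      rw [Complex.mul_conj]
      simp
    have e1 : (φ x.1 * (starRingEnd ℂ) ((u : ℂ) * (x.2 : ℂ))).re =
        (x.1 * (starRingEnd ℂ) (x.2 : ℂ)).re + (w * (starRingEnd ℂ) ((u : ℂ) * x.2)).re := by
      rw [← Complex.add_re]
      congr 1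
      rw [hφ]
      simp only [map_mul]
      linear_combination x.1 * (starRingEnd ℂ) (x.2 : ℂ) * huu
    rw [e1, map_add]
    push_cast
    ring
  refine (finsum_congr h1).trans ((finsum_add_distrib ?_ (Phi_support hS _)).trans ?_)
  · apply (Phi_support hS (fun x => (x.2 : ℂ) ^ 3 *
      ((g ((x.1 * (starRingEnd ℂ) (x.2 : ℂ)).re) : ℝ) : ℂ))).subset
    intro x hx
    simp only [Function.mem_support] at hx ⊢
    intro h0
    apply hx
    rw [h0]; simp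
  · have h2 := dir_sum hS hR (fun τ : Circle => (u : ℂ) ^ 3 * (τ : ℂ) ^ 3 *
        ((g ((w * (starRingEnd ℂ) ((u : ℂ) * τ)).re) : ℝ) : ℂ))
    exact (congrArg₂ (· + ·) (mul_finsum _ _).symm h2).trans (add_zero _)

theorem Phi_ref {φ : ℂ ≃ᵢ ℂ} {u : Circle} {w : ℂ} (hφ : ∀ z, φ z = u * (starRingEnd ℂ) z + w)
    {S : Set ℂ} (hS : PolySet S) {R : ℝ} (hR : ∀ z ∈ S, ‖z‖ ≤ R) (g : ℝ →ₗ[ℚ] ℝ) :
    Phi (φ '' S) g = -((u : ℂ) ^ 3 * (starRingEnd ℂ) (Phi S g)) := by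
  let e : ℂ × Circle ≃ ℂ × Circle :=
    Equiv.prodCongr φ.toEquiv ((Equiv.inv Circle).trans (Equiv.mulLeft u))
  have he : ∀ x : ℂ × Circle, e x = (φ x.1, u * x.2⁻¹) := fun x => rfl
  unfold Phi
  rw [← finsum_comp_equiv e]
  have hconj : (starRingEnd ℂ) (∑ᶠ x : ℂ × Circle, (NN S x.1 x.2 : ℂ) * ((x.2 : ℂ) ^ 3 *
        ((g ((x.1 * (starRingEnd ℂ) (x.2 : ℂ)).re) : ℝ) : ℂ))) =
      ∑ᶠ x : ℂ × Circle, (starRingEnd ℂ) ((NN S x.1 x.2 : ℂ) * ((x.2 : ℂ) ^ 3 *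
        ((g ((x.1 * (starRingEnd ℂ) (x.2 : ℂ)).re) : ℝ) : ℂ))) := by
    exact (starRingEnd ℂ).toAddMonoidHom.map_finsum (Phi_support hS _)
  rw [hconj]
  have h1 : ∀ x : ℂ × Circle, (NN (φ '' S) (e x).1 (e x).2 : ℂ) *
      (((e x).2 : ℂ) ^ 3 * ((g (((e x).1 * (starRingEnd ℂ) ((e x).2 : ℂ)).re) : ℝ) : ℂ)) =
      (-(u : ℂ) ^ 3) * (starRingEnd ℂ) ((NN S x.1 x.2 : ℂ) * ((x.2 : ℂ) ^ 3 *
        ((g ((x.1 * (starRingEnd ℂ) (x.2 : ℂ)).re) : ℝ) : ℂ))) +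
      (NN S x.1 x.2 : ℂ) * ((fun τ : Circle => -((u : ℂ) ^ 3 * ((starRingEnd ℂ) (τ : ℂ)) ^ 3 *
        ((g ((w * (starRingEnd ℂ) ((u : ℂ) * (starRingEnd ℂ) (τ : ℂ))).re) : ℝ) : ℂ))) x.2) := by
    intro x
    rw [he]
    simp only [Circle.coe_mul, Circle.coe_inv_eq_conj]
    rw [NN_ref hφ]
    have huu : (u : ℂ) * (starRingEnd ℂ) (u : ℂ) = 1 := by
      rw [Complex.mul_conj]
      simp
    have e1 : (φ x.1 * (starRingEnd ℂ) ((u : ℂ) * (starRingEnd ℂ) (x.2 : ℂ))).re =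
        (x.1 * (starRingEnd ℂ) (x.2 : ℂ)).re +
          (w * (starRingEnd ℂ) ((u : ℂ) * (starRingEnd ℂ) (x.2 : ℂ))).re := by
      have e2 : (x.1 * (starRingEnd ℂ) (x.2 : ℂ)).re =
          ((starRingEnd ℂ) x.1 * (x.2 : ℂ)).re := by
        simp only [Complex.mul_re, Complex.conj_re, Complex.conj_im]; ring
      rw [e2, ← Complex.add_re]
      congr 1
      rw [hφ]
      simp only [map_mul, Complex.conj_conj]
      linear_combination (starRingEnd ℂ) x.1 * (x.2 : ℂ) * huu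
    rw [e1, map_add]
    simp only [map_mul, map_pow, Complex.conj_ofReal, map_intCast]
    push_cast
    ring
  refine (finsum_congr h1).trans ((finsum_add_distrib ?_ (Phi_support hS _)).trans ?_)
  · apply (Phi_support hS (fun x => (x.2 : ℂ) ^ 3 *
      ((g ((x.1 * (starRingEnd ℂ) (x.2 : ℂ)).re) : ℝ) : ℂ))).subset
    intro x hx
    simp only [Function.mem_support] at hx ⊢
    intro h0
    apply hx
    rw [h0]; simp
  · have h2 := dir_sum hS hR (fun τ : Circle => -((u : ℂ) ^ 3 * ((starRingEnd ℂ) (τ : ℂ)) ^ 3 *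
        ((g ((w * (starRingEnd ℂ) ((u : ℂ) * (starRingEnd ℂ) (τ : ℂ))).re) : ℝ) : ℂ)))
    refine ((congrArg₂ (· + ·) (mul_finsum _ _).symm h2).trans (add_zero _)).trans ?_
    ring

end Pool.Agent.H86.AP
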