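import Pool.Agent.H86.AP.Germ

/-!
The additive functional `Phi`.
-/

namespace Pool.Agent.H86.AP

open Set Filter Topology

theorem circle_ne (τ : Circle) : (τ : ℂ) ≠ 0 := Circle.coe_ne_zero τ

theorem circle_sq (τ : Circle) : (τ : ℂ).re ^ 2 + (τ : ℂ).im ^ 2 = 1 := by
  have h := Circle.normSq_coe τ
  rw [Complex.normSq_apply] at h
  linarith

theorem dir_finite {q : ℝ × ℝ × ℝ} (hq : ndg q) : {τ : Circle | aa q τ = 0}.Finite := by
  have h1 : ((fun τ : Circle => (τ : ℂ)) '' {τ : Circle | aa q τ = 0}).Finite := by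
    by_cases hne : {τ : Circle | aa q τ = 0}.Nonempty
    · obtain ⟨τ₀, h0⟩ := hne
      apply Set.Finite.subset (Set.toFinite {(τ₀ : ℂ), -(τ₀ : ℂ)})
      rintro z ⟨τ, hτ, rfl⟩
      simp only [Set.mem_ofPred_eq] at h0 hτ
      unfold aa at h0 hτ
      have hd : (τ : ℂ).re * (τ₀ : ℂ).im - (τ : ℂ).im * (τ₀ : ℂ).re = 0 := by
        have e1 : q.1 * ((τ : ℂ).re * (τ₀ : ℂ).im - (τ : ℂ).im * (τ₀ : ℂ).re) = 0 := by
          linear_combination (τ₀ : ℂ).im * hτ - (τ : ℂ).im * h0
        have e2 : q.2.1 * ((τ : ℂ).re * (τ₀ : ℂ).im - (τ : ℂ).im * (τ₀ : ℂ).re) = 0 := by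
          linear_combination (τ : ℂ).re * h0 - (τ₀ : ℂ).re * hτ
        rcases hq with hq | hq
        · exact (mul_eq_zero.1 e1).resolve_left hq
        · exact (mul_eq_zero.1 e2).resolve_left hq
      have n1 := circle_sq τ
      have n2 := circle_sq τ₀
      set x := (τ : ℂ).re
      set y := (τ : ℂ).im
      set x' := (τ₀ : ℂ).re
      set y' := (τ₀ : ℂ).im
      have hsq : (x * x' + y * y') ^ 2 = 1 := by
        have : (x * x' + y * y') ^ 2 + (x * y' - y * x') ^ 2 = (x ^ 2 + y ^ 2) * (x' ^ 2 + y' ^ 2) := by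
          ring
        rw [hd, n1, n2] at this
        linarith
      have h3 : x * x' + y * y' = 1 ∨ x * x' + y * y' = -1 := by
        have : (x * x' + y * y' - 1) * (x * x' + y * y' + 1) = 0 := by linarith
        rcases mul_eq_zero.1 this with h | h
        · left; linarith
        · right; linarith
      simp only [Set.mem_insert_iff, Set.mem_singleton_iff]
      rcases h3 with h3 | h3
      · left
        apply Complex.ext
        · change x = x'
          linear_combination x' * h3 + (-x) * n2 + y' * hd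
        · change y = y'
          linear_combination y' * h3 + (-y) * n2 - x' * hd
      · right
        apply Complex.ext
        · change x = -x'
          linear_combination x' * h3 + (-x) * n2 + y' * hd
        · change y = -y'
          linear_combination y' * h3 + (-y) * n2 - x' * hd
    · rw [Set.not_nonempty_iff_eq_empty.1 hne]
      simp
  exact Set.Finite.of_finite_image h1 (Circle.coe_injective.injOn)

theorem det_ne {q q' : ℝ × ℝ × ℝ} (hq : ndg q) {τ : ℂ} (h : aa q τ = 0) (h' : aa q' τ ≠ 0) :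
    q.1 * q'.2.1 - q.2.1 * q'.1 ≠ 0 := by
  intro hd
  apply h'
  unfold aa at *
  have e1 : q.1 * (q'.1 * τ.re + q'.2.1 * τ.im) = 0 := by
    linear_combination q'.1 * h + τ.im * hd
  have e2 : q.2.1 * (q'.1 * τ.re + q'.2.1 * τ.im) = 0 := by
    linear_combination q'.2.1 * h - τ.re * hd
  rcases hq with hq | hq
  · exact (mul_eq_zero.1 e1).resolve_left hq
  · exact (mul_eq_zero.1 e2).resolve_left hq

theorem pt_subsingleton {q q' : ℝ × ℝ × ℝ} (hd : q.1 * q'.2.1 - q.2.1 * q'.1 ≠ 0) :
    {p : ℂ | hh q p = 0 ∧ hh q' p = 0}.Subsingleton := by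
  rintro p ⟨h1, h2⟩ p' ⟨h3, h4⟩
  unfold hh at *
  apply Complex.ext
  · have : (q.1 * q'.2.1 - q.2.1 * q'.1) * (p.re - p'.re) = 0 := by
      linear_combination q'.2.1 * h1 - q.2.1 * h2 - q'.2.1 * h3 + q.2.1 * h4
    have := (mul_eq_zero.1 this).resolve_left hd
    linarith
  · have : (q.1 * q'.2.1 - q.2.1 * q'.1) * (p.im - p'.im) = 0 := by
      linear_combination -q'.1 * h1 + q.1 * h2 + q'.1 * h3 - q.1 * h4
    have := (mul_eq_zero.1 this).resolve_left hd
    linarith

theorem NN_mem {F : Finset (ℝ × ℝ × ℝ)} {S : Set ℂ} (hS : Cov F S) {p τ : ℂ} (hτ : τ ≠ 0)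
    (h : NN S p τ ≠ 0) :
    ∃ q ∈ F, ∃ q' ∈ F, hh q p = 0 ∧ aa q τ = 0 ∧ hh q' p = 0 ∧ aa q' τ ≠ 0 := by
  have h1 : ∃ q ∈ F, hh q p = 0 ∧ aa q τ = 0 := by
    by_contra hcon
    push Not at hcon
    exact h (NN_eq_zero_of_no_line hS hτ hcon)
  have h2 : ∃ q ∈ F, hh q p = 0 ∧ aa q τ ≠ 0 := by
    by_contra hcon
    push Not at hcon
    exact h (NN_eq_zero_of_only_line hS hτ hcon)
  obtain ⟨q, hq, a1, a2⟩ := h1
  obtain ⟨q', hq', b1, b2⟩ := h2
  exact ⟨q, hq, q', hq', a1, a2, b1, b2⟩

theorem NN_support_finite {S : Set ℂ} (hS : PolySet S) :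
    {x : ℂ × Circle | NN S x.1 x.2 ≠ 0}.Finite := by
  obtain ⟨F, hF⟩ := hS
  have hfin : (⋃ q ∈ F, ⋃ q' ∈ F, {x : ℂ × Circle | ndg q ∧ hh q x.1 = 0 ∧ aa q x.2 = 0 ∧
      hh q' x.1 = 0 ∧ aa q' x.2 ≠ 0}).Finite := by
    refine Set.Finite.biUnion (Finset.finite_toSet F) fun q _ => ?_
    refine Set.Finite.biUnion (Finset.finite_toSet F) fun q' _ => ?_
    by_cases hn : ndg q
    · by_cases hd : q.1 * q'.2.1 - q.2.1 * q'.1 = 0
      · convert Set.finite_empty
        ext x
        simp only [Set.mem_ofPred_eq, Set.mem_empty_iff_false, iff_false]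
        rintro ⟨_, _, h2, _, h4⟩
        exact det_ne hn h2 h4 hd
      · apply Set.Finite.subset ((pt_subsingleton hd).finite.prod (dir_finite hn))
        rintro x ⟨_, h1, h2, h3, _⟩
        exact ⟨⟨h1, h3⟩, h2⟩
    · convert Set.finite_empty
      ext x
      simp only [Set.mem_ofPred_eq, Set.mem_empty_iff_false, iff_false]
      rintro ⟨h, _⟩
      exact hn h
  apply hfin.subset
  intro x hx
  obtain ⟨q, hq, q', hq', h⟩ := NN_mem hF (circle_ne x.2) hx
  simp only [Set.mem_iUnion]
  exact ⟨q, hq, q', hq', hF.1 q hq, h⟩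

/-! ### one dimensional telescoping -/

theorem telescope (f f' : ℝ → ℤ)
    (hR : ∀ x, ∀ᶠ t in 𝓝[>] (0 : ℝ), f (x + t) = f x ∧ f' (x + t) = f x)
    (hL : ∀ x, ∀ᶠ t in 𝓝[>] (0 : ℝ), f (x - t) = f' x ∧ f' (x - t) = f' x)
    (hB : ∃ R : ℝ, ∀ x, R < |x| → f x = 0 ∧ f' x = 0)
    (hfin : {x | f x - f' x ≠ 0}.Finite) :
    ∑ᶠ x, (f x - f' x) = 0 := by
  classical
  set V := hfin.toFinset with hV
  have hVm : ∀ x, x ∉ V → f x - f' x = 0 := by
    intro x hx
    by_contra h
    exact hx (by rw [hV]; simpa using h)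
  rw [finsum_eq_sum_of_support_subset (s := V) _ (by
    intro x hx
    rw [hV]
    simpa using hx)]
  set G : ℝ → ℤ := fun x => ∑ v ∈ V.filter (· ≤ x), (f v - f' v) - f x with hG
  have hloc : IsLocallyConstant G := by
    rw [IsLocallyConstant.iff_eventually_eq]
    intro x
    have hgt : ∀ᶠ y in 𝓝[>] x, G y = G x := by
      have e1 : ∀ᶠ y in 𝓝[>] x, f y = f x := by
        have h := hR x
        have ht : Tendsto (fun y : ℝ => y - x) (𝓝[>] x) (𝓝[>] 0) := by
          apply tendsto_nhdsWithin_of_tendsto_nhds_of_eventually_within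
          · have : Continuous fun y : ℝ => y - x := by fun_prop
            have := this.tendsto x
            simp only [sub_self] at this
            exact this.mono_left nhdsWithin_le_nhds
          · filter_upwards [self_mem_nhdsWithin] with y hy
            simpa using hy
        filter_upwards [ht.eventually h] with y hy
        have := hy.1
        rwa [add_sub_cancel] at this
      have e2 : ∀ᶠ y in 𝓝[>] x, ∀ v ∈ V, (v ≤ y ↔ v ≤ x) := by
        rw [Filter.eventually_all_finset]
        intro v _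
        by_cases hv : v ≤ x
        · filter_upwards [self_mem_nhdsWithin] with y hy
          have : x < y := hy
          exact ⟨fun _ => hv, fun _ => hv.trans this.le⟩
        · push Not at hv
          filter_upwards [(eventually_lt_nhds hv).filter_mono nhdsWithin_le_nhds] with y hy
          constructor
          · intro h; exact absurd h (not_le.2 hy)
          · intro h; exact absurd h (not_le.2 hv)
      filter_upwards [e1, e2] with y h1 h2
      simp only [hG]
      rw [h1]
      congr 1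
      apply Finset.sum_congr _ (fun _ _ => rfl)
      ext v
      simp only [Finset.mem_filter]
      exact ⟨fun h => ⟨h.1, (h2 v h.1).1 h.2⟩, fun h => ⟨h.1, (h2 v h.1).2 h.2⟩⟩
    have hlt : ∀ᶠ y in 𝓝[<] x, G y = G x := by
      have e1 : ∀ᶠ y in 𝓝[<] x, f y = f' x := by
        have h := hL x
        have ht : Tendsto (fun y : ℝ => x - y) (𝓝[<] x) (𝓝[>] 0) := by
          apply tendsto_nhdsWithin_of_tendsto_nhds_of_eventually_within
          · have : Continuous fun y : ℝ => x - y := by fun_prop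
            have := this.tendsto x
            simp only [sub_self] at this
            exact this.mono_left nhdsWithin_le_nhds
          · filter_upwards [self_mem_nhdsWithin] with y hy
            simpa using hy
        filter_upwards [ht.eventually h] with y hy
        have := hy.1
        rwa [sub_sub_cancel] at this
      have e2 : ∀ᶠ y in 𝓝[<] x, ∀ v ∈ V, (v ≤ y ↔ v < x) := by
        rw [Filter.eventually_all_finset]
        intro v _
        by_cases hv : v < x
        · filter_upwards [(eventually_gt_nhds hv).filter_mono nhdsWithin_le_nhds] with y hy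
          exact ⟨fun _ => hv, fun _ => hy.le⟩
        · filter_upwards [self_mem_nhdsWithin] with y hy
          have : y < x := hy
          push Not at hv
          constructor
          · intro h; exact absurd (h.trans_lt this) (not_lt.2 hv)
          · intro h; exact absurd h (not_lt.2 hv)
      filter_upwards [e1, e2] with y h1 h2
      simp only [hG]
      rw [h1]
      have hsplit : ∑ v ∈ V.filter (· ≤ x), (f v - f' v) =
          ∑ v ∈ V.filter (· < x), (f v - f' v) + (f x - f' x) := by
        by_cases hx : x ∈ V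
        · have : V.filter (· ≤ x) = insert x (V.filter (· < x)) := by
            ext v
            simp only [Finset.mem_filter, Finset.mem_insert]
            constructor
            · rintro ⟨h3, h4⟩
              rcases eq_or_lt_of_le h4 with h5 | h5
              · exact Or.inl h5
              · exact Or.inr ⟨h3, h5⟩
            · rintro (h3 | ⟨h3, h4⟩)
              · rw [h3]; exact ⟨hx, le_refl _⟩
              · exact ⟨h3, h4.le⟩
          rw [this, Finset.sum_insert (by simp), add_comm]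
        · rw [hVm x hx, add_zero]
          apply Finset.sum_congr _ (fun _ _ => rfl)
          ext v
          simp only [Finset.mem_filter]
          constructor
          · rintro ⟨h3, h4⟩
            refine ⟨h3, lt_of_le_of_ne h4 ?_⟩
            rintro rfl
            exact hx h3
          · rintro ⟨h3, h4⟩
            exact ⟨h3, h4.le⟩
      rw [hsplit]
      have : ∑ v ∈ V.filter (· ≤ y), (f v - f' v) = ∑ v ∈ V.filter (· < x), (f v - f' v) := by
        apply Finset.sum_congr _ (fun _ _ => rfl)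
        ext v
        simp only [Finset.mem_filter]
        exact ⟨fun h => ⟨h.1, (h2 v h.1).1 h.2⟩, fun h => ⟨h.1, (h2 v h.1).2 h.2⟩⟩
      rw [this]
      ring
    rw [← nhdsLT_sup_nhdsGE x, Filter.eventually_sup]
    refine ⟨hlt, ?_⟩
    rw [← Ioi_insert, nhdsWithin_insert, Filter.eventually_sup]
    exact ⟨by simp, hgt⟩
  have hconst : ∀ x y, G x = G y := fun x y => hloc.apply_eq_of_preconnectedSpace x y
  obtain ⟨R, hR'⟩ := hB
  obtain ⟨M, hM⟩ : ∃ M : ℝ, ∀ v ∈ V, |v| ≤ M := by
    refine ⟨∑ v ∈ V, |v|, fun v hv => ?_⟩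
    exact Finset.single_le_sum (f := fun v => |v|) (fun _ _ => abs_nonneg _) hv
  set K := |R| + |M| + 1 with hK
  have hK1 : R < K := by
    have := le_abs_self R
    have := abs_nonneg M
    linarith
  have hK2 : M < K := by
    have := le_abs_self M
    have := abs_nonneg R
    linarith
  have hK0 : 0 < K := by positivity
  have g1 : G K = ∑ v ∈ V, (f v - f' v) := by
    simp only [hG]
    have : f K = 0 := (hR' K (by rw [abs_of_pos hK0]; exact hK1)).1
    rw [this, sub_zero]
    apply Finset.sum_congr _ (fun _ _ => rfl)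
    ext v
    simp only [Finset.mem_filter, and_iff_left_iff_imp]
    intro hv
    have := hM v hv
    have := le_abs_self v
    linarith
  have g2 : G (-K) = 0 := by
    simp only [hG]
    have : f (-K) = 0 := (hR' (-K) (by rw [abs_neg, abs_of_pos hK0]; exact hK1)).1
    rw [this, sub_zero]
    have : V.filter (· ≤ -K) = ∅ := by
      ext v
      simp only [Finset.mem_filter, Finset.notMem_empty, iff_false, not_and, not_le]
      intro hv
      have := hM v hv
      have := neg_abs_le v
      linarith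
    rw [this, Finset.sum_empty]
  rw [← g1, hconst K (-K), g2]

theorem LP_move (q : ℝ × ℝ × ℝ) (p τ ν : ℂ) :
    ∀ᶠ t in 𝓝[>] (0 : ℝ), (LP q (p + (t : ℝ) * τ) τ ν ↔ LP q p τ ν) ∧
      (LP q (p + (t : ℝ) * τ) (-τ) ν ↔ LP q p τ ν) := by
  have hc : Continuous fun t : ℝ => hh q (p + (t : ℝ) * τ) := by
    have : Continuous fun t : ℝ => p + (t : ℂ) * τ := by fun_prop
    exact (continuous_hh q).comp this
  have ht : Tendsto (fun t : ℝ => hh q (p + (t : ℝ) * τ)) (𝓝[>] 0) (𝓝 (hh q p)) := by
    have := hc.tendsto 0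
    simp only [Complex.ofReal_zero, zero_mul, add_zero] at this
    exact this.mono_left nhdsWithin_le_nhds
  rcases lt_trichotomy (hh q p) 0 with h | h | h
  · filter_upwards [ht.eventually_lt_const h] with t h1
    unfold LP
    constructor
    · constructor
      · rintro (h2 | ⟨h2, _⟩) <;> linarith
      · rintro (h2 | ⟨h2, _⟩) <;> linarith
    · constructor
      · rintro (h2 | ⟨h2, _⟩) <;> linarith
      · rintro (h2 | ⟨h2, _⟩) <;> linarith
  · filter_upwards [self_mem_nhdsWithin] with t ht0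
    have ht' : (0 : ℝ) < t := ht0
    have e : hh q (p + (t : ℝ) * τ) = t * aa q τ := by rw [hh_add, aa_mul, h, zero_add]
    unfold LP
    rw [e, aa_neg, h]
    rcases lt_trichotomy (aa q τ) 0 with h1 | h1 | h1
    · have h3 := mul_neg_of_pos_of_neg ht' h1
      constructor
      · constructor
        · rintro (h2 | ⟨h2, _⟩) <;> linarith
        · rintro (h2 | ⟨_, h2 | ⟨h2, _⟩⟩) <;> linarith
      · constructor
        · rintro (h2 | ⟨h2, _⟩) <;> linarith
        · rintro (h2 | ⟨_, h2 | ⟨h2, _⟩⟩) <;> linarith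
    · rw [h1]
      simp
    · have h3 := mul_pos ht' h1
      constructor
      · constructor
        · rintro _
          exact Or.inr ⟨rfl, Or.inl h1⟩
        · rintro _
          exact Or.inl h3
      · constructor
        · rintro _
          exact Or.inr ⟨rfl, Or.inl h1⟩
        · rintro _
          exact Or.inl h3
  · filter_upwards [ht.eventually_const_lt h] with t h1
    unfold LP
    constructor
    · exact ⟨fun _ => Or.inl h, fun _ => Or.inl h1⟩
    · exact ⟨fun _ => Or.inl h, fun _ => Or.inl h1⟩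

theorem qv_move {F : Finset (ℝ × ℝ × ℝ)} {S : Set ℂ} (hS : Cov F S) {p τ ν : ℂ} (hb : bs τ ν) :
    ∀ᶠ t in 𝓝[>] (0 : ℝ), qv S (p + (t : ℝ) * τ) τ ν = qv S p τ ν ∧
      qv S (p + (t : ℝ) * τ) (-τ) ν = qv S p τ ν := by
  have h : ∀ᶠ t in 𝓝[>] (0 : ℝ), ∀ q ∈ F, (LP q (p + (t : ℝ) * τ) τ ν ↔ LP q p τ ν) ∧
      (LP q (p + (t : ℝ) * τ) (-τ) ν ↔ LP q p τ ν) := by
    rw [Filter.eventually_all_finset]
    intro q _
    exact LP_move q p τ ν
  filter_upwards [h] with t ht
  exact ⟨qv_congr hS hb hb fun q hq => (ht q hq).1,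
    qv_congr hS (bs_neg_left hb) hb fun q hq => (ht q hq).2⟩

theorem jj_move {F : Finset (ℝ × ℝ × ℝ)} {S : Set ℂ} (hS : Cov F S) (p : ℂ) {τ : ℂ}
    (hτ : τ ≠ 0) :
    ∀ᶠ t in 𝓝[>] (0 : ℝ), jj S (p + (t : ℝ) * τ) τ = jj S p τ ∧
      jj S (p + (t : ℝ) * τ) (-τ) = - jj S p τ := by
  filter_upwards [qv_move hS (p := p) (bs_I hτ), qv_move hS (p := p) (bs_negI hτ)] with t h1 h2
  unfold jj
  have e1 : Complex.I * (-τ) = -(Complex.I * τ) := by ring
  have e2 : -(Complex.I * (-τ)) = Complex.I * τ := by ring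
  rw [e1, neg_neg, h1.1, h1.2, h2.1, h2.2]
  exact ⟨rfl, by ring⟩

theorem qv_far {S : Set ℂ} {R : ℝ} (hR : ∀ z ∈ S, ‖z‖ ≤ R) {p : ℂ} (hp : R < ‖p‖) (τ ν : ℂ) :
    qv S p τ ν = 0 := by
  unfold qv
  rw [if_neg]
  intro h
  have h1 : ∀ᶠ z in sec p τ ν, R < ‖z‖ :=
    sec_le_nhds p τ ν (continuous_norm.continuousAt.eventually (lt_mem_nhds hp))
  obtain ⟨z, hz1, hz2⟩ := (h.and h1).exists
  have := hR z hz1
  linarith

theorem jj_far {S : Set ℂ} {R : ℝ} (hR : ∀ z ∈ S, ‖z‖ ≤ R) {p : ℂ} (hp : R < ‖p‖) (τ : ℂ) :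
    jj S p τ = 0 := by
  unfold jj
  rw [qv_far hR hp, qv_far hR hp, sub_zero]

theorem line_sum {S : Set ℂ} (hS : PolySet S) {R : ℝ} (hR : ∀ z ∈ S, ‖z‖ ≤ R) (τ : Circle)
    (c : ℝ) : ∑ᶠ x : ℝ, NN S (((x : ℂ) + c * Complex.I) * τ) τ = 0 := by
  obtain ⟨F, hF⟩ := hS
  have hτ := circle_ne τ
  have key := telescope (fun x => jj S (((x : ℂ) + c * Complex.I) * τ) τ)
    (fun x => - jj S (((x : ℂ) + c * Complex.I) * τ) (-τ)) ?_ ?_ ?_ ?_
  · have e : ∀ x : ℝ, NN S (((x : ℂ) + c * Complex.I) * τ) τ =
        jj S (((x : ℂ) + c * Complex.I) * τ) τ - - jj S (((x : ℂ) + c * Complex.I) * τ) (-τ) := by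
      intro x; unfold NN; ring
    rw [finsum_congr e]
    exact key
  · intro x
    filter_upwards [jj_move hF (((x : ℂ) + c * Complex.I) * τ) hτ] with t ht
    have e : (((x + t : ℝ) : ℂ) + c * Complex.I) * τ = ((x : ℂ) + c * Complex.I) * τ + t * τ := by
      push_cast; ring
    rw [e, ht.1, ht.2]
    simp
  · intro x
    filter_upwards [jj_move hF (((x : ℂ) + c * Complex.I) * τ) (neg_ne_zero.2 hτ)] with t ht
    have e : (((x - t : ℝ) : ℂ) + c * Complex.I) * τ =
        ((x : ℂ) + c * Complex.I) * τ + t * (-τ) := by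
      push_cast; ring
    rw [neg_neg] at ht
    rw [e, ht.1, ht.2]
    simp
  · refine ⟨R, fun x hx => ?_⟩
    have : R < ‖((x : ℂ) + c * Complex.I) * τ‖ := by
      rw [norm_mul, Circle.norm_coe, mul_one]
      calc R < |x| := hx
        _ = |((x : ℂ) + c * Complex.I).re| := by simp
        _ ≤ _ := Complex.abs_re_le_norm _
    rw [jj_far hR this, jj_far hR this]
    simp
  · have h := NN_support_finite ⟨F, hF⟩
    have h2 : Function.Injective fun x : ℝ =>
        ((((x : ℂ) + c * Complex.I) * τ, τ) : ℂ × Circle) := by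
      intro x y hxy
      simp only [Prod.mk.injEq, and_true] at hxy
      have := mul_right_cancel₀ hτ hxy
      have := add_right_cancel this
      exact_mod_cast this
    have h3 := h.preimage (h2.injOn)
    apply h3.subset
    intro x hx
    simp only [Set.mem_preimage, Set.mem_ofPred_eq] at hx ⊢
    unfold NN
    intro h0
    apply hx
    linarith

theorem plane_sum {S : Set ℂ} (hS : PolySet S) {R : ℝ} (hR : ∀ z ∈ S, ‖z‖ ≤ R) (τ : Circle) :
    ∑ᶠ p : ℂ, NN S p τ = 0 := by
  have hτ := circle_ne τ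
  let e : ℝ × ℝ ≃ ℂ := ((Equiv.prodComm ℝ ℝ).trans Complex.equivRealProd.symm).trans
    (Equiv.mulRight₀ (τ : ℂ) hτ)
  have he : ∀ x : ℝ × ℝ, e x = ((x.2 : ℂ) + x.1 * Complex.I) * τ := by
    intro x
    simp [e, Complex.equivRealProd_symm_apply]
  rw [← finsum_comp_equiv e]
  have hfin : (Function.support fun x : ℝ × ℝ => NN S (e x) τ).Finite := by
    have h := NN_support_finite hS
    have h2 : Function.Injective fun x : ℝ × ℝ => ((e x, τ) : ℂ × Circle) := by
      intro x y hxy
      simp only [Prod.mk.injEq, and_true] at hxy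
      exact e.injective hxy
    exact (h.preimage h2.injOn).subset (fun x hx => hx)
  rw [finsum_curry _ hfin]
  have : ∀ c : ℝ, ∑ᶠ x : ℝ, NN S (e (c, x)) τ = 0 := by
    intro c
    rw [← line_sum hS hR τ c]
    apply finsum_congr
    intro x
    rw [he]
  rw [finsum_congr this]
  simp

/-- summation against a function of the direction only vanishes -/
theorem dir_sum {S : Set ℂ} (hS : PolySet S) {R : ℝ} (hR : ∀ z ∈ S, ‖z‖ ≤ R)
    (G : Circle → ℂ) : ∑ᶠ x : ℂ × Circle, (NN S x.1 x.2 : ℂ) * G x.2 = 0 := by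
  rw [← finsum_comp_equiv (Equiv.prodComm Circle ℂ)]
  have hfin : (Function.support fun x : Circle × ℂ =>
      (NN S ((Equiv.prodComm Circle ℂ) x).1 ((Equiv.prodComm Circle ℂ) x).2 : ℂ) *
        G ((Equiv.prodComm Circle ℂ) x).2).Finite := by
    have h := (NN_support_finite hS).preimage (Equiv.prodComm Circle ℂ).injective.injOn
    apply h.subset
    intro x hx
    simp only [Function.mem_support] at hx
    simp only [Set.mem_preimage, Set.mem_ofPred_eq]
    intro h0
    apply hx
    rw [h0]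
    simp
  rw [finsum_curry _ hfin]
  have : ∀ τ : Circle, ∑ᶠ p : ℂ,
      (NN S ((Equiv.prodComm Circle ℂ) (τ, p)).1 ((Equiv.prodComm Circle ℂ) (τ, p)).2 : ℂ) *
        G ((Equiv.prodComm Circle ℂ) (τ, p)).2 = 0 := by
    intro τ
    simp only [Equiv.prodComm_apply, Prod.swap_prod_mk]
    have h1 := plane_sum hS hR τ
    have hf : (Function.support fun p : ℂ => NN S p τ).Finite := by
      have h := NN_support_finite hS
      have h2 : Function.Injective fun p : ℂ => ((p, τ) : ℂ × Circle) := by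
        intro x y hxy
        simpa using hxy
      exact (h.preimage h2.injOn).subset (fun x hx => hx)
    have hf' : (Function.support fun p : ℂ => (NN S p τ : ℂ)).Finite := by
      apply hf.subset
      intro p hp
      simp only [Function.mem_support] at hp ⊢
      intro h0
      apply hp
      rw [h0]; simp
    rw [← finsum_mul]
    have : ∑ᶠ p : ℂ, (NN S p τ : ℂ) = ((∑ᶠ p : ℂ, NN S p τ : ℤ) : ℂ) := by
      have := (Int.castAddHom ℂ).map_finsum hf
      simpa using this.symm
    rw [this, h1]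
    simp
  rw [finsum_congr this]
  simp

end Pool.Agent.H86.AP
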