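import Pool.Agent.H86.AP.Df
import Pool.Agent.H57.GP.Wdf

/-!
# H86-AP-STP: the two cases of the step theorem of AP (definitions; the theorem is `step_pf` of H19/ST/Stf)

`q : P →* G` onto, `(b, w)` a state on `G`. The central element `y` of `G` of order `p`, `π : G →* G'` with kernel generated by `y`, `j₀` the class of the lifts of `y`.
`Ev L Fr H F T co u = ∑_{Θ ∈ HS L H T} co Θ * F (Θ (F_u))`. `mr Θ F` (H57/GP/Wdf): the mean of `F` over the image of `Θ`.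
* MAIN CASE `Mn` (`ν = d μ` on `G'`): up to a combination of states on `G'`, the sum `BB` over `T ∪ {u}` is `Ev` (`u` good, `u ∉ T`), with coefficients supported on the `Θ` with `mr Θ F = 0`
  (if every class different from `j₀` occurs in `T`).
* NEGLIGIBLE CASE `Ng` (`ν` not a coboundary on `G'`): the products `BB(T ∪ {u}) * conj BB(T' ∪ {u})` are of this form.
-/

set_option autoImplicit false
set_option linter.dupNamespace false

open scoped NumberField ComplexConjugate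
open IsDedekindDomain
open scoped Classical

noncomputable section

namespace H86.AP

open H63.MA H38.BB H38.BG H57.PC H57.BRA H57.GP H77.PC3 H77.WD Pool.Agent.H19.NF
  Pool.Agent.H19.AB

variable {K : Type} [Field K] [NumberField K] {Ω : Type} [Field Ω] [Algebra K Ω]
  {p m N : ℕ} {ζ : K}

/-- `F` is a class function on a group of exponent `p` -/
structure Cz (p : ℕ) (H : Type) [Group H] (F : H → ℂ) : Prop where
  exp : ∀ h : H, h ^ p = 1
  cls : ∀ g h : H, F (g * h * g⁻¹) = F h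

/-- the values of `F` at the Frobenius elements -/
def Ev {D : RD0 K p ζ} (L : LDs D Ω) (Fr : FR L) (H : Type) [Group H] (F : H → ℂ)
    (T : Finset (Pl K)) (co : (Gal(Ω/K) →* H) → ℂ) (u : Pl K) : ℂ :=
  ∑ Θ ∈ HS L H T, co Θ * F (Θ (Fr.F u))

/-- the main case -/
def Mn {D : RD0 K p ζ} (L : LDs D Ω) (Fr : FR L) {P : Type} [Group P] (c : CL p N P)
    (j₀ : Fin N) (X : Finset (Pl K) → (Pl K → P) → ℂ) : Prop :=
  ∃ (H : Type) (_ : Group H) (_ : Fintype H) (F : H → ℂ) (C : ℝ), Cz p H F ∧ 1 ≤ C ∧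
    ∀ (T : Finset (Pl K)) (γ : Pl K → P), (∀ v ∈ T, v ∉ D.S0) →
      ∃ co : (Gal(Ω/K) →* H) → ℂ, (∀ Θ, ‖co Θ‖ ≤ C ^ (T.card + 1)) ∧
        (∀ Θ, co Θ ≠ 0 → (∀ j, j ≠ j₀ → ∃ v ∈ T, γ v = c.g j) → mr Θ F = 0) ∧
        ∀ u, D.Gd u → u ∉ T →
          X (insert u T) (Function.update γ u (c.g j₀)) = Ev L Fr H F T co u

/-- the negligible case -/
def Ng {D : RD0 K p ζ} (L : LDs D Ω) (Fr : FR L) {P : Type} [Group P] (c : CL p N P)
    (j₀ : Fin N) (X : Finset (Pl K) → (Pl K → P) → ℂ) : Prop :=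
  ∃ (H : Type) (_ : Group H) (_ : Fintype H) (F : H → ℂ) (C : ℝ), Cz p H F ∧ 1 ≤ C ∧
    ∀ (T T' : Finset (Pl K)) (γ γ' : Pl K → P), (∀ v ∈ T, v ∉ D.S0) → (∀ v ∈ T', v ∉ D.S0) →
      ∃ co : (Gal(Ω/K) →* H) → ℂ, (∀ Θ, ‖co Θ‖ ≤ C ^ (T.card + T'.card + 1)) ∧
        (∀ Θ, co Θ ≠ 0 → (∀ j, j ≠ j₀ → ∃ v ∈ T, v ∉ T' ∧ γ v = c.g j) →
          (∀ j, j ≠ j₀ → ∃ v ∈ T', v ∉ T ∧ γ' v = c.g j) → mr Θ F = 0) ∧
        ∀ u, D.Gd u → u ∉ T → u ∉ T' →
          X (insert u T) (Function.update γ u (c.g j₀)) *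
            conj (X (insert u T') (Function.update γ' u (c.g j₀))) =
          Ev L Fr H F (T ∪ T') co u

end H86.AP
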