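import Pool.Agent.H86.AP.Area

/-!
The symmetry group of a polygonal tile is finite; the fundamental piece.
-/

namespace Pool.Agent.H86.AP

open Set Filter Topology ComplexConjugate MeasureTheory

theorem mem_stab {P : Set ℂ} {φ : ℂ ≃ᵢ ℂ} : φ ∈ stab P ↔ φ '' P = P := Iff.rfl

/-- `P` is a compact polygonal set with interior points -/
structure Tile (P : Set ℂ) : Prop where
  compact : IsCompact P
  inter : (interior P).Nonempty
  poly : PolySet P

theorem Tile.volume_pos {P : Set ℂ} (h : Tile P) : 0 < volume P :=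
  (isOpen_interior.measure_pos volume h.inter).trans_le (measure_mono interior_subset)

theorem Tile.volume_ne_top {P : Set ℂ} (h : Tile P) : volume P ≠ ⊤ :=
  h.compact.measure_lt_top.ne

/-- fixed point -/
theorem Tile.exists_fixed {P : Set ℂ} (h : Tile P) : ∃ c : ℂ, ∀ φ ∈ stab P, φ c = c := by
  set V : ℝ := (volume P).toReal with hV
  have hVpos : 0 < V := ENNReal.toReal_pos h.volume_pos.ne' h.volume_ne_top
  set c : ℂ := (V : ℂ)⁻¹ * ∫ z in P, z with hc
  refine ⟨c, fun φ hφ => ?_⟩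
  set L := φ.toRealLinearIsometryEquiv with hL
  have hφL : ∀ z, φ z = L z + φ 0 := by
    intro z; rw [hL, IsometryEquiv.toRealLinearIsometryEquiv_apply]; ring
  have hint : IntegrableOn (fun z : ℂ => z) P := continuous_id.continuousOn.integrableOn_compact h.compact
  have hmp : MeasurePreserving φ volume volume := by
    refine ⟨φ.continuous.measurable, ?_⟩
    ext S hS
    rw [Measure.map_apply φ.continuous.measurable hS]
    have : φ ⁻¹' S = φ.symm '' S := by
      ext z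
      simp only [Set.mem_preimage, Set.mem_image]
      constructor
      · intro hz; exact ⟨φ z, hz, by simp⟩
      · rintro ⟨w, hw, rfl⟩; simpa using hw
    rw [this, volume_image]
  have hpre : φ ⁻¹' P = P := by
    have h1 : φ '' P = P := hφ
    conv_lhs => rw [← h1]
    exact Set.preimage_image_eq _ φ.injective
  have e1 : ∫ z in P, φ z = ∫ z in P, z := by
    have := hmp.setIntegral_preimage_emb φ.toHomeomorph.measurableEmbedding
      (fun z : ℂ => z) P
    rw [hpre] at this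
    exact this
  have e2 : ∫ z in P, φ z = L (∫ z in P, z) + (V : ℂ) * φ 0 := by
    rw [setIntegral_congr_fun h.compact.measurableSet (fun z _ => hφL z)]
    have hL1 : IntegrableOn (fun z : ℂ => L z) P :=
      L.continuous.continuousOn.integrableOn_compact h.compact
    rw [integral_add hL1 (integrableOn_const h.volume_ne_top)]
    rw [setIntegral_const]
    congr 1
    exact (L.toContinuousLinearEquiv.toContinuousLinearMap).integral_comp_comm hint
  have hVc : ∫ z in P, z = (V : ℂ) * c := by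
    rw [hc, ← mul_assoc, mul_inv_cancel₀ (by exact_mod_cast hVpos.ne'), one_mul]
  have e3 : L ((V : ℂ) * c) = (V : ℂ) * L c := by
    have := L.map_smul V c
    simpa using this
  rw [e1, hVc, e3] at e2
  have e4 : (V : ℂ) * (φ c - c) = 0 := by
    rw [hφL c]
    linear_combination -e2
  have := (mul_eq_zero.1 e4).resolve_left (by exact_mod_cast hVpos.ne')
  exact sub_eq_zero.1 this

theorem circle_line_finite {q : ℝ × ℝ × ℝ} (hq : ndg q) (c : ℂ) (R : ℝ) :
    {z : ℂ | hh q z = 0 ∧ ‖z - c‖ = R}.Finite := by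
  have hn : q.1 ^ 2 + q.2.1 ^ 2 ≠ 0 := by
    intro h
    have h1 : q.1 = 0 := by nlinarith [sq_nonneg q.1, sq_nonneg q.2.1]
    have h2 : q.2.1 = 0 := by nlinarith [sq_nonneg q.1, sq_nonneg q.2.1]
    rcases hq with hq | hq
    · exact hq h1
    · exact hq h2
  set C : ℝ := R ^ 2 * (q.1 ^ 2 + q.2.1 ^ 2) - (q.2.2 - q.1 * c.re - q.2.1 * c.im) ^ 2 with hC
  have hfin : {t : ℝ | t ^ 2 = C}.Finite := by
    by_cases hne : {t : ℝ | t ^ 2 = C}.Nonempty
    · obtain ⟨t₀, h0⟩ := hne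
      apply (Set.toFinite {t₀, -t₀}).subset
      intro t ht
      simp only [Set.mem_ofPred_eq] at h0 ht
      simp only [Set.mem_insert_iff, Set.mem_singleton_iff]
      exact sq_eq_sq_iff_eq_or_eq_neg.1 (ht.trans h0.symm)
    · rw [Set.not_nonempty_iff_eq_empty.1 hne]; simp
  refine Set.Finite.of_finite_image (f := fun z : ℂ => -q.2.1 * (z.re - c.re) + q.1 * (z.im - c.im))
    (hfin.subset ?_) ?_
  · rintro _ ⟨z, ⟨h1, h2⟩, rfl⟩
    simp only [Set.mem_ofPred_eq]
    have h3 : (z.re - c.re) ^ 2 + (z.im - c.im) ^ 2 = R ^ 2 := by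
      rw [← h2, Complex.sq_norm, Complex.normSq_apply, Complex.sub_re, Complex.sub_im]; ring
    simp only [hh] at h1
    have h4 : q.2.2 - q.1 * c.re - q.2.1 * c.im = q.1 * (z.re - c.re) + q.2.1 * (z.im - c.im) := by
      linarith
    rw [hC, h4, ← h3]
    ring
  · rintro z ⟨h1, _⟩ w ⟨h2, _⟩ h3
    simp only at h3
    simp only [hh] at h1 h2
    apply Complex.ext
    · have : (q.1 ^ 2 + q.2.1 ^ 2) * (z.re - w.re) = 0 := by
        linear_combination q.1 * h1 - q.1 * h2 - q.2.1 * h3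
      have := (mul_eq_zero.1 this).resolve_left hn
      linarith
    · have : (q.1 ^ 2 + q.2.1 ^ 2) * (z.im - w.im) = 0 := by
        linear_combination q.2.1 * h1 - q.2.1 * h2 + q.1 * h3
      have := (mul_eq_zero.1 this).resolve_left hn
      linarith

theorem Tile.stab_finite {P : Set ℂ} (h : Tile P) : {φ : ℂ ≃ᵢ ℂ | φ ∈ stab P}.Finite := by
  obtain ⟨c, hc⟩ := h.exists_fixed
  obtain ⟨F, hF⟩ := h.poly
  have hne : P.Nonempty := h.inter.mono interior_subset
  obtain ⟨m, hm, hmax⟩ := h.compact.exists_isMaxOn hne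
    (f := fun z => ‖z - c‖) (by fun_prop)
  set R := ‖m - c‖ with hR
  have hmax' : ∀ z ∈ P, ‖z - c‖ ≤ R := fun z hz => hmax hz
  -- `m ≠ c`
  have key : ∀ z ∈ interior P, ‖z - c‖ < R := by
    intro z hz
    rw [mem_interior_iff_mem_nhds, Metric.mem_nhds_iff] at hz
    obtain ⟨ε, hε, hb⟩ := hz
    by_cases hzc : z = c
    · have h1 : z + (ε / 2 : ℝ) ∈ P := by
        apply hb
        rw [Metric.mem_ball, dist_eq_norm, add_sub_cancel_left, Complex.norm_real,
          Real.norm_eq_abs, abs_of_pos (by positivity)]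
        linarith
      have h2 := hmax' _ h1
      rw [hzc, add_sub_cancel_left, Complex.norm_real, Real.norm_eq_abs,
        abs_of_pos (by positivity)] at h2
      rw [hzc, sub_self, norm_zero]
      linarith
    · have hpos : 0 < ‖z - c‖ := norm_pos_iff.2 (sub_ne_zero.2 hzc)
      have h1 : z + ((ε / 2 / ‖z - c‖ : ℝ) : ℂ) * (z - c) ∈ P := by
        apply hb
        rw [Metric.mem_ball, dist_eq_norm, add_sub_cancel_left, norm_mul, Complex.norm_real,
          Real.norm_eq_abs, abs_of_pos (by positivity), div_mul_cancel₀ _ hpos.ne']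
        linarith
      have h2 := hmax' _ h1
      have h3 : z + ((ε / 2 / ‖z - c‖ : ℝ) : ℂ) * (z - c) - c =
          ((1 + ε / 2 / ‖z - c‖ : ℝ) : ℂ) * (z - c) := by push_cast; ring
      rw [h3, norm_mul, Complex.norm_real, Real.norm_eq_abs, abs_of_pos (by positivity), add_mul,
        div_mul_cancel₀ _ hpos.ne', one_mul] at h2
      linarith
  have hRpos : 0 < R := by
    obtain ⟨z, hz⟩ := h.inter
    exact (norm_nonneg _).trans_lt (key z hz)
  have hmc : m - c ≠ 0 := norm_pos_iff.1 hRpos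
  have hMfin : {z : ℂ | z ∈ P ∧ ‖z - c‖ = R}.Finite := by
    apply Set.Finite.subset (Set.Finite.biUnion (Finset.finite_toSet F)
      (fun q hq => circle_line_finite (hF.1 q hq) c R))
    rintro z ⟨hz1, hz2⟩
    have hzf : z ∈ frontier P := by
      refine ⟨subset_closure hz1, fun hz3 => ?_⟩
      have := key z hz3
      linarith
    obtain ⟨q, hq, h0⟩ := hF.2 z hzf
    simp only [Set.mem_iUnion]
    exact ⟨q, hq, h0, hz2⟩
  have hmem : ∀ φ ∈ stab P, φ m ∈ {z : ℂ | z ∈ P ∧ ‖z - c‖ = R} := by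
    intro φ hφ
    refine ⟨?_, ?_⟩
    · rw [← mem_stab.1 hφ]; exact ⟨m, hm, rfl⟩
    · have : ‖φ m - φ c‖ = ‖m - c‖ := by
        rw [← dist_eq_norm, ← dist_eq_norm, φ.dist_eq]
      rw [hc φ hφ] at this
      exact this
  have hdir : {φ : ℂ ≃ᵢ ℂ | φ ∈ stab P ∧ ∃ u w, CxDir φ u w}.Finite := by
    apply Set.Finite.of_finite_image (f := fun φ : ℂ ≃ᵢ ℂ => φ m)
    · apply hMfin.subset
      rintro _ ⟨φ, ⟨hφ, _⟩, rfl⟩
      exact hmem φ hφ
    · rintro φ ⟨hφ, u, w, hu⟩ ψ ⟨hψ, u', w', hu'⟩ heq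
      simp only at heq
      have f1 := hc φ hφ
      have f2 := hc ψ hψ
      rw [hu] at f1
      rw [hu'] at f2
      rw [hu, hu'] at heq
      have e1 : (u - u') * (m - c) = 0 := by linear_combination heq - f1 + f2
      have e2 := sub_eq_zero.1 ((mul_eq_zero.1 e1).resolve_right hmc)
      have e3 : w = w' := by rw [e2] at f1; linear_combination f1 - f2
      ext z
      rw [hu, hu', e2, e3]
  have hopp : {φ : ℂ ≃ᵢ ℂ | φ ∈ stab P ∧ ∃ u w, CxOpp φ u w}.Finite := by
    apply Set.Finite.of_finite_image (f := fun φ : ℂ ≃ᵢ ℂ => φ m)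
    · apply hMfin.subset
      rintro _ ⟨φ, ⟨hφ, _⟩, rfl⟩
      exact hmem φ hφ
    · rintro φ ⟨hφ, u, w, hu⟩ ψ ⟨hψ, u', w', hu'⟩ heq
      simp only at heq
      have f1 := hc φ hφ
      have f2 := hc ψ hψ
      rw [hu] at f1
      rw [hu'] at f2
      rw [hu, hu'] at heq
      have e1 : (u - u') * (conj m - conj c) = 0 := by linear_combination heq - f1 + f2
      have hmc' : conj m - conj c ≠ 0 := by
        rw [← map_sub]
        exact (map_ne_zero_iff _ (starRingEnd ℂ).injective).2 hmc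
      have e2 := sub_eq_zero.1 ((mul_eq_zero.1 e1).resolve_right hmc')
      have e3 : w = w' := by rw [e2] at f1; linear_combination f1 - f2
      ext z
      rw [hu, hu', e2, e3]
  apply (hdir.union hopp).subset
  intro φ hφ
  obtain ⟨u, w, _, h1 | h1⟩ := cx_classify φ
  · exact Or.inl ⟨hφ, u, w, h1⟩
  · exact Or.inr ⟨hφ, u, w, h1⟩

theorem fix_line {φ : ℂ ≃ᵢ ℂ} (hφ : φ ≠ 1) : ∃ q : ℝ × ℝ × ℝ, ndg q ∧ ∀ z, φ z = z → hh q z = 0 := by
  obtain ⟨u, w, hu, h | h⟩ := cx_classify φ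
  · by_cases h1 : u = 1
    · refine ⟨(1, 0, 0), Or.inl one_ne_zero, fun z hz => ?_⟩
      rw [h, h1, one_mul] at hz
      have : w = 0 := by linear_combination hz
      exact absurd (cx_eq_one (by rw [h1, this] at h; exact h)) hφ
    · refine ⟨(1, 0, (w / (1 - u)).re), Or.inl one_ne_zero, fun z hz => ?_⟩
      rw [h] at hz
      have h2 : 1 - u ≠ 0 := sub_ne_zero.2 (Ne.symm h1)
      have : z = w / (1 - u) := by
        rw [eq_div_iff h2]; linear_combination -hz
      simp [hh, ← this]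
  · by_cases h1 : u = 1
    · refine ⟨(0, 2, w.im), Or.inr two_ne_zero, fun z hz => ?_⟩
      rw [h, h1, one_mul] at hz
      have := congrArg Complex.im hz
      simp only [Complex.add_im, Complex.conj_im] at this
      simp only [hh]
      linarith
    · refine ⟨(1 - u.re, -u.im, w.re), ?_, fun z hz => ?_⟩
      · by_contra hcon
        unfold ndg at hcon
        push Not at hcon
        apply h1
        apply Complex.ext
        · simp only [Complex.one_re]; linarith [hcon.1]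
        · simp only [Complex.one_im]; linarith [hcon.2]
      · rw [h] at hz
        have := congrArg Complex.re hz
        simp only [Complex.add_re, Complex.mul_re, Complex.conj_re, Complex.conj_im] at this
        simp only [hh]
        linarith

theorem exists_off_lines (E : Finset (ℝ × ℝ × ℝ)) (hE : ∀ q ∈ E, ndg q) {U : Set ℂ}
    (hU : IsOpen U) (hne : U.Nonempty) : ∃ z ∈ U, ∀ q ∈ E, hh q z ≠ 0 := by
  obtain ⟨p, hp⟩ := hne
  have h1 : ∀ᶠ z in sec p 1 (Complex.I * 1), ∀ q ∈ E, hh q z ≠ 0 := by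
    rw [Filter.eventually_all_finset]
    intro q hq
    exact sec_ne (hE q hq) (bs_I one_ne_zero)
  have h2 : ∀ᶠ z in sec p 1 (Complex.I * 1), z ∈ U := sec_le_nhds p _ _ (hU.mem_nhds hp)
  obtain ⟨z, hz1, hz2⟩ := (h1.and h2).exists
  exact ⟨z, hz2, hz1⟩

/-- the bisector of two points -/
def bis (x y : ℂ) : ℝ × ℝ × ℝ :=
  (2 * (y.re - x.re), 2 * (y.im - x.im), y.re ^ 2 + y.im ^ 2 - x.re ^ 2 - x.im ^ 2)

theorem hh_bis (x y z : ℂ) : hh (bis x y) z = ‖z - x‖ ^ 2 - ‖z - y‖ ^ 2 := by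
  rw [Complex.sq_norm, Complex.sq_norm, Complex.normSq_apply, Complex.normSq_apply]
  simp only [hh, bis, Complex.sub_re, Complex.sub_im]
  ring

theorem ndg_bis {x y : ℂ} (h : x ≠ y) : ndg (bis x y) := by
  by_contra hcon
  unfold ndg bis at hcon
  push Not at hcon
  apply h
  apply Complex.ext
  · linarith [hcon.1]
  · linarith [hcon.2]

theorem norm_lt_iff (x y z : ℂ) : ‖z - x‖ < ‖z - y‖ ↔ hh (bis x y) z < 0 := by
  rw [hh_bis]
  constructor
  · intro h
    have := norm_nonneg (z - x)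
    nlinarith
  · intro h
    have h1 := norm_nonneg (z - x)
    have h2 := norm_nonneg (z - y)
    nlinarith

/-- the fundamental piece of `P` with respect to its symmetry group and the base point `b` -/
def piece (P : Set ℂ) (b : ℂ) : Set ℂ :=
  interior P ∩ {z | ∀ φ ∈ stab P, φ ≠ 1 → ‖z - b‖ < ‖z - φ b‖}

theorem Tile.exists_base {P : Set ℂ} (h : Tile P) : ∃ b : ℂ, ∀ φ ∈ stab P, φ ≠ 1 → φ b ≠ b := by
  classical
  choose q hq using fun φ : {φ : ℂ ≃ᵢ ℂ // φ ≠ 1} => fix_line φ.2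
  set E : Finset (ℝ × ℝ × ℝ) := h.stab_finite.toFinset.image
    (fun φ => if hφ : φ ≠ 1 then q ⟨φ, hφ⟩ else (1, 0, 0)) with hE
  obtain ⟨b, _, hb⟩ := exists_off_lines E (by
    intro x hx
    rw [hE, Finset.mem_image] at hx
    obtain ⟨φ, _, rfl⟩ := hx
    by_cases hφ : φ ≠ 1
    · rw [dif_pos hφ]; exact (hq ⟨φ, hφ⟩).1
    · rw [dif_neg hφ]; exact Or.inl one_ne_zero) isOpen_univ ⟨0, trivial⟩
  refine ⟨b, fun φ hφ hne hfix => ?_⟩
  apply hb (q ⟨φ, hne⟩)
  · rw [hE, Finset.mem_image]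
    exact ⟨φ, by simpa using hφ, by rw [dif_pos hne]⟩
  · exact (hq ⟨φ, hne⟩).2 b hfix

theorem Tile.isOpen_piece {P : Set ℂ} (h : Tile P) (b : ℂ) : IsOpen (piece P b) := by
  unfold piece
  apply isOpen_interior.inter
  have : {z : ℂ | ∀ φ ∈ stab P, φ ≠ 1 → ‖z - b‖ < ‖z - φ b‖} =
      ⋂ φ ∈ {φ : ℂ ≃ᵢ ℂ | φ ∈ stab P}, {z : ℂ | φ ≠ 1 → ‖z - b‖ < ‖z - φ b‖} := by
    ext z; simp
  rw [this]
  apply h.stab_finite.isOpen_biInter
  intro φ _
  by_cases hφ : φ = 1
  · simp [hφ]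
  · have : {z : ℂ | φ ≠ 1 → ‖z - b‖ < ‖z - φ b‖} = {z : ℂ | ‖z - b‖ < ‖z - φ b‖} := by
      ext z; simp [hφ]
    rw [this]
    exact isOpen_lt (by fun_prop) (by fun_prop)

theorem Tile.polySet_piece {P : Set ℂ} (h : Tile P) {b : ℂ}
    (hb : ∀ φ ∈ stab P, φ ≠ 1 → φ b ≠ b) : PolySet (piece P b) := by
  classical
  obtain ⟨F, hF⟩ := h.poly
  refine ⟨F ∪ (h.stab_finite.toFinset.filter (· ≠ 1)).image (fun φ => bis b (φ b)), ?_, ?_⟩
  · intro q hq
    rw [Finset.mem_union, Finset.mem_image] at hq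
    rcases hq with hq | ⟨φ, hφ, rfl⟩
    · exact hF.1 q hq
    · rw [Finset.mem_filter] at hφ
      exact ndg_bis (hb φ (by simpa using hφ.1) hφ.2).symm
  · intro z hz
    rw [(h.isOpen_piece b).frontier_eq] at hz
    obtain ⟨hz1, hz2⟩ := hz
    have hcl : piece P b ⊆ P ∩ {z | ∀ φ ∈ stab P, φ ≠ 1 → ‖z - b‖ ≤ ‖z - φ b‖} := by
      rintro w ⟨h1, h2⟩
      exact ⟨interior_subset h1, fun φ hφ hne => (h2 φ hφ hne).le⟩
    have hclosed : IsClosed (P ∩ {z | ∀ φ ∈ stab P, φ ≠ 1 → ‖z - b‖ ≤ ‖z - φ b‖}) := by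
      apply h.compact.isClosed.inter
      have : {z : ℂ | ∀ φ ∈ stab P, φ ≠ 1 → ‖z - b‖ ≤ ‖z - φ b‖} =
          ⋂ φ : ℂ ≃ᵢ ℂ, ⋂ _ : φ ∈ stab P, ⋂ _ : φ ≠ 1, {z : ℂ | ‖z - b‖ ≤ ‖z - φ b‖} := by
        ext z; simp
      rw [this]
      exact isClosed_iInter fun φ => isClosed_iInter fun _ => isClosed_iInter fun _ =>
        isClosed_le (by fun_prop) (by fun_prop)
    obtain ⟨k1, k2⟩ := closure_minimal hcl hclosed hz1
    by_cases hi : z ∈ interior P
    · have : ∃ φ ∈ stab P, φ ≠ 1 ∧ ¬ ‖z - b‖ < ‖z - φ b‖ := by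
        by_contra hcon
        push Not at hcon
        exact hz2 ⟨hi, hcon⟩
      obtain ⟨φ, hφ, hne, hlt⟩ := this
      refine ⟨bis b (φ b), ?_, ?_⟩
      · rw [Finset.mem_union, Finset.mem_image]
        right
        exact ⟨φ, by rw [Finset.mem_filter]; exact ⟨by simpa using hφ, hne⟩, rfl⟩
      · rw [hh_bis]
        have := le_antisymm (k2 φ hφ hne) (not_lt.1 hlt)
        rw [this]; ring
    · obtain ⟨q, hq, h0⟩ := hF.2 z ⟨subset_closure k1, hi⟩
      exact ⟨q, Finset.mem_union_left _ hq, h0⟩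

end Pool.Agent.H86.AP
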