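import Pool.Agent.H86.AP.Sym

/-!
From a tiling with three mirrors to a dissection of the triangle bounded by the mirrors.
-/

namespace Pool.Agent.H86.AP

open Set Filter Topology ComplexConjugate MeasureTheory

theorem interior_image (φ : ℂ ≃ᵢ ℂ) (S : Set ℂ) : interior (φ '' S) = φ '' interior S := by
  have := φ.toHomeomorph.image_interior S
  exact this.symm

theorem iso_norm (φ : ℂ ≃ᵢ ℂ) (x y : ℂ) : ‖φ x - φ y‖ = ‖x - y‖ := by
  rw [← dist_eq_norm, ← dist_eq_norm, φ.dist_eq]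

theorem mul_image (a b : ℂ ≃ᵢ ℂ) (t : Set ℂ) : (a * b : ℂ ≃ᵢ ℂ) '' t = a '' (b '' t) := by
  ext z
  simp [IsometryEquiv.mul_apply]

theorem stab_of_eq {P : Set ℂ} {ψ ψ' : ℂ ≃ᵢ ℂ} (h : ψ '' P = ψ' '' P) : ψ⁻¹ * ψ' ∈ stab P := by
  rw [mem_stab, mul_image, ← h, ← mul_image, inv_mul_cancel]
  simp

theorem piece_disjoint {P : Set ℂ} {b : ℂ} {T : Set (Set ℂ)} (hT : IsMonohedral P T)
    {ψ ψ' : ℂ ≃ᵢ ℂ} (h1 : ψ '' P ∈ T) (h2 : ψ' '' P ∈ T) (hne : ψ ≠ ψ') :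
    Disjoint (ψ '' piece P b) (ψ' '' piece P b) := by
  rw [Set.disjoint_left]
  rintro z ⟨x, hx, hxz⟩ ⟨y, hy, hyz⟩
  by_cases heq : ψ '' P = ψ' '' P
  · have hs := stab_of_eq heq
    set s := ψ⁻¹ * ψ' with hsdef
    have hs1 : s ≠ 1 := by
      intro h
      apply hne
      rw [hsdef] at h
      exact (inv_mul_eq_one.1 h)
    have hψ' : ψ' = ψ * s := by rw [hsdef]; group
    have k1 := hx.2 s hs hs1
    have k2 := hy.2 s⁻¹ ((stab P).inv_mem hs) (inv_ne_one.2 hs1)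
    have e1 : x = s y := by
      apply ψ.injective
      rw [hxz, ← hyz, hψ', IsometryEquiv.mul_apply]
    have e2 : ‖x - b‖ = ‖y - s⁻¹ b‖ := by
      rw [e1, ← iso_norm s y (s⁻¹ b)]
      simp
    have e3 : ‖x - s b‖ = ‖y - b‖ := by
      rw [e1, iso_norm]
    rw [e2, e3] at k1
    exact lt_asymm k1 k2
  · have hd := hT.1.2.2.2 _ h1 _ h2 heq
    rw [interior_image, interior_image, Set.disjoint_left] at hd
    exact hd ⟨x, hx.1, hxz⟩ ⟨y, hy.1, hyz⟩

/-- the lines on which the piece containing a point of the tile `ψ₀ '' P` is ambiguous -/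
def ambSet (P : Set ℂ) (b : ℂ) (ψ₀ : ℂ ≃ᵢ ℂ) : Set (ℝ × ℝ × ℝ) :=
  {q | ∃ s ∈ stab P, ∃ s' ∈ stab P, s ≠ s' ∧ q = bis (ψ₀ (s b)) (ψ₀ (s' b))}

theorem ambSet_finite {P : Set ℂ} (h : Tile P) (b : ℂ) (ψ₀ : ℂ ≃ᵢ ℂ) : (ambSet P b ψ₀).Finite := by
  apply (Set.Finite.image2 (fun s s' : ℂ ≃ᵢ ℂ => bis (ψ₀ (s b)) (ψ₀ (s' b)))
    h.stab_finite h.stab_finite).subset
  rintro q ⟨s, hs, s', hs', _, rfl⟩
  exact ⟨s, hs, s', hs', rfl⟩

/-- the same as a finset -/
noncomputable def amb {P : Set ℂ} (h : Tile P) (b : ℂ) (ψ₀ : ℂ ≃ᵢ ℂ) : Finset (ℝ × ℝ × ℝ) :=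
  (ambSet_finite h b ψ₀).toFinset

theorem mem_amb {P : Set ℂ} (h : Tile P) (b : ℂ) (ψ₀ : ℂ ≃ᵢ ℂ) (q : ℝ × ℝ × ℝ) :
    q ∈ amb h b ψ₀ ↔ q ∈ ambSet P b ψ₀ := by
  unfold amb
  simp

theorem amb_ndg {P : Set ℂ} (h : Tile P) {b : ℂ} (hb : ∀ φ ∈ stab P, φ ≠ 1 → φ b ≠ b)
    (ψ₀ : ℂ ≃ᵢ ℂ) : ∀ q ∈ amb h b ψ₀, ndg q := by
  intro q hq
  rw [mem_amb] at hq
  obtain ⟨s, h1, s', h2, h3, rfl⟩ := hq
  apply ndg_bis
  intro heq
  have heq := ψ₀.injective heq
  have hs : s⁻¹ * s' ∈ stab P := (stab P).mul_mem ((stab P).inv_mem h1) h2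
  apply hb _ hs
  · intro h4
    exact h3 (inv_mul_eq_one.1 h4)
  · rw [IsometryEquiv.mul_apply, ← heq]
    simp

theorem exists_piece {P : Set ℂ} (h : Tile P) {b : ℂ} (ψ₀ : ℂ ≃ᵢ ℂ) {z : ℂ}
    (hz : z ∈ ψ₀ '' interior P) (hoff : ∀ q ∈ amb h b ψ₀, hh q z ≠ 0) :
    ∃ ψ : ℂ ≃ᵢ ℂ, ψ '' P = ψ₀ '' P ∧ z ∈ ψ '' piece P b := by
  classical
  obtain ⟨s, hs, hmin⟩ := Finset.exists_min_image h.stab_finite.toFinset
    (fun s : ℂ ≃ᵢ ℂ => ‖z - ψ₀ (s b)‖) ⟨1, by simp [(stab P).one_mem]⟩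
  simp only [Set.Finite.mem_toFinset, Set.mem_ofPred_eq] at hs hmin
  have hstrict : ∀ s' ∈ stab P, s' ≠ s → ‖z - ψ₀ (s b)‖ < ‖z - ψ₀ (s' b)‖ := by
    intro s' hs' hne
    refine lt_of_le_of_ne (hmin s' hs') ?_
    intro heq
    apply hoff (bis (ψ₀ (s b)) (ψ₀ (s' b)))
    · rw [mem_amb]
      exact ⟨s, hs, s', hs', hne.symm, rfl⟩
    · rw [hh_bis, heq]; ring
  refine ⟨ψ₀ * s, ?_, ?_⟩
  · rw [mul_image, mem_stab.1 hs]
  · obtain ⟨y, hy, rfl⟩ := hz
    refine ⟨s⁻¹ y, ⟨?_, ?_⟩, ?_⟩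
    · have h1 : (s⁻¹ : ℂ ≃ᵢ ℂ) '' P = P := mem_stab.1 ((stab P).inv_mem hs)
      rw [← h1, interior_image]
      exact ⟨y, hy, rfl⟩
    · intro φ hφ hne
      have k := hstrict (s * φ) ((stab P).mul_mem hs hφ) (by
        intro h2
        exact hne (mul_eq_left.1 h2))
      rw [iso_norm, iso_norm, IsometryEquiv.mul_apply] at k
      have e1 : ‖s⁻¹ y - b‖ = ‖y - s b‖ := by
        rw [← iso_norm s (s⁻¹ y) b]; simp
      have e2 : ‖s⁻¹ y - φ b‖ = ‖y - s (φ b)‖ := by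
        rw [← iso_norm s (s⁻¹ y) (φ b)]; simp
      rw [e1, e2]
      exact k
    · rw [IsometryEquiv.mul_apply]; simp

theorem piece_nonempty {P : Set ℂ} (h : Tile P) {b : ℂ}
    (hb : ∀ φ ∈ stab P, φ ≠ 1 → φ b ≠ b) : (piece P b).Nonempty := by
  obtain ⟨z, hz1, hz2⟩ := exists_off_lines (amb h b 1) (amb_ndg h hb 1) isOpen_interior h.inter
  obtain ⟨ψ, _, x, hx, _⟩ := exists_piece h (b := b) 1 (z := z) ⟨z, hz1, rfl⟩ hz2
  exact ⟨x, hx⟩

/-- finitely many disjoint congruent copies fit in a bounded set -/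
theorem finite_of_disjoint {ι : Type*} {A : ι → Set ℂ} {B : Set ℂ} (hB : Bornology.IsBounded B)
    {U : Set ℂ} (hU : IsOpen U) (hne : U.Nonempty) (hA : ∀ i, ∃ φ : ℂ ≃ᵢ ℂ, A i = φ '' U)
    (hsub : ∀ i, A i ⊆ B) (hd : ∀ i j, i ≠ j → Disjoint (A i) (A j)) : Finite ι := by
  have hpos : 0 < volume U := hU.measure_pos volume hne
  have h1 : Set.Finite {i | volume U ≤ volume (A i)} := by
    apply Measure.finite_const_le_meas_of_disjoint_iUnion volume hpos
    · intro i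
      obtain ⟨φ, hφ⟩ := hA i
      rw [hφ]
      exact (φ.toHomeomorph.isOpenMap U hU).measurableSet
    · intro i j hij
      exact hd i j hij
    · exact ne_top_of_le_ne_top hB.measure_lt_top.ne (measure_mono (Set.iUnion_subset hsub))
  have h2 : {i | volume U ≤ volume (A i)} = Set.univ := by
    ext i
    obtain ⟨φ, hφ⟩ := hA i
    simp [hφ, volume_image]
  rw [h2] at h1
  exact Set.finite_univ_iff.1 h1

theorem tiles_finite {P : Set ℂ} (h : Tile P) {T : Set (Set ℂ)} (hT : IsMonohedral P T)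
    {D : Set ℂ} (hD : Bornology.IsBounded D) : {t | t ∈ T ∧ (t ∩ D).Nonempty}.Finite := by
  obtain ⟨R, hR⟩ := (isBounded_iff_forall_norm_le).1 h.compact.isBounded
  obtain ⟨R', hR'⟩ := (isBounded_iff_forall_norm_le).1 hD
  have hfin : Finite {t | t ∈ T ∧ (t ∩ D).Nonempty} := by
    refine finite_of_disjoint (A := fun t : {t | t ∈ T ∧ (t ∩ D).Nonempty} => interior t.1)
      (B := Metric.closedBall 0 (R' + 2 * R)) Metric.isBounded_closedBall
      isOpen_interior h.inter ?_ ?_ ?_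
    · rintro ⟨t, ht, _⟩
      obtain ⟨φ, hφ⟩ := hT.2 t ht
      exact ⟨φ, by rw [← interior_image, hφ]⟩
    · rintro ⟨t, ht, x, hx1, hx2⟩ y hy
      have hy2 : y ∈ t := interior_subset hy
      obtain ⟨φ, hφ⟩ := hT.2 t ht
      rw [← hφ] at hy2 hx1
      obtain ⟨x', hx', rfl⟩ := hx1
      obtain ⟨y', hy', rfl⟩ := hy2
      rw [Metric.mem_closedBall, dist_zero_right]
      calc ‖φ y'‖ = ‖φ x' + (φ y' - φ x')‖ := by congr 1; ring
        _ ≤ ‖φ x'‖ + ‖φ y' - φ x'‖ := norm_add_le _ _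
        _ = ‖φ x'‖ + ‖y' - x'‖ := by rw [iso_norm]
        _ ≤ ‖φ x'‖ + (‖y'‖ + ‖x'‖) := by gcongr; exact norm_sub_le _ _
        _ ≤ R' + 2 * R := by
          have := hR y' hy'
          have := hR x' hx'
          have := hR' _ hx2
          linarith
    · rintro ⟨t, ht, _⟩ ⟨t', ht', _⟩ hne
      exact hT.1.2.2.2 t ht t' ht' (fun h => hne (Subtype.ext h))
  exact Set.toFinite _

theorem refl_identity {α β γ : ℝ} (hn : α ≠ 0 ∨ β ≠ 0) (z B : ℂ) :
    ‖z - reflMap α β γ B‖ ^ 2 - ‖z - B‖ ^ 2 =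
      4 * (hh (α, β, γ) z * hh (α, β, γ) B) / (α ^ 2 + β ^ 2) := by
  have hpos : 0 < α ^ 2 + β ^ 2 := by
    rcases hn with h | h
    · have := sq_pos_of_ne_zero h
      have := sq_nonneg β
      linarith
    · have := sq_pos_of_ne_zero h
      have := sq_nonneg α
      linarith
  rw [Complex.sq_norm, Complex.sq_norm, Complex.normSq_apply, Complex.normSq_apply]
  simp only [reflMap, hh, Complex.sub_re, Complex.sub_im, Complex.mul_re, Complex.mul_im,
    Complex.ofReal_re, Complex.ofReal_im, Complex.add_re, Complex.add_im, Complex.I_re,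
    Complex.I_im]
  field_simp
  ring

theorem one_sided {P : Set ℂ} (hconn : IsPreconnected (interior P)) {b : ℂ}
    {T : Set (Set ℂ)} (hT : IsMonohedral P T) {α β γ : ℝ} (hn : α ≠ 0 ∨ β ≠ 0)
    (hm : HasMirror T α β γ) {ψ : ℂ ≃ᵢ ℂ} (hψ : ψ '' P ∈ T) :
    (∀ z ∈ ψ '' piece P b, 0 < hh (α, β, γ) z) ∨ (∀ z ∈ ψ '' piece P b, hh (α, β, γ) z < 0) := by
  obtain ⟨ρ, hρ, hρz⟩ := hm
  have hpos : 0 < α ^ 2 + β ^ 2 := by
    rcases hn with h | h
    · have := sq_pos_of_ne_zero h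
      have := sq_nonneg β
      linarith
    · have := sq_pos_of_ne_zero h
      have := sq_nonneg α
      linarith
  by_cases hcase : ρ '' (ψ '' P) = ψ '' P
  · have hs : ψ⁻¹ * ρ * ψ ∈ stab P := by
      rw [mem_stab, mul_image, mul_image, hcase, ← mul_image, inv_mul_cancel]
      simp
    have hs1 : ψ⁻¹ * ρ * ψ ≠ 1 := by
      intro h1
      have hρ1 : ρ = 1 := by
        have : ρ = ψ * (ψ⁻¹ * ρ * ψ) * ψ⁻¹ := by group
        rw [this, h1]; group
      obtain ⟨z, _, hz⟩ := exists_off_lines {((α, β, γ) : ℝ × ℝ × ℝ)} (by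
        intro q hq
        rw [Finset.mem_singleton] at hq
        rw [hq]; exact hn) isOpen_univ ⟨0, trivial⟩
      have hz := hz (α, β, γ) (by simp)
      have h2 := refl_identity hn (γ := γ) z z
      rw [← hρz, hρ1] at h2
      simp only [IsometryEquiv.coe_one, id, sub_self, norm_zero] at h2
      have h3 : 0 < hh (α, β, γ) z * hh (α, β, γ) z := mul_self_pos.2 hz
      have h4 : 0 < 4 * (hh (α, β, γ) z * hh (α, β, γ) z) / (α ^ 2 + β ^ 2) := by positivity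
      linarith
    set B := ψ b with hB
    have key : ∀ z ∈ ψ '' piece P b, 0 < hh (α, β, γ) z * hh (α, β, γ) B := by
      rintro _ ⟨y, hy, rfl⟩
      have k := hy.2 _ hs hs1
      rw [← iso_norm ψ y b, ← iso_norm ψ y ((ψ⁻¹ * ρ * ψ) b)] at k
      have e : ψ ((ψ⁻¹ * ρ * ψ) b) = ρ B := by
        rw [IsometryEquiv.mul_apply, IsometryEquiv.mul_apply]
        simp [hB]
      rw [e, hρz] at k
      have h2 := refl_identity hn (γ := γ) (ψ y) B
      have h3 : 0 < ‖ψ y - reflMap α β γ B‖ ^ 2 - ‖ψ y - B‖ ^ 2 := by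
        have := norm_nonneg (ψ y - B)
        nlinarith
      rw [h2] at h3
      have h4 : 4 * (hh (α, β, γ) (ψ y) * hh (α, β, γ) B) =
          (4 * (hh (α, β, γ) (ψ y) * hh (α, β, γ) B) / (α ^ 2 + β ^ 2)) * (α ^ 2 + β ^ 2) := by
        field_simp
      have h5 := mul_pos h3 hpos
      rw [← h4] at h5
      linarith
    rcases lt_trichotomy (hh (α, β, γ) B) 0 with h1 | h1 | h1
    · right
      intro z hz
      have := key z hz
      nlinarith
    · left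
      intro z hz
      have := key z hz
      rw [h1, mul_zero] at this
      exact absurd this (lt_irrefl _)
    · left
      intro z hz
      have := key z hz
      exact (pos_iff_pos_of_mul_pos this).2 h1
  · have hmem : ρ '' (ψ '' P) ∈ T := (hρ (ψ '' P)).2 hψ
    have hd := hT.1.2.2.2 _ hmem _ hψ hcase
    rw [interior_image, Set.disjoint_left] at hd
    have hne : ∀ z ∈ interior (ψ '' P), hh (α, β, γ) z ≠ 0 := by
      intro z hz h0
      apply hd _ hz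
      refine ⟨z, hz, ?_⟩
      rw [hρz]
      simp only [reflMap, hh] at h0 ⊢
      rw [h0]
      simp
    rw [interior_image] at hne
    have hpre : IsPreconnected (ψ '' interior P) := hconn.image _ ψ.continuous.continuousOn
    have hpre2 : IsPreconnected (hh (α, β, γ) '' (ψ '' interior P)) :=
      hpre.image _ (continuous_hh _).continuousOn
    have hsub : ψ '' piece P b ⊆ ψ '' interior P := Set.image_mono fun z hz => hz.1
    by_contra hcon
    push Not at hcon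
    obtain ⟨⟨x, hx, hx0⟩, ⟨y, hy, hy0⟩⟩ := hcon
    have hx' : hh (α, β, γ) x < 0 := lt_of_le_of_ne hx0 (hne x (hsub hx))
    have hy' : 0 < hh (α, β, γ) y := lt_of_le_of_ne hy0 (hne y (hsub hy)).symm
    have := hpre2.ordConnected.out ⟨x, hsub hx, rfl⟩ ⟨y, hsub hy, rfl⟩
    obtain ⟨w, hw, hw0⟩ := this ⟨hx'.le, hy'.le⟩
    exact hne w hw hw0

theorem diss_of_mirrors {P : Set ℂ} (h : Tile P) (hconn : IsPreconnected (interior P)) {b : ℂ}
    (hb : ∀ φ ∈ stab P, φ ≠ 1 → φ b ≠ b)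
    {T : Set (Set ℂ)} (hT : IsMonohedral P T) {α β γ : ℝ} (hn : α ≠ 0 ∨ β ≠ 0)
    (m1 : HasMirror T 0 1 0) (m2 : HasMirror T 1 0 0) (m3 : HasMirror T α β γ) {D : Set ℂ}
    (hD : Bornology.IsBounded D)
    (hDe : ∀ z : ℂ, z ∈ D ↔ 0 < z.re ∧ 0 < z.im ∧ α * z.re + β * z.im - γ < 0) :
    ∃ N, Diss (piece P b) D N := by
  classical
  have hside : ∀ ψ : ℂ ≃ᵢ ℂ, ψ '' P ∈ T → (ψ '' piece P b ∩ D).Nonempty → ψ '' piece P b ⊆ D := by
    rintro ψ hψ ⟨x, hx, hxD⟩ z hz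
    rw [hDe] at hxD ⊢
    obtain ⟨d1, d2, d3⟩ := hxD
    refine ⟨?_, ?_, ?_⟩
    · rcases one_sided hconn (b := b) hT (Or.inl one_ne_zero) m2 hψ with h1 | h1
      · have := h1 z hz
        simp only [hh] at this
        linarith
      · have := h1 x hx
        simp only [hh] at this
        linarith
    · rcases one_sided hconn (b := b) hT (Or.inr one_ne_zero) m1 hψ with h1 | h1
      · have := h1 z hz
        simp only [hh] at this
        linarith
      · have := h1 x hx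
        simp only [hh] at this
        linarith
    · rcases one_sided hconn (b := b) hT hn m3 hψ with h1 | h1
      · have := h1 x hx
        simp only [hh] at this
        linarith
      · have := h1 z hz
        simp only [hh] at this
        linarith
  have hJfin : {ψ : ℂ ≃ᵢ ℂ | ψ '' P ∈ T ∧ ψ '' piece P b ⊆ D}.Finite := by
    have : Finite {ψ : ℂ ≃ᵢ ℂ | ψ '' P ∈ T ∧ ψ '' piece P b ⊆ D} := by
      refine finite_of_disjoint
        (A := fun ψ : {ψ : ℂ ≃ᵢ ℂ | ψ '' P ∈ T ∧ ψ '' piece P b ⊆ D} => ψ.1 '' piece P b)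
        (B := D) hD (h.isOpen_piece b) (piece_nonempty h hb) ?_ ?_ ?_
      · exact fun ψ => ⟨ψ.1, rfl⟩
      · exact fun ψ => ψ.2.2
      · intro ψ ψ' hne
        exact piece_disjoint hT ψ.2.1 ψ'.2.1 (fun h => hne (Subtype.ext h))
    exact Set.toFinite _
  have hTfin := tiles_finite h hT hD
  choose! ψ₀ hψ₀ using hT.2
  choose! F hF using fun t (ht : t ∈ T) => (show PolySet t by
    rw [← hψ₀ t ht]; exact PolySet_image _ h.poly)
  set E : Finset (ℝ × ℝ × ℝ) := hTfin.toFinset.biUnion (fun t => F t ∪ amb h b (ψ₀ t)) with hE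
  refine ⟨_, hJfin.toFinset, E, rfl, ?_, ?_, ?_⟩
  · intro q hq
    rw [hE, Finset.mem_biUnion] at hq
    obtain ⟨t, ht, hq⟩ := hq
    simp only [Set.Finite.mem_toFinset, Set.mem_ofPred_eq] at ht
    rw [Finset.mem_union] at hq
    rcases hq with hq | hq
    · exact (hF t ht.1).1 q hq
    · exact amb_ndg h hb _ q hq
  · intro z hz hzD
    obtain ⟨t, ht, hzt⟩ : ∃ t ∈ T, z ∈ t := by
      have : z ∈ ⋃₀ T := by rw [hT.1.2.2.1]; trivial
      exact this
    have htm : t ∈ hTfin.toFinset := by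
      simp only [Set.Finite.mem_toFinset, Set.mem_ofPred_eq]
      exact ⟨ht, z, hzt, hzD⟩
    have hzi : z ∈ interior t := by
      by_contra hcon
      obtain ⟨q, hq, h0⟩ := (hF t ht).2 z ⟨subset_closure hzt, hcon⟩
      apply hz q _ h0
      rw [hE, Finset.mem_biUnion]
      exact ⟨t, htm, Finset.mem_union_left _ hq⟩
    have hzi' : z ∈ ψ₀ t '' interior P := by
      rw [← interior_image, hψ₀ t ht]; exact hzi
    obtain ⟨ψ, hψ1, hψ2⟩ := exists_piece h (b := b) (ψ₀ t) hzi' (by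
      intro q hq
      apply hz q
      rw [hE, Finset.mem_biUnion]
      exact ⟨t, htm, Finset.mem_union_right _ hq⟩)
    have hψT : ψ '' P ∈ T := by rw [hψ1, hψ₀ t ht]; exact ht
    have hψD : ψ '' piece P b ⊆ D := hside ψ hψT ⟨z, hψ2, hzD⟩
    refine ⟨ψ, ⟨(Set.Finite.mem_toFinset _).2 ⟨hψT, hψD⟩, hψ2⟩, ?_⟩
    rintro ψ' ⟨hψ'1, hψ'2⟩
    simp only [Set.Finite.mem_toFinset, Set.mem_ofPred_eq] at hψ'1
    by_contra hne
    exact Set.disjoint_left.1 (piece_disjoint hT hψ'1.1 hψT hne) hψ'2 hψ2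
  · intro φ hφ
    simp only [Set.Finite.mem_toFinset, Set.mem_ofPred_eq] at hφ
    exact hφ.2

end Pool.Agent.H86.AP
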