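import Pool.Agent.H86.AP.Phi

/-!
The functional `Phi` on right triangles.
-/

namespace Pool.Agent.H86.AP

open Set Filter Topology

/-- the open right triangle with legs `a`, `b` along the axes -/
def Tri (a b : ℝ) : Set ℂ := {z | 0 < z.re ∧ 0 < z.im ∧ b * z.re + a * z.im < a * b}

def q1 : ℝ × ℝ × ℝ := (0, 1, 0)
def q2 : ℝ × ℝ × ℝ := (1, 0, 0)
def q3 (a b : ℝ) : ℝ × ℝ × ℝ := (-b, -a, -(a * b))

theorem Tri_eq (a b : ℝ) : Tri a b = {z | 0 < hh q1 z ∧ 0 < hh q2 z ∧ 0 < hh (q3 a b) z} := by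
  ext z
  simp only [Tri, Set.mem_ofPred_eq, hh, q1, q2, q3]
  constructor
  · rintro ⟨h1, h2, h3⟩
    exact ⟨by linarith, by linarith, by linarith⟩
  · rintro ⟨h1, h2, h3⟩
    exact ⟨by linarith, by linarith, by linarith⟩

theorem isOpen_Tri (a b : ℝ) : IsOpen (Tri a b) := by
  rw [Tri_eq]
  exact (isOpen_lt continuous_const (continuous_hh _)).inter
    ((isOpen_lt continuous_const (continuous_hh _)).inter
      (isOpen_lt continuous_const (continuous_hh _)))

theorem ndg_q1 : ndg q1 := Or.inr one_ne_zero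
theorem ndg_q2 : ndg q2 := Or.inl one_ne_zero
theorem ndg_q3 {a : ℝ} (ha : 0 < a) (b : ℝ) : ndg (q3 a b) :=
  Or.inr (by simp only [q3]; linarith)

theorem Cov_Tri {a : ℝ} (ha : 0 < a) (b : ℝ) : Cov {q1, q2, q3 a b} (Tri a b) := by
  constructor
  · intro q hq
    simp only [Finset.mem_insert, Finset.mem_singleton] at hq
    rcases hq with rfl | rfl | rfl
    · exact ndg_q1
    · exact ndg_q2
    · exact ndg_q3 ha b
  · intro z hz
    rw [(isOpen_Tri a b).frontier_eq] at hz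
    obtain ⟨hz1, hz2⟩ := hz
    have hcl : closure (Tri a b) ⊆ {z | 0 ≤ hh q1 z ∧ 0 ≤ hh q2 z ∧ 0 ≤ hh (q3 a b) z} := by
      apply closure_minimal
      · rw [Tri_eq]
        rintro w ⟨h1, h2, h3⟩
        exact ⟨h1.le, h2.le, h3.le⟩
      · exact (isClosed_le continuous_const (continuous_hh _)).inter
          ((isClosed_le continuous_const (continuous_hh _)).inter
            (isClosed_le continuous_const (continuous_hh _)))
    obtain ⟨h1, h2, h3⟩ := hcl hz1
    by_contra hcon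
    push Not at hcon
    apply hz2
    rw [Tri_eq]
    exact ⟨lt_of_le_of_ne h1 (hcon q1 (by simp)).symm, lt_of_le_of_ne h2 (hcon q2 (by simp)).symm,
      lt_of_le_of_ne h3 (hcon (q3 a b) (by simp)).symm⟩

theorem PolySet_Tri {a : ℝ} (ha : 0 < a) (b : ℝ) : PolySet (Tri a b) := ⟨_, Cov_Tri ha b⟩

open Classical in
/-- indicator of a proposition -/
noncomputable def ind (p : Prop) : ℤ := if p then 1 else 0

theorem ind_pos {p : Prop} (h : p) : ind p = 1 := if_pos h
theorem ind_neg {p : Prop} (h : ¬ p) : ind p = 0 := if_neg h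

theorem qv_Tri {a : ℝ} (ha : 0 < a) (b : ℝ) {p τ ν : ℂ} (hb : bs τ ν) :
    qv (Tri a b) p τ ν = ind (LP q1 p τ ν ∧ LP q2 p τ ν ∧ LP (q3 a b) p τ ν) := by
  unfold qv
  by_cases h : LP q1 p τ ν ∧ LP q2 p τ ν ∧ LP (q3 a b) p τ ν
  · rw [ind_pos h, if_pos]
    filter_upwards [sec_pos h.1, sec_pos h.2.1, sec_pos h.2.2] with z h1 h2 h3
    rw [Tri_eq]
    exact ⟨h1, h2, h3⟩
  · rw [ind_neg h, if_neg]
    intro h'
    have : ∀ᶠ z in sec p τ ν, False := by
      by_cases k1 : LP q1 p τ ν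
      · by_cases k2 : LP q2 p τ ν
        · have k3 : ¬ LP (q3 a b) p τ ν := fun k3 => h ⟨k1, k2, k3⟩
          filter_upwards [sec_neg (ndg_q3 ha b) hb k3, h'] with z hz1 hz2
          rw [Tri_eq] at hz2
          linarith [hz2.2.2]
        · filter_upwards [sec_neg ndg_q2 hb k2, h'] with z hz1 hz2
          rw [Tri_eq] at hz2
          linarith [hz2.2.1]
      · filter_upwards [sec_neg ndg_q1 hb k1, h'] with z hz1 hz2
        rw [Tri_eq] at hz2
        linarith [hz2.1]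
    exact this.exists.elim fun _ h => h

/-! jumps at the three vertices -/

theorem tri3 (x : ℝ) : (x < 0 ∧ ¬ 0 < x ∧ x ≠ 0) ∨ x = 0 ∨ (0 < x ∧ ¬ x < 0 ∧ x ≠ 0) := by
  rcases lt_trichotomy x 0 with h | h | h
  · exact Or.inl ⟨h, not_lt.2 h.le, h.ne⟩
  · exact Or.inr (Or.inl h)
  · exact Or.inr (Or.inr ⟨h, not_lt.2 h.le, h.ne'⟩)

theorem wedge {m1 n1 m2 n2 : ℝ} (h : ¬ (m1 = 0 ∧ m2 = 0)) :
    (ind ((0 < m1 ∨ (m1 = 0 ∧ 0 < n1)) ∧ (0 < m2 ∨ (m2 = 0 ∧ 0 < n2))) -
      ind ((0 < m1 ∨ (m1 = 0 ∧ 0 < -n1)) ∧ (0 < m2 ∨ (m2 = 0 ∧ 0 < -n2)))) =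
    ind (m1 = 0 ∧ 0 < n1 ∧ 0 < m2) + ind (m2 = 0 ∧ 0 < n2 ∧ 0 < m1) -
    ind (m1 = 0 ∧ n1 < 0 ∧ 0 < m2) - ind (m2 = 0 ∧ n2 < 0 ∧ 0 < m1) := by
  unfold ind
  simp only [Left.neg_pos_iff]
  rcases tri3 m1 with ⟨h1, h2, h3⟩ | h1 | ⟨h1, h2, h3⟩ <;>
  rcases tri3 m2 with ⟨k1, k2, k3⟩ | k1 | ⟨k1, k2, k3⟩ <;>
  rcases tri3 n1 with ⟨l1, l2, l3⟩ | l1 | ⟨l1, l2, l3⟩ <;>
  rcases tri3 n2 with ⟨o1, o2, o3⟩ | o1 | ⟨o1, o2, o3⟩ <;>
  simp_all [and_comm]

/-- the imaginary unit on the circle -/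
noncomputable def cI : Circle := ⟨Complex.I, mem_sphere_zero_iff_norm.2 Complex.norm_I⟩

theorem coe_cI : (cI : ℂ) = Complex.I := rfl

/-- hypotenuse length -/
noncomputable def hyp (a b : ℝ) : ℝ := Real.sqrt (a ^ 2 + b ^ 2)

theorem hyp_sq (a b : ℝ) : hyp a b ^ 2 = a ^ 2 + b ^ 2 := Real.sq_sqrt (by positivity)

theorem hyp_pos {a b : ℝ} (ha : 0 < a) : 0 < hyp a b := Real.sqrt_pos.2 (by positivity)

/-- the direction of the hypotenuse -/
noncomputable def cHz (a b : ℝ) : ℂ := ⟨-a / hyp a b, b / hyp a b⟩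

theorem norm_cHz {a b : ℝ} (ha : 0 < a) : ‖cHz a b‖ = 1 := by
  have h := hyp_pos (b := b) ha
  have h2 := hyp_sq a b
  have : ‖cHz a b‖ ^ 2 = 1 := by
    rw [Complex.sq_norm, Complex.normSq_apply]
    simp only [cHz]
    field_simp
    linarith
  have hn := norm_nonneg (cHz a b)
  nlinarith

noncomputable def cH (a b : ℝ) (ha : 0 < a) : Circle :=
  ⟨cHz a b, mem_sphere_zero_iff_norm.2 (norm_cHz ha)⟩

theorem coe_cH (a b : ℝ) (ha : 0 < a) : (cH a b ha : ℂ) = cHz a b := rfl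

theorem iff_one (τ : Circle) : ((τ : ℂ).im = 0 ∧ 0 < (τ : ℂ).re) ↔ τ = 1 := by
  constructor
  · rintro ⟨h1, h2⟩
    apply Circle.ext
    have h := circle_sq τ
    rw [h1] at h
    have : (τ : ℂ).re = 1 := by nlinarith
    exact Complex.ext (by simpa using this) (by simpa using h1)
  · rintro rfl
    simp

theorem iff_I (τ : Circle) : ((τ : ℂ).re = 0 ∧ 0 < (τ : ℂ).im) ↔ τ = cI := by
  constructor
  · rintro ⟨h1, h2⟩
    apply Circle.ext
    have h := circle_sq τ
    rw [h1] at h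
    have : (τ : ℂ).im = 1 := by nlinarith
    rw [coe_cI]
    exact Complex.ext (by simpa using h1) (by simpa using this)
  · rintro rfl
    rw [coe_cI]
    simp

theorem iff_H {a b : ℝ} (ha : 0 < a) (hb : 0 < b) (τ : Circle) :
    (aa (q3 a b) τ = 0 ∧ 0 < (τ : ℂ).im) ↔ τ = cH a b ha := by
  have hh1 := hyp_pos (b := b) ha
  have hh2 := hyp_sq a b
  constructor
  · rintro ⟨h1, h2⟩
    apply Circle.ext
    rw [coe_cH]
    have h := circle_sq τ
    simp only [aa, q3] at h1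
    have e0 : b * (τ : ℂ).re = -(a * (τ : ℂ).im) := by linarith
    have e1 : (hyp a b * (τ : ℂ).im) ^ 2 = b ^ 2 := by
      have : (hyp a b * (τ : ℂ).im) ^ 2 = (a * (τ : ℂ).im) ^ 2 + b ^ 2 * (τ : ℂ).im ^ 2 := by
        rw [mul_pow, hh2]; ring
      rw [this]
      have e2 : (a * (τ : ℂ).im) ^ 2 = (b * (τ : ℂ).re) ^ 2 := by rw [e0]; ring
      rw [e2]
      linear_combination b ^ 2 * h
    have e3 : hyp a b * (τ : ℂ).im = b := by
      have p1 := mul_pos hh1 h2
      nlinarith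
    have e4 : (τ : ℂ).im = b / hyp a b := by
      field_simp; linarith
    have e5 : (τ : ℂ).re = -a / hyp a b := by
      have : b * ((τ : ℂ).re - (-a / hyp a b)) = 0 := by
        rw [mul_sub, e0, e4]
        field_simp
        ring
      have := (mul_eq_zero.1 this).resolve_left hb.ne'
      linarith
    exact Complex.ext e5 e4
  · rintro rfl
    rw [coe_cH]
    simp only [aa, q3, cHz]
    constructor
    · field_simp; ring
    · positivity

theorem neg_eq_iff' (τ σ : Circle) : -τ = σ ↔ τ = -σ := by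
  constructor
  · rintro rfl; simp
  · rintro rfl; simp

theorem iff_neg_one (τ : Circle) : ((τ : ℂ).im = 0 ∧ (τ : ℂ).re < 0) ↔ τ = -1 := by
  rw [← neg_eq_iff', ← iff_one]
  simp

theorem iff_neg_I (τ : Circle) : ((τ : ℂ).re = 0 ∧ (τ : ℂ).im < 0) ↔ τ = -cI := by
  rw [← neg_eq_iff', ← iff_I]
  simp

theorem iff_neg_H {a b : ℝ} (ha : 0 < a) (hb : 0 < b) (τ : Circle) :
    (aa (q3 a b) τ = 0 ∧ (τ : ℂ).im < 0) ↔ τ = -cH a b ha := by
  rw [← neg_eq_iff', ← iff_H ha hb]
  rw [Circle.coe_neg, aa_neg]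
  simp

/-- indicator of a direction -/
noncomputable def dl (d τ : Circle) : ℤ := ind (τ = d)

theorem jj_zero {a b : ℝ} (ha : 0 < a) (hb : 0 < b) (τ : Circle) :
    jj (Tri a b) 0 τ = dl 1 τ - dl cI τ := by
  have hτ := circle_ne τ
  unfold jj
  rw [qv_Tri ha b (bs_I hτ), qv_Tri ha b (bs_negI hτ)]
  have hab := mul_pos ha hb
  have e3 : ∀ ν : ℂ, LP (q3 a b) 0 τ ν := fun ν => Or.inl (by simp [hh, q3, hab])
  have e1 : ∀ ν : ℂ, (LP q1 0 τ ν ↔ (0 < (τ : ℂ).im ∨ ((τ : ℂ).im = 0 ∧ 0 < ν.im))) := by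
    intro ν; simp [LP, hh, aa, q1]
  have e2 : ∀ ν : ℂ, (LP q2 0 τ ν ↔ (0 < (τ : ℂ).re ∨ ((τ : ℂ).re = 0 ∧ 0 < ν.re))) := by
    intro ν; simp [LP, hh, aa, q2]
  simp only [e1, e2, e3, and_true]
  have f1 : (Complex.I * (τ : ℂ)).im = (τ : ℂ).re := by simp
  have f2 : (Complex.I * (τ : ℂ)).re = -(τ : ℂ).im := by simp
  have f3 : (-(Complex.I * (τ : ℂ))).im = -(τ : ℂ).re := by simp
  have f4 : (-(Complex.I * (τ : ℂ))).re = - -(τ : ℂ).im := by simp
  rw [f1, f2, f3, f4]
  rw [wedge]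
  · unfold dl
    simp only [← iff_one, ← iff_I]
    generalize (τ : ℂ).re = x
    generalize (τ : ℂ).im = y
    unfold ind
    rcases tri3 x with ⟨h1, h2, h3⟩ | h1 | ⟨h1, h2, h3⟩ <;>
    rcases tri3 y with ⟨k1, k2, k3⟩ | k1 | ⟨k1, k2, k3⟩ <;>
    simp_all
  · rintro ⟨h1, h2⟩
    exact hτ (Complex.ext (by simpa using h2) (by simpa using h1))

theorem jj_a {a b : ℝ} (ha : 0 < a) (hb : 0 < b) (τ : Circle) :
    jj (Tri a b) a τ = dl (cH a b ha) τ - dl (-1) τ := by
  have hτ := circle_ne τ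
  unfold jj
  rw [qv_Tri ha b (bs_I hτ), qv_Tri ha b (bs_negI hτ)]
  have hab := mul_pos ha hb
  have e2 : ∀ ν : ℂ, LP q2 a τ ν := fun ν => Or.inl (by simp [hh, q2, ha])
  have e1 : ∀ ν : ℂ, (LP q1 a τ ν ↔ (0 < (τ : ℂ).im ∨ ((τ : ℂ).im = 0 ∧ 0 < ν.im))) := by
    intro ν; simp [LP, hh, aa, q1]
  have e0 : hh (q3 a b) a = 0 := by simp [hh, q3]; ring
  have e3 : ∀ ν : ℂ, (LP (q3 a b) a τ ν ↔
      (0 < aa (q3 a b) τ ∨ (aa (q3 a b) τ = 0 ∧ 0 < aa (q3 a b) ν))) := by
    intro ν; simp [LP, e0]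
  simp only [e1, e2, e3, true_and]
  have f1 : (Complex.I * (τ : ℂ)).im = (τ : ℂ).re := by simp
  have f3 : (-(Complex.I * (τ : ℂ))).im = -(τ : ℂ).re := by simp
  have g1 : aa (q3 a b) (Complex.I * τ) = b * (τ : ℂ).im - a * (τ : ℂ).re := by
    simp [aa, q3]; ring
  rw [f1, f3, aa_neg, g1]
  have hsq := circle_sq τ
  rw [wedge]
  · unfold dl
    simp only [← iff_H ha hb, ← iff_neg_one]
    simp only [aa, q3]
    clear e1 e2 e3 f1 f3 g1
    generalize (τ : ℂ).re = x at *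
    generalize (τ : ℂ).im = y at *
    by_cases hy : y = 0
    · subst hy
      have hx : x ≠ 0 := by rintro rfl; norm_num at hsq
      rcases lt_or_gt_of_ne hx with hx | hx
      · have k1 : 0 < -b * x + -a * 0 := by nlinarith
        rw [ind_neg (by intro h; linarith [h.2.1]), ind_neg (by intro h; linarith [h.2.2]),
          ind_pos ⟨rfl, hx, k1⟩, ind_neg (by intro h; linarith [h.2.2]),
          ind_neg (by intro h; linarith [h.2]), ind_pos ⟨rfl, hx⟩]
        norm_num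
      · have k1 : -b * x + -a * 0 < 0 := by nlinarith
        rw [ind_neg (by intro h; linarith [h.2.2]), ind_neg (by intro h; linarith [h.2.2]),
          ind_neg (by intro h; linarith [h.2.1]), ind_neg (by intro h; linarith [h.2.2]),
          ind_neg (by intro h; linarith [h.2]), ind_neg (by intro h; linarith [h.2])]
        norm_num
    · rw [ind_neg (by intro h; exact hy h.1), ind_neg (p := y = 0 ∧ x < 0 ∧ _) (by intro h; exact hy h.1),
        ind_neg (p := y = 0 ∧ x < 0) (by intro h; exact hy h.1)]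
      by_cases hm : -b * x + -a * y = 0 ∧ 0 < y
      · have hx : x < 0 := by nlinarith [hm.1, hm.2, mul_pos ha hm.2]
        have k : 0 < b * y - a * x := by nlinarith [mul_pos hb hm.2]
        rw [ind_pos ⟨hm.1, k, hm.2⟩, ind_neg (by intro h; linarith [h.2.1]), ind_pos hm]
        norm_num
      · rw [ind_neg (fun h => hm ⟨h.1, h.2.2⟩), ind_neg (fun h => hm ⟨h.1, h.2.2⟩), ind_neg hm]
        norm_num
  · rintro ⟨h1, h2⟩
    simp only [aa, q3] at h2
    rw [h1] at h2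
    have : b * (τ : ℂ).re = 0 := by linarith
    have := (mul_eq_zero.1 this).resolve_left hb.ne'
    exact hτ (Complex.ext (by simpa using this) (by simpa using h1))

theorem jj_b {a b : ℝ} (ha : 0 < a) (hb : 0 < b) (τ : Circle) :
    jj (Tri a b) (b * Complex.I) τ = dl (-cI) τ - dl (-cH a b ha) τ := by
  have hτ := circle_ne τ
  unfold jj
  rw [qv_Tri ha b (bs_I hτ), qv_Tri ha b (bs_negI hτ)]
  have hab := mul_pos ha hb
  have e1 : ∀ ν : ℂ, LP q1 (b * Complex.I) τ ν := fun ν => Or.inl (by simp [hh, q1, hb])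
  have e2 : ∀ ν : ℂ, (LP q2 (b * Complex.I) τ ν ↔
      (0 < (τ : ℂ).re ∨ ((τ : ℂ).re = 0 ∧ 0 < ν.re))) := by
    intro ν; simp [LP, hh, aa, q2]
  have e0 : hh (q3 a b) (b * Complex.I) = 0 := by simp [hh, q3]
  have e3 : ∀ ν : ℂ, (LP (q3 a b) (b * Complex.I) τ ν ↔
      (0 < aa (q3 a b) τ ∨ (aa (q3 a b) τ = 0 ∧ 0 < aa (q3 a b) ν))) := by
    intro ν; simp [LP, e0]
  simp only [e1, e2, e3, true_and]
  have f1 : (Complex.I * (τ : ℂ)).re = -(τ : ℂ).im := by simp
  have f3 : (-(Complex.I * (τ : ℂ))).re = - -(τ : ℂ).im := by simp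
  have g1 : aa (q3 a b) (Complex.I * τ) = b * (τ : ℂ).im - a * (τ : ℂ).re := by
    simp [aa, q3]; ring
  rw [f1, f3, aa_neg, g1]
  have hsq := circle_sq τ
  rw [wedge]
  · unfold dl
    simp only [← iff_neg_H ha hb, ← iff_neg_I]
    simp only [aa, q3]
    clear e1 e2 e3 f1 f3 g1
    generalize (τ : ℂ).re = x at *
    generalize (τ : ℂ).im = y at *
    by_cases hx : x = 0
    · subst hx
      have hy : y ≠ 0 := by rintro rfl; norm_num at hsq
      rcases lt_or_gt_of_ne hy with hy | hy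
      · have k1 : 0 < -b * 0 + -a * y := by nlinarith
        rw [ind_pos ⟨rfl, by linarith, k1⟩, ind_neg (by intro h; linarith [h.2.2]),
          ind_neg (by intro h; linarith [h.2.1]), ind_neg (by intro h; linarith [h.2.2]),
          ind_pos ⟨rfl, hy⟩, ind_neg (by intro h; linarith [h.1])]
        norm_num
      · have k1 : -b * 0 + -a * y < 0 := by nlinarith
        rw [ind_neg (by intro h; linarith [h.2.1]), ind_neg (by intro h; linarith [h.2.2]),
          ind_neg (by intro h; linarith [h.2.2]), ind_neg (by intro h; linarith [h.2.2]),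
          ind_neg (by intro h; linarith [h.2]), ind_neg (by intro h; linarith [h.2])]
        norm_num
    · rw [ind_neg (by intro h; exact hx h.1), ind_neg (p := x = 0 ∧ -y < 0 ∧ _) (by intro h; exact hx h.1),
        ind_neg (p := x = 0 ∧ y < 0) (by intro h; exact hx h.1)]
      by_cases hm : -b * x + -a * y = 0 ∧ y < 0
      · have hx' : 0 < x := by nlinarith [hm.1, hm.2, mul_pos ha (neg_pos.2 hm.2)]
        have k : b * y - a * x < 0 := by nlinarith [mul_pos hb (neg_pos.2 hm.2), mul_pos ha hx']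
        rw [ind_neg (by intro h; linarith [h.2.1]), ind_pos ⟨hm.1, k, hx'⟩, ind_pos hm]
        norm_num
      · have hm' : ¬ (-b * x + -a * y = 0 ∧ 0 < x) := by
          rintro ⟨h1, h2⟩
          apply hm
          refine ⟨h1, ?_⟩
          nlinarith [mul_pos hb h2]
        rw [ind_neg (fun h => hm' ⟨h.1, h.2.2⟩), ind_neg (fun h => hm' ⟨h.1, h.2.2⟩), ind_neg hm]
        norm_num
  · rintro ⟨h1, h2⟩
    simp only [aa, q3] at h2
    rw [h1] at h2
    have : a * (τ : ℂ).im = 0 := by linarith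
    have := (mul_eq_zero.1 this).resolve_left ha.ne'
    exact hτ (Complex.ext (by simpa using h1) (by simpa using this))

/-- symmetric indicator of a direction -/
noncomputable def ds (d τ : Circle) : ℤ := dl d τ + dl (-d) τ

theorem dl_neg (d τ : Circle) : dl d (-τ) = dl (-d) τ := by
  unfold dl
  rw [neg_eq_iff']

theorem NN_zero {a b : ℝ} (ha : 0 < a) (hb : 0 < b) (τ : Circle) :
    NN (Tri a b) 0 τ = ds 1 τ - ds cI τ := by
  have h := jj_zero ha hb (-τ)
  rw [Circle.coe_neg] at h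
  unfold NN ds
  rw [jj_zero ha hb, h, dl_neg, dl_neg]
  ring

theorem NN_a {a b : ℝ} (ha : 0 < a) (hb : 0 < b) (τ : Circle) :
    NN (Tri a b) a τ = ds (cH a b ha) τ - ds 1 τ := by
  have h := jj_a ha hb (-τ)
  rw [Circle.coe_neg] at h
  unfold NN ds
  rw [jj_a ha hb, h, dl_neg, dl_neg, neg_neg]
  ring

theorem NN_b {a b : ℝ} (ha : 0 < a) (hb : 0 < b) (τ : Circle) :
    NN (Tri a b) (b * Complex.I) τ = ds cI τ - ds (cH a b ha) τ := by
  have h := jj_b ha hb (-τ)
  rw [Circle.coe_neg] at h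
  unfold NN ds
  rw [jj_b ha hb, h, dl_neg, dl_neg, neg_neg, neg_neg]
  ring

theorem NN_other {a b : ℝ} (ha : 0 < a) (hb : 0 < b) {p : ℂ} (h0 : p ≠ 0) (h1 : p ≠ a)
    (h2 : p ≠ b * Complex.I) (τ : Circle) : NN (Tri a b) p τ = 0 := by
  by_contra hcon
  obtain ⟨q, hq, q', hq', e1, e2, e3, e4⟩ := NN_mem (Cov_Tri ha b) (circle_ne τ) hcon
  have hne : q ≠ q' := by rintro rfl; exact e4 e2
  have key : ∀ q ∈ ({q1, q2, q3 a b} : Finset (ℝ × ℝ × ℝ)), ∀ q' ∈ ({q1, q2, q3 a b} : Finset (ℝ × ℝ × ℝ)),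
      q ≠ q' → hh q p = 0 → hh q' p = 0 → False := by
    have k12 : hh q1 p = 0 → hh q2 p = 0 → False := by
      intro k1 k2
      simp only [hh, q1, q2] at k1 k2
      exact h0 (Complex.ext (by simp; linarith) (by simp; linarith))
    have k13 : hh q1 p = 0 → hh (q3 a b) p = 0 → False := by
      intro k1 k2
      simp only [hh, q1, q3] at k1 k2
      have e : p.im = 0 := by linarith
      rw [e] at k2
      have : b * (p.re - a) = 0 := by linarith
      have := (mul_eq_zero.1 this).resolve_left hb.ne'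
      exact h1 (Complex.ext (by simp; linarith) (by simp; linarith))
    have k23 : hh q2 p = 0 → hh (q3 a b) p = 0 → False := by
      intro k1 k2
      simp only [hh, q2, q3] at k1 k2
      have e : p.re = 0 := by linarith
      rw [e] at k2
      have : a * (p.im - b) = 0 := by linarith
      have := (mul_eq_zero.1 this).resolve_left ha.ne'
      exact h2 (Complex.ext (by simp; linarith) (by simp; linarith))
    intro q hq q' hq' hne e1 e3
    simp only [Finset.mem_insert, Finset.mem_singleton] at hq hq'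
    rcases hq with rfl | rfl | rfl <;> rcases hq' with rfl | rfl | rfl
    · exact hne rfl
    · exact k12 e1 e3
    · exact k13 e1 e3
    · exact k12 e3 e1
    · exact hne rfl
    · exact k23 e1 e3
    · exact k13 e3 e1
    · exact k23 e3 e1
    · exact hne rfl
  exact key q hq q' hq' hne e1 e3

/-- indicator of a point and a direction up to sign -/
noncomputable def dd (v : ℂ) (d : Circle) (x : ℂ × Circle) : ℤ := ind (x.1 = v) * ds d x.2

theorem NN_decomp {a b : ℝ} (ha : 0 < a) (hb : 0 < b) (x : ℂ × Circle) :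
    NN (Tri a b) x.1 x.2 = dd 0 1 x - dd 0 cI x + dd a (cH a b ha) x - dd a 1 x +
      dd (b * Complex.I) cI x - dd (b * Complex.I) (cH a b ha) x := by
  obtain ⟨p, τ⟩ := x
  unfold dd
  simp only
  have n1 : (a : ℂ) ≠ 0 := by exact_mod_cast ha.ne'
  have n2 : (b : ℂ) * Complex.I ≠ 0 := mul_ne_zero (by exact_mod_cast hb.ne') Complex.I_ne_zero
  have n3 : (a : ℂ) ≠ b * Complex.I := by
    intro h
    have := congrArg Complex.re h
    simp at this
    exact ha.ne' this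
  by_cases h0 : p = 0
  · subst h0
    rw [NN_zero ha hb, ind_pos rfl, ind_neg n1.symm, ind_neg n2.symm]
    ring
  by_cases h1 : p = a
  · subst h1
    rw [NN_a ha hb, ind_pos rfl, ind_neg n1, ind_neg n3]
    ring
  by_cases h2 : p = b * Complex.I
  · subst h2
    rw [NN_b ha hb, ind_pos rfl, ind_neg n2, ind_neg n3.symm]
    ring
  rw [NN_other ha hb h0 h1 h2, ind_neg h0, ind_neg h1, ind_neg h2]
  ring

/-- the summand -/
noncomputable def KK (g : ℝ →ₗ[ℚ] ℝ) (x : ℂ × Circle) : ℂ :=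
  (x.2 : ℂ) ^ 3 * ((g ((x.1 * (starRingEnd ℂ) (x.2 : ℂ)).re) : ℝ) : ℂ)

theorem Phi_eq_KK (S : Set ℂ) (g : ℝ →ₗ[ℚ] ℝ) :
    Phi S g = ∑ᶠ x : ℂ × Circle, (NN S x.1 x.2 : ℂ) * KK g x := rfl

theorem KK_neg (g : ℝ →ₗ[ℚ] ℝ) (v : ℂ) (d : Circle) : KK g (v, -d) = KK g (v, d) := by
  unfold KK
  simp only [Circle.coe_neg, map_neg, mul_neg, Complex.neg_re]
  push_cast
  ring

theorem dd_support (v : ℂ) (d : Circle) (g : ℝ →ₗ[ℚ] ℝ) :
    (Function.support fun x : ℂ × Circle => (dd v d x : ℂ) * KK g x).Finite := by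
  apply (Set.toFinite {(v, d), (v, -d)}).subset
  rintro ⟨p, τ⟩ hx
  simp only [Function.mem_support] at hx
  simp only [Set.mem_insert_iff, Set.mem_singleton_iff, Prod.mk.injEq]
  by_contra hcon
  push Not at hcon
  apply hx
  have : dd v d (p, τ) = 0 := by
    unfold dd ds dl
    simp only
    by_cases h1 : p = v
    · rw [ind_neg (hcon.1 h1), ind_neg (hcon.2 h1)]; ring
    · rw [ind_neg h1]; ring
  rw [this]; simp

theorem dd_sum (v : ℂ) (d : Circle) (g : ℝ →ₗ[ℚ] ℝ) :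
    ∑ᶠ x : ℂ × Circle, (dd v d x : ℂ) * KK g x = 2 * KK g (v, d) := by
  have hd : d ≠ -d := (Circle.neg_ne_self d).symm
  have h1 : ∀ x : ℂ × Circle, (dd v d x : ℂ) * KK g x =
      ((ind (x = (v, d)) : ℤ) : ℂ) * KK g x + ((ind (x = (v, -d)) : ℤ) : ℂ) * KK g x := by
    rintro ⟨p, τ⟩
    rw [← add_mul]
    congr 1
    rw [← Int.cast_add]
    congr 1
    unfold dd ds dl
    simp only [Prod.mk.injEq]
    by_cases k1 : p = v
    · rw [ind_pos k1]
      simp [k1]
    · rw [ind_neg k1, ind_neg (p := p = v ∧ τ = d) (fun h => k1 h.1),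
        ind_neg (p := p = v ∧ τ = -d) (fun h => k1 h.1)]
      ring
  have h2 : ∀ y : ℂ × Circle, (Function.support fun x : ℂ × Circle =>
      ((ind (x = y) : ℤ) : ℂ) * KK g x).Finite := by
    intro y
    apply (Set.finite_singleton y).subset
    intro x hx
    simp only [Function.mem_support] at hx
    simp only [Set.mem_singleton_iff]
    by_contra hcon
    apply hx
    rw [ind_neg hcon]; simp
  have h3 : ∀ y : ℂ × Circle, ∑ᶠ x : ℂ × Circle, ((ind (x = y) : ℤ) : ℂ) * KK g x = KK g y := by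
    intro y
    rw [finsum_eq_single _ y]
    · rw [ind_pos rfl]; simp
    · intro x hx
      rw [ind_neg hx]; simp
  rw [finsum_congr h1, finsum_add_distrib (h2 _) (h2 _), h3, h3, KK_neg]
  ring

theorem Phi_Tri {a b : ℝ} (ha : 0 < a) (hb : 0 < b) (g : ℝ →ₗ[ℚ] ℝ) :
    Phi (Tri a b) g = -2 * ((g a : ℝ) : ℂ) - 2 * Complex.I * ((g b : ℝ) : ℂ) -
      2 * (cHz a b) ^ 3 * ((g (hyp a b) : ℝ) : ℂ) := by
  rw [Phi_eq_KK]
  have h1 : ∀ x : ℂ × Circle, (NN (Tri a b) x.1 x.2 : ℂ) * KK g x =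
      ((((((dd 0 1 x : ℂ) * KK g x - (dd 0 cI x : ℂ) * KK g x) +
        (dd a (cH a b ha) x : ℂ) * KK g x) - (dd a 1 x : ℂ) * KK g x) +
        (dd (b * Complex.I) cI x : ℂ) * KK g x) -
        (dd (b * Complex.I) (cH a b ha) x : ℂ) * KK g x) := by
    intro x
    rw [NN_decomp ha hb]
    push_cast
    ring
  have f1 := dd_support 0 1 g
  have f2 := dd_support 0 cI g
  have f3 := dd_support a (cH a b ha) g
  have f4 := dd_support a 1 g
  have f5 := dd_support (b * Complex.I) cI g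
  have f6 := dd_support (b * Complex.I) (cH a b ha) g
  have F1 := (f1.union f2).subset (Function.support_sub _ _)
  have F2 := (F1.union f3).subset (Function.support_add _ _)
  have F3 := (F2.union f4).subset (Function.support_sub _ _)
  have F4 := (F3.union f5).subset (Function.support_add _ _)
  rw [finsum_congr h1, finsum_sub_distrib F4 f6, finsum_add_distrib F3 f5,
    finsum_sub_distrib F2 f4, finsum_add_distrib F1 f3, finsum_sub_distrib f1 f2,
    dd_sum, dd_sum, dd_sum, dd_sum, dd_sum, dd_sum]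
  unfold KK
  simp only [coe_cI, coe_cH, Circle.coe_one]
  have hp := hyp_pos (b := b) ha
  have hs := hyp_sq a b
  have r1 : ((a : ℂ) * (starRingEnd ℂ) (cHz a b)).re = -(a ^ 2 / hyp a b) := by
    simp only [cHz, Complex.mul_re, Complex.conj_re, Complex.conj_im, Complex.ofReal_re,
      Complex.ofReal_im]
    ring
  have r2 : ((b * Complex.I) * (starRingEnd ℂ) (cHz a b)).re = b ^ 2 / hyp a b := by
    simp only [cHz, Complex.mul_re, Complex.mul_im, Complex.conj_re, Complex.conj_im,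
      Complex.ofReal_re, Complex.ofReal_im, Complex.I_re, Complex.I_im]
    ring
  have r3 : ((b * Complex.I) * (starRingEnd ℂ) Complex.I).re = b := by
    simp
  have r4 : ((a : ℂ) * (starRingEnd ℂ) 1).re = a := by simp
  rw [r1, r2, r3, r4]
  have r5 : g (hyp a b) = g (a ^ 2 / hyp a b) + g (b ^ 2 / hyp a b) := by
    rw [← map_add]
    congr 1
    field_simp
    linarith
  rw [r5, map_neg]
  simp only [zero_mul, Complex.zero_re, map_zero, Complex.ofReal_zero, mul_zero]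
  push_cast
  have hI : Complex.I ^ 3 = -Complex.I := by
    rw [pow_succ, Complex.I_sq]; ring
  rw [hI]
  ring

end Pool.Agent.H86.AP
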